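import Pool.Agent.Q295.Ugw.Spec

/-!
# From moments to atoms
-/

set_option autoImplicit false

open scoped ENNReal InnerProductSpace Polynomial Topology
open MeasureTheory Filter

namespace Pool.Agent.Q295.Ugw

variable {Δ : ℕ}

section

variable {Ω : Type*} [MeasurableSpace Ω] {μ : Measure Ω} [IsProbabilityMeasure μ]
  {τ : Ω → Tr Δ} {ν : Measure ℝ} [IsProbabilityMeasure ν]

lemma abs_coord_le (v : H) (w : List ℕ) : |v w| ≤ ‖v‖ :=
  lp.norm_apply_le_norm (by norm_num) v w

lemma norm_dl (w : List ℕ) : ‖dl w‖ = 1 := by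
  unfold dl
  rw [lp.norm_single (by norm_num)]
  simp

instance : Nontrivial H := ⟨⟨dl [], 0, fun h => by
  have := norm_dl []
  rw [h, norm_zero] at this
  exact zero_ne_one this⟩⟩

lemma coord_op_le (T : H →L[ℝ] H) : |(T (dl [])) []| ≤ ‖T‖ := by
  refine (abs_coord_le _ _).trans ?_
  have := T.le_opNorm (dl [])
  rwa [norm_dl, mul_one] at this

lemma pow_bound (σ : Tr Δ) (k : ℕ) : |(((adj σ) ^ k) (dl [])) []| ≤ (2 * Real.sqrt Δ + 1) ^ k := by
  refine (coord_op_le _).trans ((norm_pow_le _ _).trans ?_)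
  exact pow_le_pow_left₀ (norm_nonneg _) ((adj_norm σ).trans (le_add_of_nonneg_right zero_le_one)) k

/-- moments of polynomials -/
lemma moments (hτ : Measurable τ) (R : ℝ) (hR : ν (Set.Icc (-R) R)ᶜ = 0)
    (hmom : ∀ k : ℕ, ∫ x, x ^ k ∂ν = ∫ ω, (((adj (τ ω)) ^ k) (dl [])) [] ∂μ) (q : ℝ[X]) :
    ∫ x, q.eval x ∂ν = ∫ ω, ((Polynomial.aeval (adj (τ ω)) q) (dl [])) [] ∂μ := by
  have h1 : ∀ x : ℝ, q.eval x = ∑ k ∈ Finset.range (q.natDegree + 1), q.coeff k * x ^ k := fun x =>
    Polynomial.eval_eq_sum_range x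
  have h2 : ∀ σ : Tr Δ, ((Polynomial.aeval (adj σ) q) (dl [])) [] =
      ∑ k ∈ Finset.range (q.natDegree + 1), q.coeff k * (((adj σ) ^ k) (dl [])) [] := by
    intro σ
    rw [Polynomial.aeval_eq_sum_range, sum_apply, lp.coeFn_sum, Finset.sum_apply]
    apply Finset.sum_congr rfl
    intro k _
    rw [smul_apply, lp.coeFn_smul, Pi.smul_apply, smul_eq_mul]
  simp only [h1, h2]
  rw [integral_finsetSum, integral_finsetSum]
  · apply Finset.sum_congr rfl
    intro k _
    rw [integral_const_mul, integral_const_mul, hmom k]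
  · intro k _
    apply Integrable.const_mul
    have hm : Measurable (fun ω => (((adj (τ ω)) ^ k) (dl [])) []) := (measurable_pow_dl k []).comp hτ
    exact Integrable.of_bound hm.aestronglyMeasurable ((2 * Real.sqrt Δ + 1) ^ k)
      (Eventually.of_forall fun ω => pow_bound _ k)
  · intro k _
    apply Integrable.const_mul
    refine Integrable.of_bound (by fun_prop) (|R| ^ k) ?_
    have : ∀ᵐ x ∂ν, x ∈ Set.Icc (-R) R := by
      rw [ae_iff]
      exact hR
    filter_upwards [this] with x hx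
    rw [norm_pow]
    apply pow_le_pow_left₀ (norm_nonneg _)
    rw [Real.norm_eq_abs]
    exact (abs_le.2 hx).trans (le_abs_self R)

/-- the test polynomial -/
noncomputable def PP (l M : ℝ) : ℝ[X] :=
  1 - Polynomial.C ((M ^ 2)⁻¹) * (Polynomial.X - Polynomial.C l) ^ 2

lemma aeval_PP (T : H →L[ℝ] H) (l M : ℝ) : Polynomial.aeval T (PP l M) = CC T l M := by
  unfold PP CC
  rw [map_sub, map_one, map_mul, map_pow, map_sub, Polynomial.aeval_X, Polynomial.aeval_C,
    Polynomial.aeval_C, Algebra.algebraMap_eq_smul_one, Algebra.algebraMap_eq_smul_one, smul_mul_assoc,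
    one_mul]

lemma eval_PP (l M x : ℝ) : (PP l M).eval x = 1 - (M ^ 2)⁻¹ * (x - l) ^ 2 := by
  unfold PP
  simp

/-- **no eigenvector at the root, no atom.** -/
theorem atom_zero (hτ : Measurable τ) (R : ℝ) (hR : ν (Set.Icc (-R) R)ᶜ = 0)
    (hmom : ∀ k : ℕ, ∫ x, x ^ k ∂ν = ∫ ω, (((adj (τ ω)) ^ k) (dl [])) [] ∂μ) (l : ℝ)
    (hP : μ {ω | Pt l (τ ω)} = 0) : ν {l} = 0 := by
  set M : ℝ := 2 * Real.sqrt Δ + |l| + |R| + 1 with hMdef
  have hsq := Real.sqrt_nonneg Δ
  have hM : 0 < M := by positivity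
  have hM2 : 2 * Real.sqrt Δ + |l| ≤ M := by
    have := abs_nonneg R
    rw [hMdef]; linarith
  -- values of the test polynomials on the support
  have hval : ∀ x ∈ Set.Icc (-R) R, 0 ≤ (PP l M).eval x ∧ (PP l M).eval x ≤ 1 ∧
      (x ≠ l → (PP l M).eval x < 1) := by
    intro x hx
    rw [eval_PP]
    have h1 : |x - l| ≤ M := by
      have h2 : |x| ≤ |R| := (abs_le.2 hx).trans (le_abs_self R)
      have h3 : |x - l| ≤ |x| + |l| := abs_sub _ _
      rw [hMdef]; linarith
    have h4 : (x - l) ^ 2 ≤ M ^ 2 := by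
      rw [← sq_abs]
      exact pow_le_pow_left₀ (abs_nonneg _) h1 2
    have h5 : (M ^ 2)⁻¹ * (x - l) ^ 2 ≤ 1 := by
      rw [inv_mul_le_iff₀ (by positivity)]
      linarith
    have h6 : 0 ≤ (M ^ 2)⁻¹ * (x - l) ^ 2 := by positivity
    refine ⟨by linarith, by linarith, fun hne => ?_⟩
    have h7 : 0 < (x - l) ^ 2 := by
      have : x - l ≠ 0 := sub_ne_zero.2 hne
      positivity
    have : 0 < (M ^ 2)⁻¹ * (x - l) ^ 2 := by positivity
    linarith
  have hae : ∀ᵐ x ∂ν, x ∈ Set.Icc (-R) R := by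
    rw [ae_iff]
    exact hR
  set a : ℕ → ℝ := fun j => ∫ x, ((PP l M) ^ j).eval x ∂ν with ha
  -- first limit
  have hlim1 : Tendsto a atTop (𝓝 (ν.real {l})) := by
    have h1 : ν.real {l} = ∫ x, ({l} : Set ℝ).indicator (1 : ℝ → ℝ) x ∂ν := by
      rw [integral_indicator_one (measurableSet_singleton l)]
    rw [h1]
    refine tendsto_integral_of_dominated_convergence (fun _ => (1 : ℝ)) ?_ (integrable_const _) ?_ ?_
    · intro j
      exact (Polynomial.continuous _).aestronglyMeasurable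
    · intro j
      filter_upwards [hae] with x hx
      obtain ⟨h2, h3, -⟩ := hval x hx
      rw [Polynomial.eval_pow, norm_pow, Real.norm_of_nonneg h2]
      exact pow_le_one₀ h2 h3
    · filter_upwards [hae] with x hx
      obtain ⟨h2, h3, h4⟩ := hval x hx
      simp only [Polynomial.eval_pow]
      by_cases hxl : x = l
      · subst hxl
        have : (PP x M).eval x = 1 := by rw [eval_PP]; simp
        simp only [this, one_pow]
        rw [Set.indicator_of_mem (Set.mem_singleton x)]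
        exact tendsto_const_nhds
      · rw [Set.indicator_of_notMem (by simpa using hxl)]
        exact tendsto_pow_atTop_nhds_zero_of_lt_one h2 (h4 hxl)
  have hces := hlim1.cesaro
  -- second limit
  have hmeas : ∀ j, Measurable (fun ω => (((CC (adj (τ ω)) l M) ^ j) (dl [])) []) := by
    intro j
    have e : (fun ω => (((CC (adj (τ ω)) l M) ^ j) (dl [])) []) = fun ω =>
        ∑ k ∈ Finset.range (((PP l M) ^ j).natDegree + 1), ((PP l M) ^ j).coeff k *
          (((adj (τ ω)) ^ k) (dl [])) [] := by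
      funext ω
      rw [← aeval_PP, ← map_pow, Polynomial.aeval_eq_sum_range, sum_apply,
        lp.coeFn_sum, Finset.sum_apply]
      apply Finset.sum_congr rfl
      intro k _
      rw [smul_apply, lp.coeFn_smul, Pi.smul_apply, smul_eq_mul]
    rw [e]
    exact Finset.measurable_sum _ fun k _ => ((measurable_pow_dl k []).comp hτ).const_mul _
  have hbd : ∀ j ω, |(((CC (adj (τ ω)) l M) ^ j) (dl [])) []| ≤ 1 := by
    intro j ω
    refine (coord_op_le _).trans ((norm_pow_le _ _).trans ?_)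
    exact pow_le_one₀ (norm_nonneg _) (CC_le (adj_symm _) hM ((shift_norm _ l).trans hM2))
  have ha2 : ∀ j, a j = ∫ ω, (((CC (adj (τ ω)) l M) ^ j) (dl [])) [] ∂μ := by
    intro j
    rw [ha]
    simp only
    rw [moments hτ R hR hmom]
    congr 1
    funext ω
    rw [map_pow, aeval_PP]
  have hlim2 : Tendsto (fun n : ℕ => (n : ℝ)⁻¹ * ∑ j ∈ Finset.range n, a j) atTop (𝓝 0) := by
    have h1 : ∀ n : ℕ, (n : ℝ)⁻¹ * ∑ j ∈ Finset.range n, a j =
        ∫ ω, (n : ℝ)⁻¹ * ∑ j ∈ Finset.range n, (((CC (adj (τ ω)) l M) ^ j) (dl [])) [] ∂μ := by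
      intro n
      rw [integral_const_mul, integral_finsetSum]
      · simp only [ha2]
      · intro j _
        exact Integrable.of_bound (hmeas j).aestronglyMeasurable 1 (Eventually.of_forall (hbd j))
    simp only [h1]
    have h0 : (0 : ℝ) = ∫ ω, (0 : ℝ) ∂μ := by simp
    rw [h0]
    refine tendsto_integral_of_dominated_convergence (fun _ => (1 : ℝ)) ?_ (integrable_const _) ?_ ?_
    · intro n
      exact ((Finset.measurable_sum _ fun j _ => hmeas j).const_mul _).aestronglyMeasurable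
    · intro n
      refine Eventually.of_forall fun ω => ?_
      rw [norm_mul, norm_inv, Real.norm_natCast]
      have h2 : ‖∑ j ∈ Finset.range n, (((CC (adj (τ ω)) l M) ^ j) (dl [])) []‖ ≤ n := by
        refine (norm_sum_le _ _).trans ?_
        calc ∑ j ∈ Finset.range n, ‖(((CC (adj (τ ω)) l M) ^ j) (dl [])) []‖
            ≤ ∑ j ∈ Finset.range n, (1 : ℝ) := Finset.sum_le_sum fun j _ => hbd j ω
          _ = n := by simp
      rcases Nat.eq_zero_or_pos n with rfl | hn
      · simp
      · have hn' : (0 : ℝ) < n := by exact_mod_cast hn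
        rw [inv_mul_le_iff₀ hn']
        linarith
    · have hae2 : ∀ᵐ ω ∂μ, ¬ Pt l (τ ω) := by
        rw [ae_iff]
        simpa using hP
      filter_upwards [hae2] with ω hω
      exact cesaro_zero hM hM2 hω
  have h3 : ν.real {l} = 0 := tendsto_nhds_unique hces hlim2
  rw [measureReal_def] at h3
  rcases (ENNReal.toReal_eq_zero_iff _).1 h3 with h4 | h4
  · exact h4
  · exact absurd h4 (measure_ne_top _ _)

end

end Pool.Agent.Q295.Ugw
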