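import Pool.Agent.Q295.Ugw.Rec

/-!
# Walk counts and the spectral mass
-/

set_option autoImplicit false

open scoped ENNReal InnerProductSpace Polynomial Topology
open MeasureTheory Filter

namespace Pool.Agent.Q295.Ugw

variable {Δ : ℕ}

/-! ### walks -/

/-- neighbours -/
def nbr (τ : Tr Δ) (w : List ℕ) : Finset (List ℕ) :=
  (Finset.range (τ w)).image (fun i => w ++ [i]) ∪ if w = [] then ∅ else {w.dropLast}

/-- walks of length `k` from `w` to the root -/
def Wf (τ : Tr Δ) : (k : ℕ) → List ℕ → Finset (Fin (k + 1) → List ℕ)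
  | 0, w => if w = [] then {fun _ => []} else ∅
  | (k + 1), w => (nbr τ w).biUnion fun v => (Wf τ k v).image (fun f => Fin.cons w f)

lemma mem_of_nbr {τ : Tr Δ} {w v : List ℕ} (hw : mem τ w) (hv : v ∈ nbr τ w) : mem τ v := by
  unfold nbr at hv
  rw [Finset.mem_union] at hv
  rcases hv with hv | hv
  · obtain ⟨i, hi, rfl⟩ := Finset.mem_image.1 hv
    exact (mem_append τ w i).2 ⟨hw, Finset.mem_range.1 hi⟩
  · by_cases h0 : w = []
    · simp [h0] at hv
    · rw [if_neg h0, Finset.mem_singleton] at hv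
      subst hv
      obtain ⟨⟨u, j⟩, rfl⟩ := snoc_range w h0
      simp only [List.dropLast_concat]
      exact ((mem_append τ u j).1 hw).1

lemma nbr_iff {τ : Tr Δ} {w v : List ℕ} (hw : mem τ w) :
    v ∈ nbr τ w ↔ mem τ v ∧ ((∃ a : ℕ, v = w ++ [a]) ∨ (∃ a : ℕ, w = v ++ [a])) := by
  constructor
  · intro hv
    refine ⟨mem_of_nbr hw hv, ?_⟩
    unfold nbr at hv
    rw [Finset.mem_union] at hv
    rcases hv with hv | hv
    · obtain ⟨i, hi, rfl⟩ := Finset.mem_image.1 hv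
      exact Or.inl ⟨i, rfl⟩
    · by_cases h0 : w = []
      · simp [h0] at hv
      · rw [if_neg h0, Finset.mem_singleton] at hv
        subst hv
        exact Or.inr ⟨w.getLast h0, (List.dropLast_append_getLast h0).symm⟩
  · rintro ⟨hv, ⟨a, rfl⟩ | ⟨a, rfl⟩⟩
    · unfold nbr
      rw [Finset.mem_union]
      left
      exact Finset.mem_image.2 ⟨a, Finset.mem_range.2 ((mem_append τ w a).1 hv).2, rfl⟩
    · unfold nbr
      rw [Finset.mem_union]
      right
      rw [if_neg (by simp)]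
      simp

lemma mem_Wf (τ : Tr Δ) (k : ℕ) : ∀ (w : List ℕ), mem τ w → ∀ f : Fin (k + 1) → List ℕ,
    f ∈ Wf τ k w ↔ f 0 = w ∧ f (Fin.last k) = [] ∧ (∀ i, mem τ (f i)) ∧
      ∀ i : Fin k, (∃ a : ℕ, f i.succ = f i.castSucc ++ [a]) ∨
                   (∃ a : ℕ, f i.castSucc = f i.succ ++ [a]) := by
  induction k with
  | zero =>
    intro w hw f
    rw [Wf]
    constructor
    · intro h
      by_cases h0 : w = []
      · rw [if_pos h0, Finset.mem_singleton] at h
        subst h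
        exact ⟨h0.symm, rfl, fun _ => mem_nil τ, fun i => i.elim0⟩
      · rw [if_neg h0] at h
        simp at h
    · rintro ⟨h1, h2, -, -⟩
      have h2' : f 0 = [] := h2
      have h0 : w = [] := by rw [← h1, h2']
      rw [if_pos h0, Finset.mem_singleton]
      funext i
      have : i = 0 := Fin.ext (by have := i.2; simp)
      rw [this, h2']
  | succ k ih =>
    intro w hw f
    rw [Wf, Finset.mem_biUnion]
    constructor
    · rintro ⟨v, hv, hf⟩
      obtain ⟨g, hg, rfl⟩ := Finset.mem_image.1 hf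
      have hvm := mem_of_nbr hw hv
      obtain ⟨h1, h2, h3, h4⟩ := (ih v hvm g).1 hg
      refine ⟨by simp, ?_, ?_, ?_⟩
      · rw [← Fin.succ_last, Fin.cons_succ, h2]
      · intro i
        refine Fin.cases ?_ (fun i => ?_) i
        · simpa using hw
        · simpa using h3 i
      · intro i
        refine Fin.cases ?_ (fun i => ?_) i
        · have := ((nbr_iff hw).1 hv).2
          simpa [h1] using this
        · have := h4 i
          rw [Fin.cons_succ, ← Fin.succ_castSucc, Fin.cons_succ]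
          exact this
    · rintro ⟨h1, h2, h3, h4⟩
      refine ⟨f 1, (nbr_iff hw).2 ⟨h3 1, ?_⟩, Finset.mem_image.2 ⟨Fin.tail f, ?_, ?_⟩⟩
      · have := h4 0
        simpa [h1] using this
      · rw [ih (f 1) (h3 1)]
        refine ⟨rfl, ?_, fun i => h3 _, fun i => ?_⟩
        · show f (Fin.last k).succ = []
          rw [Fin.succ_last]; exact h2
        · have := h4 i.succ
          show (∃ a : ℕ, f i.succ.succ = f i.castSucc.succ ++ [a]) ∨ _
          rw [Fin.succ_castSucc]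
          exact this
      · rw [← h1]
        exact Fin.cons_self_tail f

lemma card_Wf_succ {τ : Tr Δ} (k : ℕ) {w : List ℕ} (hw : mem τ w) :
    (Wf τ (k + 1) w).card = ∑ v ∈ nbr τ w, (Wf τ k v).card := by
  rw [Wf, Finset.card_biUnion]
  · apply Finset.sum_congr rfl
    intro v _
    apply Finset.card_image_of_injective
    intro f g hfg
    exact Fin.cons_right_injective (α := fun _ => List ℕ) w hfg
  · intro v hv v' hv' hne
    rw [Function.onFun, Finset.disjoint_left]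
    intro f hf hf'
    obtain ⟨g, hg, rfl⟩ := Finset.mem_image.1 hf
    obtain ⟨g', hg', he⟩ := Finset.mem_image.1 hf'
    have : g' = g := Fin.cons_right_injective (α := fun _ => List ℕ) w he
    subst this
    have h1 := ((mem_Wf τ k v (mem_of_nbr hw hv) g').1 hg).1
    have h2 := ((mem_Wf τ k v' (mem_of_nbr hw hv') g').1 hg').1
    exact hne (h1.symm.trans h2)

lemma sum_nbr (τ : Tr Δ) (F : List ℕ → ℝ) (w : List ℕ) :
    ∑ v ∈ nbr τ w, F v = chs τ F w + par 0 F w := by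
  unfold nbr
  rw [Finset.sum_union]
  · congr 1
    · rw [Finset.sum_image]
      · rfl
      · intro i _ j _ h
        simpa using h
    · unfold par
      by_cases h : w = [] <;> simp [h]
  · rw [Finset.disjoint_left]
    intro v hv hv'
    obtain ⟨i, hi, rfl⟩ := Finset.mem_image.1 hv
    by_cases h0 : w = []
    · simp [h0] at hv'
    · rw [if_neg h0, Finset.mem_singleton] at hv'
      have := congrArg List.length hv'
      simp at this
      omega

lemma pow_dl (τ : Tr Δ) (k : ℕ) : ((adj τ) ^ (k + 1)) (dl []) = adj τ (((adj τ) ^ k) (dl [])) := by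
  rw [pow_succ']
  rfl

lemma card_Wf (τ : Tr Δ) (k : ℕ) : ∀ w, mem τ w → (((adj τ) ^ k) (dl [])) w = (Wf τ k w).card := by
  induction k with
  | zero =>
    intro w hw
    rw [pow_zero]
    show dl [] w = _
    rw [dl_apply, Wf]
    by_cases h0 : w = [] <;> simp [h0]
  | succ k ih =>
    intro w hw
    rw [pow_dl, adj_apply τ _ w hw, card_Wf_succ k hw, Nat.cast_sum, ← sum_nbr]
    exact Finset.sum_congr rfl fun v hv => ih v (mem_of_nbr hw hv)

lemma ncard_walks (τ : Tr Δ) (k : ℕ) :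
    ((Set.ncard {f : Fin (k + 1) → List ℕ | f 0 = [] ∧ f (Fin.last k) = [] ∧ (∀ i, mem τ (f i)) ∧
      ∀ i : Fin k, (∃ a : ℕ, f i.succ = f i.castSucc ++ [a]) ∨
                   (∃ a : ℕ, f i.castSucc = f i.succ ++ [a])} : ℕ) : ℝ) =
      (((adj τ) ^ k) (dl [])) [] := by
  have : {f : Fin (k + 1) → List ℕ | f 0 = [] ∧ f (Fin.last k) = [] ∧ (∀ i, mem τ (f i)) ∧
      ∀ i : Fin k, (∃ a : ℕ, f i.succ = f i.castSucc ++ [a]) ∨
                   (∃ a : ℕ, f i.castSucc = f i.succ ++ [a])} = ((Wf τ k [] : Finset _) : Set _) := by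
    ext f
    rw [Finset.mem_coe, mem_Wf τ k [] (mem_nil τ) f]
    rfl
  rw [this, Set.ncard_coe_finset, card_Wf τ k [] (mem_nil τ)]

lemma measurable_pow_dl (k : ℕ) : ∀ w, Measurable (fun τ : Tr Δ => (((adj τ) ^ k) (dl [])) w) := by
  classical
  induction k with
  | zero =>
    intro w
    simp only [pow_zero]
    exact measurable_const
  | succ k ih =>
    intro w
    have e : (fun τ : Tr Δ => (((adj τ) ^ (k + 1)) (dl [])) w) = fun τ : Tr Δ =>
        if mem τ w then (∑ i ∈ Finset.range Δ, (if i < (τ w : ℕ) then (1 : ℝ) else 0) *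
          (((adj τ) ^ k) (dl [])) (w ++ [i])) + par 0 (((adj τ) ^ k) (dl [])) w else 0 := by
      funext τ
      rw [pow_dl]
      split_ifs with h
      · rw [adj_apply τ _ w h, chs_eq]
      · rw [adj_apply' τ _ w h]
    rw [e]
    refine Measurable.ite ((isClopen_mem w).isClosed.measurableSet) (Measurable.add ?_ ?_)
      measurable_const
    · refine Finset.measurable_sum _ fun i _ => Measurable.mul ?_ (ih _)
      have : (fun τ : Tr Δ => if i < (τ w : ℕ) then (1 : ℝ) else 0) =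
        (fun a : Fin (Δ + 1) => if i < (a : ℕ) then (1 : ℝ) else 0) ∘ (fun τ => τ w) := rfl
      rw [this]
      exact (measurable_of_finite _).comp (measurable_pi_apply w)
    · by_cases h0 : w = []
      · subst h0; simp
      · simpa [par, h0] using ih w.dropLast

/-! ### the operator `1 - (A - l)²/M²` -/

section op

variable (T : H →L[ℝ] H) (l M : ℝ)

/-- the contraction -/
noncomputable def CC : H →L[ℝ] H := 1 - (M ^ 2)⁻¹ • (T - l • (1 : H →L[ℝ] H)) ^ 2

variable {T l M}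

lemma CC_norm (hT : ∀ f g, ⟪T f, g⟫_ℝ = ⟪f, T g⟫_ℝ) (hM : 0 < M)
    (hTM : ‖T - l • (1 : H →L[ℝ] H)‖ ≤ M) (v : H) :
    ‖CC T l M v‖ ^ 2 ≤ ‖v‖ ^ 2 - (M ^ 2)⁻¹ * ‖(T - l • (1 : H →L[ℝ] H)) v‖ ^ 2 := by
  set B : H →L[ℝ] H := T - l • (1 : H →L[ℝ] H) with hB
  have hBs : ∀ f g, ⟪B f, g⟫_ℝ = ⟪f, B g⟫_ℝ := by
    intro f g
    rw [hB]
    simp only [sub_apply, smul_apply, one_apply_eq_self,
      inner_sub_left, inner_sub_right, inner_smul_left, inner_smul_right, hT]
    simp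
  have hC : CC T l M v = v - (M ^ 2)⁻¹ • B (B v) := by
    unfold CC
    rw [← hB, pow_two B]
    rfl
  rw [hC, @norm_sub_sq_real, inner_smul_right, ← hBs, real_inner_self_eq_norm_sq, norm_smul]
  have h1 : ‖B (B v)‖ ≤ M * ‖B v‖ := (B.le_opNorm _).trans (mul_le_mul_of_nonneg_right hTM (norm_nonneg _))
  have h2 : ‖B (B v)‖ ^ 2 ≤ M ^ 2 * ‖B v‖ ^ 2 := by
    calc ‖B (B v)‖ ^ 2 ≤ (M * ‖B v‖) ^ 2 := pow_le_pow_left₀ (norm_nonneg _) h1 2
      _ = _ := by ring
  have h3 : (‖(M ^ 2)⁻¹‖ * ‖B (B v)‖) ^ 2 ≤ (M ^ 2)⁻¹ * ‖B v‖ ^ 2 := by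
    rw [Real.norm_of_nonneg (by positivity), mul_pow]
    calc ((M ^ 2)⁻¹) ^ 2 * ‖B (B v)‖ ^ 2 ≤ ((M ^ 2)⁻¹) ^ 2 * (M ^ 2 * ‖B v‖ ^ 2) :=
          mul_le_mul_of_nonneg_left h2 (by positivity)
      _ = _ := by field_simp
  linarith

lemma CC_le (hT : ∀ f g, ⟪T f, g⟫_ℝ = ⟪f, T g⟫_ℝ) (hM : 0 < M)
    (hTM : ‖T - l • (1 : H →L[ℝ] H)‖ ≤ M) : ‖CC T l M‖ ≤ 1 := by
  refine ContinuousLinearMap.opNorm_le_bound _ zero_le_one fun v => ?_
  rw [one_mul]
  have h := CC_norm hT hM hTM v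
  have h2 : 0 ≤ (M ^ 2)⁻¹ * ‖(T - l • (1 : H →L[ℝ] H)) v‖ ^ 2 := by positivity
  exact le_of_sq_le_sq (by linarith) (norm_nonneg _)

lemma CC_fix (hT : ∀ f g, ⟪T f, g⟫_ℝ = ⟪f, T g⟫_ℝ) (hM : 0 < M)
    (hTM : ‖T - l • (1 : H →L[ℝ] H)‖ ≤ M) (v : H) (hv : CC T l M v = v) : T v = l • v := by
  have h := CC_norm hT hM hTM v
  rw [hv] at h
  have h3 : (M ^ 2)⁻¹ * ‖(T - l • (1 : H →L[ℝ] H)) v‖ ^ 2 ≤ 0 := by linarith
  have h4 : ‖(T - l • (1 : H →L[ℝ] H)) v‖ ^ 2 ≤ 0 := by
    have : 0 < (M ^ 2)⁻¹ := by positivity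
    by_contra hcon
    push Not at hcon
    have := mul_pos this hcon
    linarith
  have h5 : ‖(T - l • (1 : H →L[ℝ] H)) v‖ = 0 := by
    have := sq_nonneg ‖(T - l • (1 : H →L[ℝ] H)) v‖
    exact pow_eq_zero_iff two_ne_zero |>.1 (le_antisymm h4 this)
  have h6 := norm_eq_zero.1 h5
  have h7 : T v - l • v = 0 := h6
  exact sub_eq_zero.1 h7

end op

lemma sol_of_eigen {l : ℝ} {τ : Tr Δ} {v : H} (hv : adj τ v = l • v) :
    ∃ f, Sol l τ 0 f ∧ f [] = v [] := by
  classical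
  refine ⟨fun w => if mem τ w then v w else 0, ⟨?_, ?_, ?_⟩, by simp⟩
  · intro w hw; simp [hw]
  · intro w hw
    have h1 := adj_apply τ v w hw
    rw [hv] at h1
    have h2 : (l • v : H) w = l * v w := by rw [lp.coeFn_smul]; rfl
    rw [h2] at h1
    simp only [hw, if_true]
    rw [h1]
    congr 1
    · unfold chs
      apply Finset.sum_congr rfl
      intro i hi
      show (if mem τ (w ++ [i]) then v (w ++ [i]) else 0) = v (w ++ [i])
      rw [if_pos ((mem_append τ w i).2 ⟨hw, Finset.mem_range.1 hi⟩)]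
    · by_cases h0 : w = []
      · subst h0; simp
      · obtain ⟨⟨u, j⟩, rfl⟩ := snoc_range w h0
        simp only [par_snoc]
        show (if mem τ u then v u else 0) = v u
        rw [if_pos ((mem_append τ u j).1 hw).1]
  · refine Summable.of_nonneg_of_le (fun _ => sq_nonneg _) (fun w => ?_)
      ((memlp_iff _).1 (lp.memℓp v))
    simp only
    split_ifs
    · exact le_rfl
    · simpa using sq_nonneg (v w)

lemma shift_norm (τ : Tr Δ) (l : ℝ) : ‖adj τ - l • (1 : H →L[ℝ] H)‖ ≤ 2 * Real.sqrt Δ + |l| := by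
  refine (norm_sub_le _ _).trans (add_le_add (adj_norm τ) ?_)
  rw [norm_smul]
  have : ‖(1 : H →L[ℝ] H)‖ ≤ 1 := ContinuousLinearMap.norm_id_le
  calc ‖l‖ * ‖(1 : H →L[ℝ] H)‖ ≤ ‖l‖ * 1 := mul_le_mul_of_nonneg_left this (norm_nonneg _)
    _ = |l| := by rw [mul_one]; rfl

/-- Cesàro averages vanish when there is no eigenvector at the root. -/
lemma cesaro_zero {l M : ℝ} {τ : Tr Δ} (hM : 0 < M) (hM2 : 2 * Real.sqrt Δ + |l| ≤ M)
    (hP : ¬ Pt l τ) :
    Tendsto (fun n : ℕ => (n : ℝ)⁻¹ * ∑ j ∈ Finset.range n, (((CC (adj τ) l M) ^ j) (dl [])) [])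
      atTop (𝓝 0) := by
  have hT := adj_symm τ
  have hTM := (shift_norm τ l).trans hM2
  have h := (CC (adj τ) l M).tendsto_birkhoffAverage_orthogonalProjection (CC_le hT hM hTM) (dl [])
  set E := (CC (adj τ) l M).eqLocus (1 : H →L[ℝ] H) with hE
  set v : H := (E.orthogonalProjectionOnto (dl []) : H) with hv
  have hvE : v ∈ E := (E.orthogonalProjectionOnto (dl [])).2
  have hvfix : CC (adj τ) l M v = v := hvE
  obtain ⟨f, hf, hf0⟩ := sol_of_eigen (CC_fix hT hM hTM v hvfix)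
  have hv0 : v [] = 0 := by rw [← hf0]; exact zero_of_not_Pt hf hP
  have h2 : Tendsto (fun n : ℕ => ⟪dl [], birkhoffAverage ℝ (CC (adj τ) l M) _root_.id n (dl [])⟫_ℝ)
      atTop (𝓝 ⟪dl [], v⟫_ℝ) := tendsto_const_nhds.inner h
  rw [inner_dl, hv0] at h2
  refine h2.congr fun n => ?_
  rw [inner_dl]
  unfold birkhoffAverage birkhoffSum
  rw [lp.coeFn_smul, Pi.smul_apply, lp.coeFn_sum, Finset.sum_apply, smul_eq_mul]
  congr 1
  apply Finset.sum_congr rfl
  intro j _
  simp only [_root_.id]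
  rw [← FunLike.coe_pow_eq_iterate]

end Pool.Agent.Q295.Ugw
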