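import Pool.Agent.Q295.Ugw.Graft

/-!
# Configuration identities at the root
-/

set_option autoImplicit false

open scoped ENNReal InnerProductSpace
open MeasureTheory

namespace Pool.Agent.Q295.Ugw

variable {Δ : ℕ}

/-- both ends of the edge lie in the support of eigenvectors -/
def BB (l : ℝ) (b a : Tr Δ) : Prop := Rt l b ∧ Rt l a ∧ tv l b * tv l a = 1

/-- the edge leads from the support to the boundary -/
def PZ (l : ℝ) (b a : Tr Δ) : Prop := Pt l b ∧ Rt l a ∧ tv l a = 0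

open Classical in
/-- transported mass along an inner edge -/
noncomputable def Th1 (l : ℝ) (b a : Tr Δ) : ℝ :=
  if BB l b a then yv l a / (yv l a + (tv l a) ^ 2 * yv l b) else 0

open Classical in
/-- transported mass along a boundary edge -/
noncomputable def Th2 (l : ℝ) (b a : Tr Δ) : ℝ :=
  if PZ l b a then xv l b * yv l a / (1 + xv l b * yv l a) else 0

/-- the root is in the support -/
def Bc (l : ℝ) {k : ℕ} (d : Fin k → Tr Δ) : Prop := (∀ i, Rt l (d i)) ∧ ∑ i, tv l (d i) = l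

/-- the spectral mass at the root -/
noncomputable def Xo (l : ℝ) {k : ℕ} (d : Fin k → Tr Δ) : ℝ := (1 + ∑ i, yv l (d i))⁻¹

/-- at least two children of type `Pt` -/
def K2 (l : ℝ) {k : ℕ} (d : Fin k → Tr Δ) : Prop := ∃ i j, i ≠ j ∧ Pt l (d i) ∧ Pt l (d j)

open Classical in
/-- the number of children of type `Pt` -/
noncomputable def Kn (l : ℝ) {k : ℕ} (d : Fin k → Tr Δ) : ℝ := ∑ i, if Pt l (d i) then 1 else 0

/-- the other children -/
def rest {j : ℕ} (i : Fin (j + 1)) (d : Fin (j + 1) → Tr Δ) : Fin j → Tr Δ := fun a => d (i.succAbove a)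

/-- the tree seen from the child `i` -/
def bt {j : ℕ} (i : Fin (j + 1)) (d : Fin (j + 1) → Tr Δ) : Tr Δ := graft j (rest i d)

lemma Xo_pos (l : ℝ) {k : ℕ} (d : Fin k → Tr Δ) : 0 < Xo l d := by
  unfold Xo
  have : 0 ≤ ∑ i, yv l (d i) := Finset.sum_nonneg fun i _ => yv_nonneg l _
  positivity

lemma Xo_le (l : ℝ) {k : ℕ} (d : Fin k → Tr Δ) : Xo l d ≤ 1 := by
  unfold Xo
  have : 0 ≤ ∑ i, yv l (d i) := Finset.sum_nonneg fun i _ => yv_nonneg l _
  apply inv_le_one_of_one_le₀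
  linarith

lemma BB_symm {l : ℝ} {b a : Tr Δ} : BB l b a ↔ BB l a b := by
  unfold BB
  constructor
  · rintro ⟨h1, h2, h3⟩; exact ⟨h2, h1, by rwa [mul_comm]⟩
  · rintro ⟨h1, h2, h3⟩; exact ⟨h2, h1, by rwa [mul_comm]⟩

open Classical in
lemma Th1_symm (l : ℝ) (b a : Tr Δ) : Th1 l b a + Th1 l a b = if BB l b a then 1 else 0 := by
  unfold Th1
  by_cases h : BB l b a
  · rw [if_pos h, if_pos (BB_symm.1 h), if_pos h]
    obtain ⟨hb, ha, h1⟩ := h
    have ya := yv_pos ha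
    have yb := yv_pos hb
    have hta : tv l a ≠ 0 := by rintro h0; rw [h0] at h1; simp at h1
    have htb : tv l b = (tv l a)⁻¹ := eq_inv_of_mul_eq_one_left h1
    rw [htb]
    have hD : yv l a + (tv l a) ^ 2 * yv l b ≠ 0 := by positivity
    have hD2 : yv l b + (tv l a)⁻¹ ^ 2 * yv l a ≠ 0 := by positivity
    field_simp
    ring
  · rw [if_neg h, if_neg (fun h' => h (BB_symm.1 h')), if_neg h, add_zero]

lemma Th1_nonneg (l : ℝ) (b a : Tr Δ) : 0 ≤ Th1 l b a := by
  unfold Th1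
  have h1 := yv_nonneg l a
  have h2 := yv_nonneg l b
  split_ifs <;> positivity

lemma Th1_le (l : ℝ) (b a : Tr Δ) : Th1 l b a ≤ 1 := by
  classical
  have h := Th1_symm l b a
  have h2 := Th1_nonneg l a b
  split_ifs at h <;> linarith

lemma Th2_nonneg (l : ℝ) (b a : Tr Δ) : 0 ≤ Th2 l b a := by
  unfold Th2
  have h1 := yv_nonneg l a
  have h2 := xv_nonneg l b
  split_ifs <;> positivity

lemma Th2_le (l : ℝ) (b a : Tr Δ) : Th2 l b a ≤ 1 := by
  unfold Th2
  have h1 := yv_nonneg l a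
  have h2 := xv_nonneg l b
  split_ifs
  · rw [div_le_one (by positivity)]; linarith
  · norm_num

section root

variable {l : ℝ} {j : ℕ} (hj : j + 1 ≤ Δ) (d : Fin (j + 1) → Tr Δ) (i : Fin (j + 1))

lemma sum_rest (F : Tr Δ → ℝ) : ∑ a, F (d a) = F (d i) + ∑ a, F (rest i d a) :=
  Fin.sum_univ_succAbove _ i

include hj

lemma BB_iff : BB l (bt i d) (d i) ↔ Bc l d ∧ tv l (d i) ≠ 0 := by
  have hj' : j ≤ Δ := by omega
  have hsum := sum_rest d i (tv l)
  constructor
  · rintro ⟨hb, ha, h1⟩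
    have hta : tv l (d i) ≠ 0 := by rintro h0; rw [h0] at h1; simp at h1
    have htb : tv l (bt i d) ≠ 0 := by rintro h0; rw [h0] at h1; simp at h1
    rcases Rt_graft_imp hj' _ hb with hZ | ⟨hR, hS⟩
    · exact absurd (Z_graft hj' _ hZ).2.1 htb
    · have h2 := (R_graft hj' _ hR hS).2.1
      refine ⟨⟨?_, ?_⟩, hta⟩
      · rw [Fin.forall_iff_succAbove i]
        exact ⟨ha, hR⟩
      · have h3 : tv l (bt i d) = (l - ∑ a, tv l (rest i d a))⁻¹ := h2
        rw [h3] at h1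
        have h4 : l - ∑ a, tv l (rest i d a) ≠ 0 := sub_ne_zero.2 (Ne.symm hS)
        rw [inv_mul_eq_one₀ h4] at h1
        rw [hsum]; linarith
  · rintro ⟨⟨hR, hS⟩, hta⟩
    rw [hsum] at hS
    have hR' : ∀ a, Rt l (rest i d a) := fun a => hR _
    have hne : ∑ a, tv l (rest i d a) ≠ l := by
      intro h; apply hta; linarith
    have h2 := R_graft hj' _ hR' hne
    refine ⟨h2.1, hR i, ?_⟩
    have h3 : tv l (bt i d) = (l - ∑ a, tv l (rest i d a))⁻¹ := h2.2.1
    rw [h3]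
    have : l - ∑ a, tv l (rest i d a) = tv l (d i) := by linarith
    rw [this, inv_mul_cancel₀ hta]

lemma PZ_iff : PZ l (bt i d) (d i) ↔ Bc l d ∧ tv l (d i) = 0 := by
  have hj' : j ≤ Δ := by omega
  have hsum := sum_rest d i (tv l)
  constructor
  · rintro ⟨hb, ha, h0⟩
    obtain ⟨hR, hS⟩ := (Pt_graft hj' _).1 hb
    refine ⟨⟨?_, ?_⟩, h0⟩
    · rw [Fin.forall_iff_succAbove i]
      exact ⟨ha, hR⟩
    · rw [hsum, h0, hS, zero_add]
  · rintro ⟨⟨hR, hS⟩, h0⟩
    rw [hsum, h0, zero_add] at hS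
    exact ⟨(Pt_graft hj' _).2 ⟨fun a => hR _, hS⟩, hR i, h0⟩

lemma ZP_iff : PZ l (d i) (bt i d) ↔ Pt l (d i) ∧ ∃ a, Pt l (rest i d a) := by
  have hj' : j ≤ Δ := by omega
  constructor
  · rintro ⟨ha, hb, h0⟩
    refine ⟨ha, ?_⟩
    rcases Rt_graft_imp hj' _ hb with hZ | ⟨hR, hS⟩
    · exact hZ
    · have h2 := (R_graft hj' _ hR hS).2.1
      have h3 : tv l (bt i d) = (l - ∑ a, tv l (rest i d a))⁻¹ := h2
      rw [h3] at h0
      exact absurd h0 (inv_ne_zero (sub_ne_zero.2 (Ne.symm hS)))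
  · rintro ⟨ha, hZ⟩
    have h2 := Z_graft hj' _ hZ
    exact ⟨ha, h2.1, h2.2.1⟩

omit hj in
lemma K2_iff : (Pt l (d i) ∧ ∃ a, Pt l (rest i d a)) ↔ Pt l (d i) ∧ K2 l d := by
  constructor
  · rintro ⟨h, a, ha⟩
    exact ⟨h, i, _, (Fin.succAbove_ne i a).symm, h, ha⟩
  · rintro ⟨h, a, b, hab, ha, hb⟩
    refine ⟨h, ?_⟩
    by_cases hai : a = i
    · subst hai
      obtain ⟨c, hc⟩ := Fin.exists_succAbove_eq hab.symm
      exact ⟨c, by unfold rest; rwa [hc]⟩
    · obtain ⟨c, hc⟩ := Fin.exists_succAbove_eq hai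
      exact ⟨c, by unfold rest; rwa [hc]⟩

lemma Th1_val (h : Bc l d) (ht : tv l (d i) ≠ 0) : Th1 l (bt i d) (d i) = yv l (d i) * Xo l d := by
  have hj' : j ≤ Δ := by omega
  have hBB := (BB_iff hj d i).2 ⟨h, ht⟩
  have hsum := sum_rest d i (tv l)
  unfold Th1
  rw [if_pos hBB]
  obtain ⟨hR, hS⟩ := h
  rw [hsum] at hS
  have hne : ∑ a, tv l (rest i d a) ≠ l := by
    intro h; apply ht; linarith
  have h2 : yv l (bt i d) = tv l (graft j (rest i d)) ^ 2 * (1 + ∑ a, yv l (rest i d a)) :=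
    (R_graft hj' (rest i d) (fun a => hR _) hne).2.2
  rw [h2]
  have h3 : tv l (d i) ^ 2 * (tv l (graft j (rest i d)) ^ 2 * (1 + ∑ a, yv l (rest i d a))) =
      1 + ∑ a, yv l (rest i d a) := by
    have : tv l (bt i d) * tv l (d i) = 1 := hBB.2.2
    have h4 : tv l (graft j (rest i d)) * tv l (d i) = 1 := this
    calc tv l (d i) ^ 2 * (tv l (graft j (rest i d)) ^ 2 * (1 + ∑ a, yv l (rest i d a)))
        = (tv l (graft j (rest i d)) * tv l (d i)) ^ 2 * (1 + ∑ a, yv l (rest i d a)) := by ring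
      _ = _ := by rw [h4]; ring
  rw [h3]
  unfold Xo
  rw [sum_rest d i (yv l), div_eq_mul_inv]
  congr 2
  ring

lemma Th2_val (h : Bc l d) (ht : tv l (d i) = 0) : Th2 l (bt i d) (d i) = yv l (d i) * Xo l d := by
  have hj' : j ≤ Δ := by omega
  have hPZ := (PZ_iff hj d i).2 ⟨h, ht⟩
  unfold Th2
  rw [if_pos hPZ]
  have h2 : xv l (bt i d) = (1 + ∑ a, yv l (rest i d a))⁻¹ := xv_graft hj' _ hPZ.1
  rw [h2]
  unfold Xo
  rw [sum_rest d i (yv l)]
  have hs : 0 ≤ ∑ a, yv l (rest i d a) := Finset.sum_nonneg fun i _ => yv_nonneg l _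
  have hy := yv_nonneg l (d i)
  field_simp
  ring

lemma Th2_val' (h : Pt l (d i)) (hK : K2 l d) :
    Th2 l (d i) (bt i d) = xv l (d i) / ∑ a, xv l (d a) := by
  have hj' : j ≤ Δ := by omega
  have hZ := ((K2_iff d i).2 ⟨h, hK⟩).2
  have hPZ := (ZP_iff hj d i).2 ⟨h, hZ⟩
  unfold Th2
  rw [if_pos hPZ]
  have h2 : yv l (bt i d) = (∑ a, xv l (rest i d a))⁻¹ := (Z_graft hj' _ hZ).2.2
  rw [h2, sum_rest d i (xv l)]
  obtain ⟨a, ha⟩ := hZ
  have hs : 0 < ∑ a, xv l (rest i d a) := Finset.sum_pos' (fun i _ => xv_nonneg l _)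
    ⟨a, Finset.mem_univ _, xv_pos ha⟩
  have hx := xv_nonneg l (d i)
  field_simp
  ring

end root

open Classical in
/-- the main identity at the root -/
lemma sum_Th {l : ℝ} {j : ℕ} (hj : j + 1 ≤ Δ) (d : Fin (j + 1) → Tr Δ) :
    ∑ i, (Th1 l (bt i d) (d i) + Th2 l (bt i d) (d i)) = if Bc l d then 1 - Xo l d else 0 := by
  by_cases hB : Bc l d
  · rw [if_pos hB]
    have : ∀ i ∈ Finset.univ, Th1 l (bt i d) (d i) + Th2 l (bt i d) (d i) = yv l (d i) * Xo l d := by
      intro i _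
      by_cases ht : tv l (d i) = 0
      · rw [Th2_val hj d i hB ht]
        have : Th1 l (bt i d) (d i) = 0 := by
          unfold Th1; rw [if_neg]; rw [BB_iff hj d i]; tauto
        rw [this, zero_add]
      · rw [Th1_val hj d i hB ht]
        have : Th2 l (bt i d) (d i) = 0 := by
          unfold Th2; rw [if_neg]; rw [PZ_iff hj d i]; tauto
        rw [this, add_zero]
    rw [Finset.sum_congr rfl this, ← Finset.sum_mul]
    unfold Xo
    have : 0 ≤ ∑ i, yv l (d i) := Finset.sum_nonneg fun i _ => yv_nonneg l _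
    field_simp
    ring
  · rw [if_neg hB]
    apply Finset.sum_eq_zero
    intro i _
    have h1 : Th1 l (bt i d) (d i) = 0 := by
      unfold Th1; rw [if_neg]; rw [BB_iff hj d i]; tauto
    have h2 : Th2 l (bt i d) (d i) = 0 := by
      unfold Th2; rw [if_neg]; rw [PZ_iff hj d i]; tauto
    rw [h1, h2, add_zero]

open Classical in
lemma sum_Th' {l : ℝ} {j : ℕ} (hj : j + 1 ≤ Δ) (d : Fin (j + 1) → Tr Δ) :
    ∑ i, Th2 l (d i) (bt i d) = if K2 l d then 1 else 0 := by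
  by_cases hK : K2 l d
  · rw [if_pos hK]
    have : ∀ i ∈ Finset.univ, Th2 l (d i) (bt i d) = xv l (d i) / ∑ a, xv l (d a) := by
      intro i _
      by_cases hP : Pt l (d i)
      · exact Th2_val' hj d i hP hK
      · rw [xv_of_not hP, zero_div]
        unfold Th2; rw [if_neg]
        intro h; exact hP h.1
    rw [Finset.sum_congr rfl this, ← Finset.sum_div, div_self]
    obtain ⟨i, -, -, hi, -⟩ := hK
    exact (Finset.sum_pos' (fun i _ => xv_nonneg l _) ⟨i, Finset.mem_univ _, xv_pos hi⟩).ne'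
  · rw [if_neg hK]
    apply Finset.sum_eq_zero
    intro i _
    unfold Th2; rw [if_neg]
    rw [ZP_iff hj d i, K2_iff]
    tauto

open Classical in
lemma sum_deg {l : ℝ} {j : ℕ} (hj : j + 1 ≤ Δ) (d : Fin (j + 1) → Tr Δ) :
    ∑ i, ((if BB l (bt i d) (d i) then (1 : ℝ) else 0) + (if PZ l (bt i d) (d i) then (1 : ℝ) else 0)) =
      if Bc l d then ((j : ℝ) + 1) else 0 := by
  by_cases hB : Bc l d
  · rw [if_pos hB, Finset.sum_congr rfl (g := fun _ => (1 : ℝ))]
    · simp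
    · intro i _
      simp only [BB_iff hj d i, PZ_iff hj d i]
      by_cases ht : tv l (d i) = 0 <;> simp [hB, ht]
  · rw [if_neg hB]
    apply Finset.sum_eq_zero
    intro i _
    simp only [BB_iff hj d i, PZ_iff hj d i]
    simp [hB]

open Classical in
lemma sum_ZP {l : ℝ} {j : ℕ} (hj : j + 1 ≤ Δ) (d : Fin (j + 1) → Tr Δ) :
    ∑ i, (if PZ l (d i) (bt i d) then (1 : ℝ) else 0) = if K2 l d then Kn l d else 0 := by
  by_cases hK : K2 l d
  · rw [if_pos hK]
    unfold Kn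
    apply Finset.sum_congr rfl
    intro i _
    rw [ZP_iff hj d i, K2_iff]
    simp [hK]
  · rw [if_neg hK]
    apply Finset.sum_eq_zero
    intro i _
    rw [if_neg]
    rw [ZP_iff hj d i, K2_iff]
    tauto

/-! ### the two antisymmetric functions -/

open Classical in
/-- first antisymmetric function -/
noncomputable def Fs (l : ℝ) (b a : Tr Δ) : ℝ :=
  Th1 l b a + Th2 l b a - Th2 l a b - 1 / 2 * (if BB l b a then 1 else 0)
    + 1 / 2 * ((if PZ l a b then 1 else 0) - (if PZ l b a then 1 else 0))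

lemma Fs_anti (l : ℝ) (b a : Tr Δ) : Fs l b a = - Fs l a b := by
  classical
  unfold Fs
  have h := Th1_symm l b a
  have h2 : (if BB l a b then (1 : ℝ) else 0) = if BB l b a then 1 else 0 := by
    simp only [BB_symm (b := a) (a := b)]
  rw [h2]
  linarith

open Classical in
lemma sum_Fs {l : ℝ} {j : ℕ} (hj : j + 1 ≤ Δ) (d : Fin (j + 1) → Tr Δ) :
    ∑ i, Fs l (bt i d) (d i) =
      (if Bc l d then (1 - Xo l d - ((j : ℝ) + 1) / 2) else 0) +
        (if K2 l d then ((Kn l d - 2) / 2) else 0) := by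
  have e1 := sum_Th (l := l) hj d
  have e2 := sum_Th' (l := l) hj d
  have e3 := sum_deg (l := l) hj d
  have e4 := sum_ZP (l := l) hj d
  have : ∑ i, Fs l (bt i d) (d i) = ∑ i, (Th1 l (bt i d) (d i) + Th2 l (bt i d) (d i))
      - ∑ i, Th2 l (d i) (bt i d)
      - 1 / 2 * ∑ i, ((if BB l (bt i d) (d i) then (1 : ℝ) else 0) +
        (if PZ l (bt i d) (d i) then (1 : ℝ) else 0))
      + 1 / 2 * ∑ i, (if PZ l (d i) (bt i d) then (1 : ℝ) else 0) := by
    rw [Finset.mul_sum, Finset.mul_sum, ← Finset.sum_sub_distrib, ← Finset.sum_sub_distrib,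
      ← Finset.sum_add_distrib]
    apply Finset.sum_congr rfl
    intro i _
    unfold Fs
    ring
  rw [this, e1, e2, e3, e4]
  split_ifs <;> ring

open Classical in
/-- weights from the truncated block sizes -/
noncomputable def wt (l : ℝ) (h : ℕ) (b a : Tr Δ) : ℝ :=
  if BB l b a then (nb l h a : ℝ) / (nb l h a + nb l h b) else 0

/-- second antisymmetric function -/
noncomputable def Fw (l : ℝ) (h : ℕ) (b a : Tr Δ) : ℝ :=
  Th1 l b a + Th2 l b a - Th2 l a b - wt l h b a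

lemma BB_nb {l : ℝ} {b a : Tr Δ} (h : BB l b a) (n : ℕ) : 1 ≤ nb l n a ∧ 1 ≤ nb l n b := by
  obtain ⟨hb, ha, h1⟩ := h
  have hta : tv l a ≠ 0 := by rintro h0; rw [h0] at h1; simp at h1
  have htb : tv l b ≠ 0 := by rintro h0; rw [h0] at h1; simp at h1
  exact ⟨nb_pos_of l n a ⟨ha, hta⟩, nb_pos_of l n b ⟨hb, htb⟩⟩

open Classical in
lemma wt_symm (l : ℝ) (h : ℕ) (b a : Tr Δ) : wt l h b a + wt l h a b = if BB l b a then 1 else 0 := by
  unfold wt
  by_cases hB : BB l b a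
  · rw [if_pos hB, if_pos (BB_symm.1 hB), if_pos hB]
    obtain ⟨h1, h2⟩ := BB_nb hB h
    have h1' : (1 : ℝ) ≤ nb l h a := by exact_mod_cast h1
    have h2' : (1 : ℝ) ≤ nb l h b := by exact_mod_cast h2
    field_simp
    ring
  · rw [if_neg hB, if_neg (fun h' => hB (BB_symm.1 h')), if_neg hB, add_zero]

lemma wt_nonneg (l : ℝ) (h : ℕ) (b a : Tr Δ) : 0 ≤ wt l h b a := by
  unfold wt
  split_ifs <;> positivity

lemma wt_le (l : ℝ) (h : ℕ) (b a : Tr Δ) : wt l h b a ≤ 1 := by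
  classical
  have h1 := wt_symm l h b a
  have h2 := wt_nonneg l h a b
  split_ifs at h1 <;> linarith

lemma Fw_anti (l : ℝ) (h : ℕ) (b a : Tr Δ) : Fw l h b a = - Fw l h a b := by
  classical
  unfold Fw
  have h1 := Th1_symm l b a
  have h2 := wt_symm l h b a
  rw [← h1] at h2
  linarith

lemma wt_sum {l : ℝ} (h : ℕ) {j : ℕ} (hj : j + 1 ≤ Δ) (d : Fin (j + 1) → Tr Δ) (hB : Bc l d)
    (hS : h + 2 ≤ 1 + ∑ i, nb l h (d i)) :
    1 - 1 / ((h : ℝ) + 2) ≤ ∑ i, wt l h (bt i d) (d i) := by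
  have hj' : j ≤ Δ := by omega
  set S : ℝ := 1 + ∑ i, (nb l h (d i) : ℝ) with hSdef
  have hS' : (h : ℝ) + 2 ≤ S := by
    rw [hSdef]
    exact_mod_cast hS
  have hSpos : 0 < S := by have : (0 : ℝ) ≤ h := by positivity
                           linarith
  have hterm : ∀ i ∈ Finset.univ, (nb l h (d i) : ℝ) / S ≤ wt l h (bt i d) (d i) := by
    intro i _
    by_cases ht : tv l (d i) = 0
    · rw [nb_zero_of l h (d i) (fun h' => h'.2 ht)]
      simpa using wt_nonneg l h (bt i d) (d i)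
    · have hBB := (BB_iff hj d i).2 ⟨hB, ht⟩
      obtain ⟨h1, h2⟩ := BB_nb hBB h
      unfold wt
      rw [if_pos hBB]
      have h1' : (1 : ℝ) ≤ nb l h (d i) := by exact_mod_cast h1
      have h2' : (1 : ℝ) ≤ nb l h (bt i d) := by exact_mod_cast h2
      apply div_le_div_of_nonneg_left (by positivity) (by positivity)
      have h3 : nb l h (bt i d) ≤ 1 + ∑ a, nb l h (rest i d a) := by
        refine (nb_mono l h _).trans (le_of_eq ?_)
        refine nb_succ_graft l h hj' (rest i d) ⟨hBB.1, ?_⟩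
        intro h0
        have := hBB.2.2
        have h0' : tv l (bt i d) = 0 := h0
        rw [h0'] at this
        simp at this
      have h4 : ∑ a, (nb l h (d a) : ℝ) = nb l h (d i) + ∑ a, (nb l h (rest i d a) : ℝ) :=
        sum_rest d i (fun τ => (nb l h τ : ℝ))
      have h3' : (nb l h (bt i d) : ℝ) ≤ 1 + ∑ a, (nb l h (rest i d a) : ℝ) := by exact_mod_cast h3
      rw [hSdef, h4]
      linarith
  refine le_trans ?_ (Finset.sum_le_sum hterm)
  rw [← Finset.sum_div]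
  have : ∑ i, (nb l h (d i) : ℝ) = S - 1 := by rw [hSdef]; ring
  rw [this, sub_div, div_self hSpos.ne']
  have : 1 / S ≤ 1 / ((h : ℝ) + 2) := one_div_le_one_div_of_le (by positivity) hS'
  linarith

open Classical in
lemma sum_Fw {l : ℝ} (h : ℕ) {j : ℕ} (hj : j + 1 ≤ Δ) (d : Fin (j + 1) → Tr Δ)
    (hS : Bc l d → h + 2 ≤ 1 + ∑ i, nb l h (d i)) :
    ∑ i, Fw l h (bt i d) (d i) ≤
      (if Bc l d then (1 / ((h : ℝ) + 2) - Xo l d) else 0) - (if K2 l d then 1 else 0) := by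
  have e1 := sum_Th (l := l) hj d
  have e2 := sum_Th' (l := l) hj d
  have : ∑ i, Fw l h (bt i d) (d i) = ∑ i, (Th1 l (bt i d) (d i) + Th2 l (bt i d) (d i))
      - ∑ i, Th2 l (d i) (bt i d) - ∑ i, wt l h (bt i d) (d i) := by
    rw [← Finset.sum_sub_distrib, ← Finset.sum_sub_distrib]
    rfl
  rw [this, e1, e2]
  have h0 : 0 ≤ ∑ i, wt l h (bt i d) (d i) := Finset.sum_nonneg fun i _ => wt_nonneg _ _ _ _
  by_cases hB : Bc l d
  · have := wt_sum h hj d hB (hS hB)
    simp only [hB, if_true]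
    linarith
  · simp only [hB, if_false]
    linarith

end Pool.Agent.Q295.Ugw
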