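import Pool.Agent.Q295.Ugw.Tree

/-!
# Compactness: solutions of bounded energy, minimizers, measurability
-/

set_option autoImplicit false

open scoped ENNReal InnerProductSpace
open MeasureTheory

namespace Pool.Agent.Q295.Ugw

variable {Δ : ℕ}

/-- the energy -/
noncomputable def En (f : List ℕ → ℝ) : ℝ := ∑' w, f w ^ 2

lemma En_nonneg (f : List ℕ → ℝ) : 0 ≤ En f := tsum_nonneg fun _ => sq_nonneg _

lemma continuous_sh (i : ℕ) : Continuous (fun τ : Tr Δ => sh τ i) :=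
  continuous_pi fun v => continuous_apply (i :: v)

lemma isClopen_mem (w : List ℕ) : IsClopen {τ : Tr Δ | mem τ w} := by
  induction w with
  | nil => simpa using isClopen_univ
  | cons i v ih =>
    have h1 : IsClopen {τ : Tr Δ | i < (τ [] : ℕ)} := by
      have : {τ : Tr Δ | i < (τ [] : ℕ)} = (fun τ : Tr Δ => τ []) ⁻¹' {a | i < (a : ℕ)} := rfl
      rw [this]
      exact (isClopen_discrete _).preimage (continuous_apply [])
    have h2 : IsClopen ((fun τ : Tr Δ => sh τ i) ⁻¹' {τ : Tr Δ | mem τ v}) :=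
      ih.preimage (continuous_sh i)
    exact h1.inter h2

lemma chs_eq (τ : Tr Δ) (f : List ℕ → ℝ) (w : List ℕ) :
    chs τ f w = ∑ i ∈ Finset.range Δ, (if i < (τ w : ℕ) then (1 : ℝ) else 0) * f (w ++ [i]) := by
  unfold chs
  simp only [ite_mul, one_mul, zero_mul]
  rw [← Finset.sum_filter]
  apply Finset.sum_congr _ (fun _ _ => rfl)
  ext i
  have := (τ w).is_lt
  simp only [Finset.mem_range, Finset.mem_filter]
  omega

lemma continuous_chs (w : List ℕ) :
    Continuous (fun p : Tr Δ × (List ℕ → ℝ) => chs p.1 p.2 w) := by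
  simp only [chs_eq]
  refine continuous_finsetSum _ fun i _ => Continuous.mul ?_ ?_
  · have : (fun p : Tr Δ × (List ℕ → ℝ) => (if i < (p.1 w : ℕ) then (1 : ℝ) else 0)) =
        (fun a : Fin (Δ + 1) => if i < (a : ℕ) then (1 : ℝ) else 0) ∘ (fun p => p.1 w) := rfl
    rw [this]
    exact continuous_of_discreteTopology.comp ((continuous_apply w).comp continuous_fst)
  · exact (continuous_apply _).comp continuous_snd

/-- pairs (tree, solution) of bounded energy -/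
def Zs (l c : ℝ) (I : Set ℝ) (M : ℝ) : Set (Tr Δ × (List ℕ → ℝ)) :=
  {p | (∀ w, ¬ mem p.1 w → p.2 w = 0) ∧ (∀ w, mem p.1 w → chs p.1 p.2 w + par c p.2 w = l * p.2 w) ∧
    p.2 [] ∈ I ∧ ∀ F : Finset (List ℕ), ∑ w ∈ F, p.2 w ^ 2 ≤ M}

lemma mem_Zs (l c : ℝ) (I : Set ℝ) (M : ℝ) (τ : Tr Δ) (f : List ℕ → ℝ) :
    (τ, f) ∈ Zs l c I M ↔ Sol l τ c f ∧ f [] ∈ I ∧ En f ≤ M := by
  constructor
  · rintro ⟨h1, h2, h3, h4⟩
    have hs : Summable (fun w => f w ^ 2) := summable_of_sum_le (fun _ => sq_nonneg _) h4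
    exact ⟨⟨h1, h2, hs⟩, h3, hs.tsum_le_of_sum_le h4⟩
  · rintro ⟨h1, h2, h3⟩
    exact ⟨h1.supp, h1.eq, h2, fun F => (h1.sq.sum_le_tsum F (fun _ _ => sq_nonneg _)).trans h3⟩

lemma isClosed_Zs (l c : ℝ) (I : Set ℝ) (hI : IsClosed I) (M : ℝ) :
    IsClosed (Zs l c I M : Set (Tr Δ × (List ℕ → ℝ))) := by
  have hmem : ∀ w, IsClopen {p : Tr Δ × (List ℕ → ℝ) | mem p.1 w} := fun w =>
    (isClopen_mem w).preimage continuous_fst
  have hev : ∀ w, Continuous (fun p : Tr Δ × (List ℕ → ℝ) => p.2 w) := fun w =>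
    (continuous_apply w).comp continuous_snd
  have hpar : ∀ w, Continuous (fun p : Tr Δ × (List ℕ → ℝ) => par c p.2 w) := by
    intro w
    by_cases h : w = []
    · subst h; simpa using continuous_const
    · simpa [par, h] using hev w.dropLast
  have : (Zs l c I M : Set (Tr Δ × (List ℕ → ℝ))) =
      (⋂ w, ({p : Tr Δ × (List ℕ → ℝ) | mem p.1 w} ∪ {p | p.2 w = 0})) ∩
      ((⋂ w, ({p : Tr Δ × (List ℕ → ℝ) | mem p.1 w}ᶜ ∪
        {p | chs p.1 p.2 w + par c p.2 w = l * p.2 w})) ∩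
      ({p : Tr Δ × (List ℕ → ℝ) | p.2 [] ∈ I} ∩
        ⋂ F : Finset (List ℕ), {p | ∑ w ∈ F, p.2 w ^ 2 ≤ M})) := by
    ext p
    simp only [Zs, Set.mem_ofPred_eq, Set.mem_inter_iff, Set.mem_iInter, Set.mem_union,
      Set.mem_compl_iff]
    refine and_congr (forall_congr' fun w => by tauto) (and_congr (forall_congr' fun w => by tauto)
      Iff.rfl)
  rw [this]
  refine IsClosed.inter ?_ (IsClosed.inter ?_ (IsClosed.inter ?_ ?_))
  · exact isClosed_iInter fun w => (hmem w).isClosed.union (isClosed_eq (hev w) continuous_const)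
  · exact isClosed_iInter fun w => (hmem w).compl.isClosed.union
      (isClosed_eq ((continuous_chs w).add (hpar w)) (continuous_const.mul (hev w)))
  · exact hI.preimage (hev [])
  · refine isClosed_iInter fun F => isClosed_le ?_ continuous_const
    exact continuous_finsetSum _ fun w _ => (hev w).pow 2

/-- the box containing the solutions of energy at most `M` -/
def bx (M : ℝ) : Set (List ℕ → ℝ) := Set.univ.pi fun _ => Set.Icc (-√M) √M

lemma isCompact_bx (M : ℝ) : IsCompact (bx M) := isCompact_univ_pi fun _ => isCompact_Icc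

lemma Zs_sub (l c : ℝ) (I : Set ℝ) (M : ℝ) :
    (Zs l c I M : Set (Tr Δ × (List ℕ → ℝ))) ⊆ Set.univ ×ˢ bx M := by
  rintro ⟨τ, f⟩ ⟨h1, h2, h3, h4⟩
  refine ⟨trivial, fun w _ => ?_⟩
  have := h4 {w}
  simp only [Finset.sum_singleton] at this
  exact abs_le.1 (Real.abs_le_sqrt this)

lemma isCompact_Zs (l c : ℝ) (I : Set ℝ) (hI : IsClosed I) (M : ℝ) :
    IsCompact (Zs l c I M : Set (Tr Δ × (List ℕ → ℝ))) :=
  (isCompact_univ.prod (isCompact_bx M)).of_isClosed_subset (isClosed_Zs l c I hI M) (Zs_sub l c I M)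

lemma measurable_ex (l c : ℝ) (I : Set ℝ) (hI : IsClosed I) (M : ℝ) :
    MeasurableSet {τ : Tr Δ | ∃ f, Sol l τ c f ∧ f [] ∈ I ∧ En f ≤ M} := by
  have : {τ : Tr Δ | ∃ f, Sol l τ c f ∧ f [] ∈ I ∧ En f ≤ M} = Prod.fst '' (Zs l c I M) := by
    ext τ
    constructor
    · rintro ⟨f, hf⟩
      exact ⟨(τ, f), (mem_Zs l c I M τ f).2 hf, rfl⟩
    · rintro ⟨⟨τ', f⟩, hf, rfl⟩
      exact ⟨f, (mem_Zs l c I M _ f).1 hf⟩
  rw [this]
  exact ((isCompact_Zs l c I hI M).image continuous_fst).isClosed.measurableSet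

lemma measurable_ex' (l c : ℝ) (I : Set ℝ) (hI : IsClosed I) :
    MeasurableSet {τ : Tr Δ | ∃ f, Sol l τ c f ∧ f [] ∈ I} := by
  have : {τ : Tr Δ | ∃ f, Sol l τ c f ∧ f [] ∈ I} =
      ⋃ n : ℕ, {τ : Tr Δ | ∃ f, Sol l τ c f ∧ f [] ∈ I ∧ En f ≤ n} := by
    ext τ
    simp only [Set.mem_iUnion, Set.mem_ofPred_eq]
    constructor
    · rintro ⟨f, h1, h2⟩
      obtain ⟨n, hn⟩ := exists_nat_ge (En f)
      exact ⟨n, f, h1, h2, hn⟩
    · rintro ⟨n, f, h1, h2, -⟩
      exact ⟨f, h1, h2⟩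
  rw [this]
  exact MeasurableSet.iUnion fun n => measurable_ex l c I hI n

/-- Existence of a solution of least energy. -/
lemma exists_min (l c : ℝ) (I : Set ℝ) (hI : IsClosed I) (τ : Tr Δ)
    (h : ∃ f, Sol l τ c f ∧ f [] ∈ I) :
    ∃ f, Sol l τ c f ∧ f [] ∈ I ∧ ∀ g, Sol l τ c g → g [] ∈ I → En f ≤ En g := by
  obtain ⟨f0, hf0, hf0'⟩ := h
  set S : Set ℝ := {e | ∃ f, Sol l τ c f ∧ f [] ∈ I ∧ En f = e} with hS
  have hne : S.Nonempty := ⟨_, f0, hf0, hf0', rfl⟩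
  have hbd : BddBelow S := ⟨0, by rintro e ⟨f, -, -, rfl⟩; exact En_nonneg f⟩
  set K : ℕ → Set (List ℕ → ℝ) := fun n => {f | (τ, f) ∈ Zs l c I (sInf S + 1 / ((n : ℝ) + 1))} with hK
  have hcont : Continuous (fun f : List ℕ → ℝ => (τ, f)) := by fun_prop
  have hcl : ∀ n, IsClosed (K n) := fun n => (isClosed_Zs l c I hI _).preimage hcont
  have hco : ∀ n, IsCompact (K n) := fun n =>
    (isCompact_bx (sInf S + 1 / ((n : ℝ) + 1))).of_isClosed_subset (hcl n) fun f hf =>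
      ((Zs_sub l c I _) hf).2
  have hanti : ∀ n, K (n + 1) ⊆ K n := by
    intro n f hf
    have hf' := (mem_Zs l c I _ τ f).1 hf
    refine (mem_Zs l c I _ τ f).2 ⟨hf'.1, hf'.2.1, hf'.2.2.trans ?_⟩
    have : 1 / (((n + 1 : ℕ) : ℝ) + 1) ≤ 1 / ((n : ℝ) + 1) := by
      apply one_div_le_one_div_of_le (by positivity)
      push_cast
      linarith
    linarith
  have hnon : ∀ n, (K n).Nonempty := by
    intro n
    obtain ⟨e, ⟨f, h1, h2, rfl⟩, he⟩ := exists_lt_of_csInf_lt hne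
      (show sInf S < sInf S + 1 / ((n : ℝ) + 1) by
        have : 0 < 1 / ((n : ℝ) + 1) := by positivity
        linarith)
    exact ⟨f, (mem_Zs l c I _ τ f).2 ⟨h1, h2, he.le⟩⟩
  obtain ⟨f, hf⟩ := IsCompact.nonempty_iInter_of_sequence_nonempty_isCompact_isClosed K hanti hnon
    (hco 0) hcl
  have hf' : ∀ n, _ := fun n => (mem_Zs l c I _ τ f).1 (Set.mem_iInter.1 hf n)
  refine ⟨f, (hf' 0).1, (hf' 0).2.1, fun g hg hg' => ?_⟩
  have h1 : sInf S ≤ En g := csInf_le hbd ⟨g, hg, hg', rfl⟩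
  have h2 : En f ≤ sInf S := by
    apply le_of_forall_pos_le_add
    intro ε hε
    obtain ⟨n, hn⟩ := exists_nat_one_div_lt hε
    exact ((hf' n).2.2).trans (by linarith)
  exact h2.trans h1

end Pool.Agent.Q295.Ugw
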