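import Pool.Agent.Q295.Ugw.Rec

/-!
# Grafting subtrees, cleaning of trees
-/

set_option autoImplicit false

open scoped ENNReal InnerProductSpace
open MeasureTheory

namespace Pool.Agent.Q295.Ugw

variable {Δ : ℕ}

/-- the tree whose root has the subtrees `d` -/
def graft (k : ℕ) (d : Fin k → Tr Δ) : Tr Δ
  | [] => ⟨min k Δ, by omega⟩
  | (i :: w) => if h : i < k then d ⟨i, h⟩ w else 0

lemma graft_nil {k : ℕ} (hk : k ≤ Δ) (d : Fin k → Tr Δ) : ((graft k d []) : ℕ) = k := by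
  simp [graft, hk]

lemma sh_graft {k : ℕ} (d : Fin k → Tr Δ) (i : ℕ) (hi : i < k) : sh (graft k d) i = d ⟨i, hi⟩ := by
  ext v
  simp [sh, graft, hi]

lemma sum_graft {k : ℕ} (hk : k ≤ Δ) (d : Fin k → Tr Δ) (F : Tr Δ → ℝ) :
    ∑ i ∈ Finset.range (graft k d []), F (sh (graft k d) i) = ∑ i : Fin k, F (d i) := by
  rw [graft_nil hk, Finset.sum_range]
  exact Finset.sum_congr rfl fun i _ => by rw [sh_graft d i i.2]

lemma sum_graft_nat {k : ℕ} (hk : k ≤ Δ) (d : Fin k → Tr Δ) (F : Tr Δ → ℕ) :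
    ∑ i ∈ Finset.range (graft k d []), F (sh (graft k d) i) = ∑ i : Fin k, F (d i) := by
  rw [graft_nil hk, Finset.sum_range]
  exact Finset.sum_congr rfl fun i _ => by rw [sh_graft d i i.2]

lemma forall_graft {k : ℕ} (hk : k ≤ Δ) (d : Fin k → Tr Δ) (Q : Tr Δ → Prop) :
    (∀ i < (graft k d [] : ℕ), Q (sh (graft k d) i)) ↔ ∀ i, Q (d i) := by
  rw [graft_nil hk]
  constructor
  · intro h i
    have := h i i.2
    rwa [sh_graft d i i.2] at this
  · intro h i hi
    rw [sh_graft d i hi]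
    exact h _

lemma exists_graft {k : ℕ} (hk : k ≤ Δ) (d : Fin k → Tr Δ) (Q : Tr Δ → Prop) :
    (∃ i < (graft k d [] : ℕ), Q (sh (graft k d) i)) ↔ ∃ i, Q (d i) := by
  rw [graft_nil hk]
  constructor
  · rintro ⟨i, hi, h⟩
    rw [sh_graft d i hi] at h
    exact ⟨_, h⟩
  · rintro ⟨i, h⟩
    refine ⟨i, i.2, ?_⟩
    rw [sh_graft d i i.2]
    exact h

lemma Pt_graft {l : ℝ} {k : ℕ} (hk : k ≤ Δ) (d : Fin k → Tr Δ) :
    Pt l (graft k d) ↔ (∀ i, Rt l (d i)) ∧ ∑ i, tv l (d i) = l := by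
  rw [Pt_iff, sum_graft hk, forall_graft hk d (Rt l)]

lemma xv_graft {l : ℝ} {k : ℕ} (hk : k ≤ Δ) (d : Fin k → Tr Δ) (h : Pt l (graft k d)) :
    xv l (graft k d) = (1 + ∑ i, yv l (d i))⁻¹ := by
  rw [xv_rec h, sum_graft hk]

lemma R_graft {l : ℝ} {k : ℕ} (hk : k ≤ Δ) (d : Fin k → Tr Δ) (h1 : ∀ i, Rt l (d i))
    (h2 : ∑ i, tv l (d i) ≠ l) :
    Rt l (graft k d) ∧ tv l (graft k d) = (l - ∑ i, tv l (d i))⁻¹ ∧
      yv l (graft k d) = (tv l (graft k d)) ^ 2 * (1 + ∑ i, yv l (d i)) := by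
  have := rec_R (l := l) (τ := graft k d) ((forall_graft hk d (Rt l)).2 h1)
    (by rwa [sum_graft hk])
  rwa [sum_graft hk, sum_graft hk] at this

lemma Z_graft {l : ℝ} {k : ℕ} (hk : k ≤ Δ) (d : Fin k → Tr Δ) (h : ∃ i, Pt l (d i)) :
    Rt l (graft k d) ∧ tv l (graft k d) = 0 ∧ yv l (graft k d) = (∑ i, xv l (d i))⁻¹ := by
  have := rec_Z (l := l) (τ := graft k d) ((exists_graft hk d (Pt l)).2 h)
  rwa [sum_graft hk] at this

lemma Rt_graft_imp {l : ℝ} {k : ℕ} (hk : k ≤ Δ) (d : Fin k → Tr Δ) (h : Rt l (graft k d)) :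
    (∃ i, Pt l (d i)) ∨ ((∀ i, Rt l (d i)) ∧ ∑ i, tv l (d i) ≠ l) := by
  have := Rt_imp h
  rwa [exists_graft hk d (Pt l), forall_graft hk d (Rt l), sum_graft hk] at this

lemma measurable_graft (k : ℕ) : Measurable (graft k : (Fin k → Tr Δ) → Tr Δ) := by
  refine measurable_pi_iff.2 fun w => ?_
  cases w with
  | nil => simp only [graft]; exact measurable_const
  | cons i v =>
    simp only [graft]
    by_cases hi : i < k
    · simp only [hi, dif_pos]
      exact (measurable_pi_apply v).comp (measurable_pi_apply _)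
    · simp only [hi, dif_neg, not_false_eq_true]
      exact measurable_const

/-! ### cleaning -/

/-- erase the values off the tree -/
noncomputable def clean (τ : Tr Δ) : Tr Δ := open Classical in fun w => if mem τ w then τ w else 0

lemma clean_nil (τ : Tr Δ) : clean τ [] = τ [] := by simp [clean]

lemma sh_clean (τ : Tr Δ) (i : ℕ) (hi : i < (τ [] : ℕ)) : sh (clean τ) i = clean (sh τ i) := by
  funext v
  have h : mem τ (i :: v) ↔ mem (sh τ i) v := by rw [mem_cons]; simp [hi]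
  show clean τ (i :: v) = clean (sh τ i) v
  unfold clean
  by_cases hm : mem (sh τ i) v
  · rw [if_pos (h.2 hm), if_pos hm]; rfl
  · rw [if_neg (fun h' => hm (h.1 h')), if_neg hm]

lemma clean_eq_graft (τ : Tr Δ) {k : ℕ} (hk : (τ [] : ℕ) = k) :
    clean τ = graft k (fun i : Fin k => clean (sh τ i)) := by
  funext w
  cases w with
  | nil =>
    rw [clean_nil]
    apply Fin.ext
    rw [graft_nil]
    · exact hk
    · rw [← hk]; exact Nat.lt_succ_iff.1 (τ []).is_lt
  | cons i v =>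
    by_cases hi : i < k
    · have := congrFun (sh_clean τ i (hk ▸ hi)) v
      simp only [graft, hi, dif_pos]
      exact this
    · simp [clean, graft, hi, mem_cons, hk]

lemma mem_clean (τ : Tr Δ) (w : List ℕ) : mem (clean τ) w ↔ mem τ w := by
  induction w generalizing τ with
  | nil => simp
  | cons i v ih =>
    rw [mem_cons, mem_cons, clean_nil]
    refine and_congr_right fun hi => ?_
    rw [sh_clean τ i hi, ih]

lemma Sol_clean {l : ℝ} {τ : Tr Δ} {c : ℝ} {f : List ℕ → ℝ} :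
    Sol l (clean τ) c f ↔ Sol l τ c f := by
  have hc : ∀ w, mem τ w → clean τ w = τ w := fun w hw => by simp [clean, hw]
  constructor
  · intro h
    refine ⟨fun w hw => h.supp w (fun h' => hw ((mem_clean τ w).1 h')), fun w hw => ?_, h.sq⟩
    have := h.eq w ((mem_clean τ w).2 hw)
    unfold chs at this ⊢
    rwa [hc w hw] at this
  · intro h
    refine ⟨fun w hw => h.supp w (fun h' => hw ((mem_clean τ w).2 h')), fun w hw => ?_, h.sq⟩
    have hw' := (mem_clean τ w).1 hw
    have := h.eq w hw'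
    unfold chs at this ⊢
    rwa [hc w hw']

lemma Pt_clean (l : ℝ) (τ : Tr Δ) : Pt l (clean τ) ↔ Pt l τ := by simp only [Pt, Sol_clean]
lemma Rt_clean (l : ℝ) (τ : Tr Δ) : Rt l (clean τ) ↔ Rt l τ := by simp only [Rt, Sol_clean]
lemma tv_clean (l : ℝ) (τ : Tr Δ) : tv l (clean τ) = tv l τ := by simp only [tv, Sol_clean]

lemma measurableSet_mem (w : List ℕ) : MeasurableSet {τ : Tr Δ | mem τ w} :=
  (isClopen_mem w).isClosed.measurableSet

lemma measurable_clean : Measurable (clean : Tr Δ → Tr Δ) := by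
  classical
  refine measurable_pi_iff.2 fun w => ?_
  unfold clean
  exact Measurable.ite (measurableSet_mem w) (measurable_pi_apply w) measurable_const

lemma measurable_sh (i : ℕ) : Measurable (fun τ : Tr Δ => sh τ i) :=
  measurable_pi_iff.2 fun v => measurable_pi_apply (i :: v)

/-! ### truncated sizes of blocks -/

/-- size, up to depth `h`, of the block containing the root -/
noncomputable def nb (l : ℝ) : ℕ → Tr Δ → ℕ
  | 0, τ => open Classical in if Rt l τ ∧ tv l τ ≠ 0 then 1 else 0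
  | (h + 1), τ => open Classical in
      if Rt l τ ∧ tv l τ ≠ 0 then 1 + ∑ i ∈ Finset.range (τ []), nb l h (sh τ i) else 0

lemma nb_mono (l : ℝ) (h : ℕ) (τ : Tr Δ) : nb l h τ ≤ nb l (h + 1) τ := by
  induction h generalizing τ with
  | zero =>
    simp only [nb]
    split_ifs
    · omega
    · exact le_rfl
  | succ h ih =>
    rw [nb, nb]
    split_ifs
    · exact Nat.add_le_add_left (Finset.sum_le_sum fun i _ => ih _) 1
    · exact le_rfl

lemma nb_zero_of (l : ℝ) (h : ℕ) (τ : Tr Δ) (hh : ¬ (Rt l τ ∧ tv l τ ≠ 0)) : nb l h τ = 0 := by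
  cases h <;> simp only [nb, if_neg hh]

lemma nb_pos_of (l : ℝ) (h : ℕ) (τ : Tr Δ) (hh : Rt l τ ∧ tv l τ ≠ 0) : 1 ≤ nb l h τ := by
  cases h
  · simp only [nb, if_pos hh]; exact le_rfl
  · simp only [nb, if_pos hh]; omega

lemma nb_succ_graft (l : ℝ) (h : ℕ) {k : ℕ} (hk : k ≤ Δ) (d : Fin k → Tr Δ)
    (hh : Rt l (graft k d) ∧ tv l (graft k d) ≠ 0) :
    nb l (h + 1) (graft k d) = 1 + ∑ i, nb l h (d i) := by
  rw [nb, if_pos hh, sum_graft_nat hk]

lemma measurable_nb (l : ℝ) (h : ℕ) : Measurable (nb l h : Tr Δ → ℕ) := by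
  classical
  have hS : MeasurableSet {τ : Tr Δ | Rt l τ ∧ tv l τ ≠ 0} :=
    (measurableSet_Rt l).inter ((measurable_tv l) (measurableSet_singleton 0).compl)
  induction h with
  | zero =>
    have e : (nb l 0 : Tr Δ → ℕ) = fun τ => if Rt l τ ∧ tv l τ ≠ 0 then 1 else 0 := by
      funext τ
      rw [nb]
    rw [e]
    exact Measurable.ite hS measurable_const measurable_const
  | succ h ih =>
    have e : (nb l (h + 1) : Tr Δ → ℕ) = fun τ => if Rt l τ ∧ tv l τ ≠ 0 then
        1 + ∑ i ∈ Finset.range (Δ + 1), (if i < (τ [] : ℕ) then nb l h (sh τ i) else 0) else 0 := by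
      funext τ
      rw [nb]
      have : ∑ i ∈ Finset.range (τ []), nb l h (sh τ i) =
          ∑ i ∈ Finset.range (Δ + 1), (if i < (τ [] : ℕ) then nb l h (sh τ i) else 0) := by
        rw [← Finset.sum_filter]
        apply Finset.sum_congr _ (fun _ _ => rfl)
        ext i
        have := (τ []).is_lt
        simp only [Finset.mem_range, Finset.mem_filter]
        omega
      rw [this]
    rw [e]
    refine Measurable.ite hS (measurable_const.add (Finset.measurable_sum _ fun i _ => ?_))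
      measurable_const
    refine Measurable.ite ?_ (ih.comp (measurable_sh i)) measurable_const
    have : {τ : Tr Δ | i < (τ [] : ℕ)} = (fun τ : Tr Δ => τ []) ⁻¹' {a | i < (a : ℕ)} := rfl
    rw [this]
    exact (measurable_pi_apply []) (Set.toFinite _).measurableSet

/-- cover of the values of `tv` on small blocks -/
lemma tv_small (l : ℝ) (Q : ℕ → Set ℝ) (hQ0 : ∀ h, (0 : ℝ) ∈ Q h)
    (hQ : ∀ h, ∀ k ≤ Δ, ∀ v : Fin k → ℝ, (∀ i, v i ∈ Q h) → ∑ i, v i ≠ l →
      (l - ∑ i, v i)⁻¹ ∈ Q (h + 1)) (h : ℕ) (τ : Tr Δ) (hR : Rt l τ) (hn : nb l h τ ≤ h) :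
    tv l τ ∈ Q h := by
  induction h generalizing τ with
  | zero =>
    by_cases ht : tv l τ = 0
    · rw [ht]; exact hQ0 0
    · have := nb_pos_of l 0 τ ⟨hR, ht⟩
      omega
  | succ h ih =>
    by_cases ht : tv l τ = 0
    · rw [ht]; exact hQ0 _
    · rw [nb, if_pos ⟨hR, ht⟩] at hn
      have hsum : ∑ i ∈ Finset.range (τ []), nb l h (sh τ i) ≤ h := by omega
      rcases Rt_imp hR with hZ | ⟨h1, h2⟩
      · exact absurd (rec_Z hZ).2.1 ht
      · have h3 := (rec_R h1 h2).2.1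
        rw [h3, Finset.sum_range]
        rw [Finset.sum_range] at h2
        apply hQ h (τ []) (Nat.lt_succ_iff.1 (τ []).is_lt) (fun i => tv l (sh τ i)) _ h2
        intro i
        apply ih _ (h1 i i.2)
        exact (Finset.single_le_sum (f := fun i => nb l h (sh τ i)) (fun _ _ => Nat.zero_le _)
          (Finset.mem_range.2 i.2)).trans hsum

end Pool.Agent.Q295.Ugw
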