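import Pool.Agent.Q295.Ugw.Small

/-!
# The law of the Galton-Watson tree is a fixed point
-/

set_option autoImplicit false

open scoped ENNReal InnerProductSpace Polynomial
open MeasureTheory ProbabilityTheory

namespace Pool.Agent.Q295.Ugw

variable {Δ : ℕ}

/-- the law of iid offspring numbers -/
noncomputable abbrev GG (ρ : Measure (Fin (Δ + 1))) [IsProbabilityMeasure ρ] : Measure (Tr Δ) :=
  Measure.infinitePi fun _ : List ℕ => ρ

/-- the law of the cleaned tree -/
noncomputable def LL (ρ : Measure (Fin (Δ + 1))) [IsProbabilityMeasure ρ] : Measure (Tr Δ) :=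
  (GG ρ).map clean

instance (ρ : Measure (Fin (Δ + 1))) [IsProbabilityMeasure ρ] : IsProbabilityMeasure (LL ρ) := by
  unfold LL
  exact Measure.isProbabilityMeasure_map measurable_clean.aemeasurable

lemma comap_aux {Ω' : Type*} [m' : MeasurableSpace Ω'] {k : ℕ}
    (V : Fin k → List ℕ → Ω' → Fin (Δ + 1))
    (h : ∀ i v, MeasurableSpace.comap (V i v) inferInstance ≤ m') :
    MeasurableSpace.comap (fun ω (i : Fin k) (v : List ℕ) => V i v ω) inferInstance ≤ m' := by
  rw [← measurable_iff_comap_le]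
  refine measurable_pi_iff.2 fun i => measurable_pi_iff.2 fun v => ?_
  exact measurable_iff_comap_le.2 (h i v)

section

variable {Ω : Type*} [MeasurableSpace Ω] {μ : Measure Ω} [IsProbabilityMeasure μ]
  {U : List ℕ → Ω → Fin (Δ + 1)}

omit [IsProbabilityMeasure μ] in
lemma indep_children (hU : ∀ w, Measurable (U w)) (hind : iIndepFun U μ) (k : ℕ) :
    IndepFun (U []) (fun ω (i : Fin k) (v : List ℕ) => U ((i : ℕ) :: v) ω) μ := by
  have hle : ∀ w, MeasurableSpace.comap (U w) inferInstance ≤ (inferInstance : MeasurableSpace Ω) :=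
    fun w => (hU w).comap_le
  have hdis : Disjoint ({[]} : Set (List ℕ)) {w | w ≠ []} := by
    rw [Set.disjoint_singleton_left]
    simp
  have h := indep_iSup_of_disjoint hle hind.iIndep hdis
  rw [IndepFun_iff_Indep]
  refine indep_of_indep_of_le_left (indep_of_indep_of_le_right h ?_) ?_
  · -- the children are measurable with respect to the other coordinates
    refine comap_aux (m' := ⨆ w ∈ {w : List ℕ | w ≠ []}, MeasurableSpace.comap (U w) inferInstance)
      (fun (i : Fin k) v => U ((i : ℕ) :: v)) fun i v => ?_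
    exact le_iSup₂_of_le ((i : ℕ) :: v) (by simp) le_rfl
  · exact le_iSup₂_of_le [] (by simp) le_rfl

omit [IsProbabilityMeasure μ] in
/-- joint law of the first `k` subtrees -/
lemma law_children (hU : ∀ w, Measurable (U w)) (hind : iIndepFun U μ)
    (ρ : Measure (Fin (Δ + 1))) [IsProbabilityMeasure ρ] (hρ : ∀ w, w ≠ [] → μ.map (U w) = ρ) (k : ℕ) :
    μ.map (fun ω (i : Fin k) (v : List ℕ) => U ((i : ℕ) :: v) ω) = Measure.pi fun _ => GG ρ := by
  have hinj : Function.Injective (fun q : Fin k × List ℕ => (q.1 : ℕ) :: q.2) := by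
    rintro ⟨a, v⟩ ⟨b, w⟩ h
    simp only [List.cons.injEq] at h
    exact Prod.ext (Fin.ext h.1) h.2
  have h1 : iIndepFun (fun (q : Fin k × List ℕ) => U ((q.1 : ℕ) :: q.2)) μ :=
    hind.precomp hinj
  have h2 := h1.map_fun_eq_infinitePi_map (fun q => hU _)
  have h3 : (fun q : Fin k × List ℕ => μ.map (U ((q.1 : ℕ) :: q.2))) = fun _ => ρ := by
    funext q
    exact hρ _ (by simp)
  have h4 : μ.map (fun ω (i : Fin k) (v : List ℕ) => U ((i : ℕ) :: v) ω) =
      (μ.map (fun ω (q : Fin k × List ℕ) => U ((q.1 : ℕ) :: q.2) ω)).map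
        (MeasurableEquiv.curry (Fin k) (List ℕ) (Fin (Δ + 1))) := by
    rw [Measure.map_map (MeasurableEquiv.measurable _)]
    · rfl
    · exact measurable_pi_iff.2 fun q => hU _
  rw [h4, h2]
  have h5 := Measure.infinitePi_map_curry (ι := Fin k) (κ := List ℕ) (X := Fin (Δ + 1)) (fun _ _ => ρ)
  have h6 : Measure.pi (fun _ : Fin k => GG ρ) = Measure.infinitePi (fun _ : Fin k => GG ρ) := by
    rw [Measure.infinitePi_eq_pi]
  rw [h6, ← h5]
  congr 1
  congr 1

/-- the tree at the sample point -/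
def tr (U : List ℕ → Ω → Fin (Δ + 1)) (ω : Ω) : Tr Δ := fun w => U w ω

omit [MeasurableSpace Ω] in
lemma clean_tr (U : List ℕ → Ω → Fin (Δ + 1)) (ω : Ω) {k : ℕ} (hk : ((U [] ω : Fin (Δ + 1)) : ℕ) = k) :
    clean (tr U ω) = graft k (fun i : Fin k => clean (sh (tr U ω) i)) :=
  clean_eq_graft _ hk

omit [IsProbabilityMeasure μ] in
/-- law of the cleaned subtrees on the event that the root has `k` children -/
lemma root_map (hU : ∀ w, Measurable (U w)) (hind : iIndepFun U μ)
    (ρ : Measure (Fin (Δ + 1))) [IsProbabilityMeasure ρ] (hρ : ∀ w, w ≠ [] → μ.map (U w) = ρ)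
    (a : Fin (Δ + 1)) (k : ℕ) :
    (μ.restrict {ω | U [] ω = a}).map (fun ω (i : Fin k) => clean (sh (tr U ω) i)) =
      μ {ω | U [] ω = a} • Pk (LL ρ) k := by
  have hV : Measurable (fun ω (i : Fin k) (v : List ℕ) => U ((i : ℕ) :: v) ω) :=
    measurable_pi_iff.2 fun i => measurable_pi_iff.2 fun v => hU _
  have hc : Measurable (fun (d : Fin k → Tr Δ) (i : Fin k) => clean (d i)) :=
    measurable_pi_iff.2 fun i => measurable_clean.comp (measurable_pi_apply i)
  have hcV : Measurable (fun ω (i : Fin k) => clean (sh (tr U ω) i)) := hc.comp hV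
  have hpi : Pk (LL ρ) k = (Measure.pi fun _ : Fin k => GG ρ).map
      (fun (d : Fin k → Tr Δ) (i : Fin k) => clean (d i)) := by
    rw [Measure.pi_map_pi (fun _ => measurable_clean.aemeasurable)]
    rfl
  ext A hA
  rw [Measure.map_apply hcV hA, Measure.restrict_apply (hcV hA), Measure.smul_apply, smul_eq_mul,
    hpi, Measure.map_apply hc hA, ← law_children hU hind ρ hρ k, Measure.map_apply hV (hc hA)]
  have h := (indep_children hU hind k).measure_inter_preimage_eq_mul {a} _
    (measurableSet_singleton a) (hc hA)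
  rw [Set.inter_comm]
  exact h

omit [IsProbabilityMeasure μ] in
/-- probability of a root event -/
lemma root_prob (hU : ∀ w, Measurable (U w)) (hind : iIndepFun U μ)
    (ρ : Measure (Fin (Δ + 1))) [IsProbabilityMeasure ρ] (hρ : ∀ w, w ≠ [] → μ.map (U w) = ρ)
    (a : Fin (Δ + 1)) (F : Tr Δ → ℝ) (hF : Measurable F) :
    ∫ ω in {ω | U [] ω = a}, F (clean (tr U ω)) ∂μ =
      μ.real {ω | U [] ω = a} * ∫ d, F (graft a d) ∂(Pk (LL ρ) a) := by
  have hS : MeasurableSet {ω | U [] ω = a} := (hU []) (measurableSet_singleton a)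
  have h1 : ∫ ω in {ω | U [] ω = a}, F (clean (tr U ω)) ∂μ =
      ∫ ω in {ω | U [] ω = a}, F (graft a (fun i : Fin a => clean (sh (tr U ω) i))) ∂μ := by
    apply setIntegral_congr_fun hS
    intro ω hω
    have hω' : U [] ω = a := hω
    simp only
    rw [clean_tr U ω (k := a) (by rw [hω'])]
  have hV : Measurable (fun ω (i : Fin a) => clean (sh (tr U ω) i)) := by
    refine measurable_pi_iff.2 fun i => measurable_clean.comp ?_
    exact measurable_pi_iff.2 fun v => hU _
  have h2 := integral_map (μ := μ.restrict {ω | U [] ω = a}) hV.aemeasurable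
    (f := fun d => F (graft a d)) (hF.comp (measurable_graft _)).aestronglyMeasurable
  rw [h1, ← h2, root_map hU hind ρ hρ a a, integral_smul_measure]
  rfl

end

/-- **the law of the cleaned tree is a fixed point** -/
theorem fix_LL (ρ : Measure (Fin (Δ + 1))) [IsProbabilityMeasure ρ] (p ph : ℕ → ℝ) (m : ℝ)
    (nn : ∀ k, 0 ≤ p k) (sum1 : ∑ k ∈ Finset.range (Δ + 1), p k = 1) (p0 : p 0 = 0) (p1 : p 1 = 0)
    (m_pos : 0 < m) (ph_def : ∀ k, ph k = ((k : ℝ) + 1) * p (k + 1) / m)
    (hΔ : p (Δ + 1) = 0) (hρ : ∀ a : Fin (Δ + 1), ρ.real {a} = ph a) :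
    Fix (LL ρ) p ph m where
  nn := nn
  sum1 := sum1
  p0 := p0
  p1 := p1
  m_pos := m_pos
  ph_def := ph_def
  fix := by
    intro F hF ⟨C, hC⟩
    have hU : ∀ w : List ℕ, Measurable (fun τ : Tr Δ => τ w) := fun w => measurable_pi_apply w
    have hind : iIndepFun (fun (w : List ℕ) (τ : Tr Δ) => τ w) (GG ρ) :=
      iIndepFun_infinitePi (P := fun _ : List ℕ => ρ) (X := fun _ x => x) (fun _ => measurable_id)
    have hlaw : ∀ w : List ℕ, (GG ρ).map (fun τ : Tr Δ => τ w) = ρ := fun w =>
      Measure.infinitePi_map_eval (fun _ : List ℕ => ρ) w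
    have h1 : ∫ τ, F τ ∂(LL ρ) = ∫ τ, F (clean τ) ∂(GG ρ) :=
      integral_map measurable_clean.aemeasurable hF.aestronglyMeasurable
    have hint : Integrable (fun τ : Tr Δ => F (clean τ)) (GG ρ) :=
      integrable_of_bdd _ (hF.comp measurable_clean) C (fun τ => hC _)
    have h2 : ∫ τ, F (clean τ) ∂(GG ρ) =
        ∑ a : Fin (Δ + 1), ∫ τ in {τ : Tr Δ | τ [] = a}, F (clean τ) ∂(GG ρ) := by
      have hdis : Pairwise (Function.onFun Disjoint fun a : Fin (Δ + 1) => {τ : Tr Δ | τ [] = a}) := by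
        intro a b hab
        rw [Function.onFun, Set.disjoint_left]
        intro τ h1 h2
        exact hab (h1.symm.trans h2)
      have := integral_iUnion_fintype (μ := GG ρ) (f := fun τ : Tr Δ => F (clean τ))
        (s := fun a : Fin (Δ + 1) => {τ : Tr Δ | τ [] = a})
        (fun a => (hU []) (measurableSet_singleton a)) hdis (fun a => hint.integrableOn)
      rw [← this]
      have hun : (⋃ a : Fin (Δ + 1), {τ : Tr Δ | τ [] = a}) = Set.univ := by
        ext τ; simp
      rw [hun, Measure.restrict_univ]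
    rw [h1, h2]
    have h3 : ∀ a : Fin (Δ + 1), ∫ τ in {τ : Tr Δ | τ [] = a}, F (clean τ) ∂(GG ρ) =
        ph a * ∫ d, F (graft a d) ∂(Pk (LL ρ) a) := by
      intro a
      have := root_prob hU hind ρ (fun w _ => hlaw w) a F hF
      have h4 : (GG ρ).real {τ : Tr Δ | τ [] = a} = ph a := by
        have h4' : ((GG ρ).map (fun τ : Tr Δ => τ [])).real {a} = ρ.real {a} := by
          rw [hlaw []]
        rw [← hρ a, ← h4', measureReal_def, measureReal_def,
          Measure.map_apply (hU []) (measurableSet_singleton a)]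
        rfl
      rw [← h4]
      exact this
    rw [Finset.sum_congr rfl fun a _ => h3 a]
    rw [Finset.sum_fin_eq_sum_range, Finset.sum_range_succ]
    have h5 : ph Δ = 0 := by rw [ph_def, hΔ]; simp
    rw [dif_pos (Nat.lt_succ_self Δ)]
    have h6 : ph ((⟨Δ, Nat.lt_succ_self Δ⟩ : Fin (Δ + 1)) : ℕ) = 0 := h5
    rw [h6, zero_mul, add_zero]
    apply Finset.sum_congr rfl
    intro k hk
    rw [dif_pos (by have := Finset.mem_range.1 hk; omega)]

end Pool.Agent.Q295.Ugw
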