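import Pool.Agent.Q295.Ugw.Cfg

/-!
# The law of the subtrees: mass transport
-/

set_option autoImplicit false

open scoped ENNReal InnerProductSpace
open MeasureTheory

namespace Pool.Agent.Q295.Ugw

variable {Δ : ℕ}

/-- the law of `k` independent subtrees -/
noncomputable abbrev Pk (L : Measure (Tr Δ)) (k : ℕ) : Measure (Fin k → Tr Δ) :=
  Measure.pi fun _ => L

/-- `L` is a fixed point of the recursion with root offspring law `p` -/
structure Fix (L : Measure (Tr Δ)) (p ph : ℕ → ℝ) (m : ℝ) : Prop where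
  nn : ∀ k, 0 ≤ p k
  sum1 : ∑ k ∈ Finset.range (Δ + 1), p k = 1
  p0 : p 0 = 0
  p1 : p 1 = 0
  m_pos : 0 < m
  ph_def : ∀ k, ph k = ((k : ℝ) + 1) * p (k + 1) / m
  fix : ∀ F : Tr Δ → ℝ, Measurable F → (∃ C, ∀ τ, |F τ| ≤ C) →
    ∫ τ, F τ ∂L = ∑ k ∈ Finset.range Δ, ph k * ∫ d, F (graft k d) ∂(Pk L k)

lemma measurable_rest {j : ℕ} (i : Fin (j + 1)) : Measurable (rest i : (Fin (j + 1) → Tr Δ) → _) :=
  measurable_pi_iff.2 fun _ => measurable_pi_apply _

lemma measurable_bt {j : ℕ} (i : Fin (j + 1)) : Measurable (bt i : (Fin (j + 1) → Tr Δ) → _) :=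
  (measurable_graft j).comp (measurable_rest i)

lemma integral_split (L : Measure (Tr Δ)) [IsProbabilityMeasure L] {j : ℕ} (i : Fin (j + 1))
    (G : Tr Δ × (Fin j → Tr Δ) → ℝ) (hG : Measurable G) (C : ℝ) (hC : ∀ x, |G x| ≤ C) :
    ∫ d, G (d i, rest i d) ∂(Pk L (j + 1)) = ∫ a, ∫ e, G (a, e) ∂(Pk L j) ∂L := by
  have h := (measurePreserving_piFinSuccAbove (fun _ : Fin (j + 1) => L) i).integral_comp
    (MeasurableEquiv.measurableEmbedding _) G
  have h2 : ∫ d, G (d i, rest i d) ∂(Pk L (j + 1)) = ∫ x, G x ∂(L.prod (Pk L j)) := h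
  rw [h2, integral_prod]
  exact Integrable.of_bound hG.aestronglyMeasurable C (Filter.Eventually.of_forall hC)

lemma integrable_of_bdd {α : Type*} [MeasurableSpace α] (μ : Measure α) [IsFiniteMeasure μ]
    {f : α → ℝ} (hf : Measurable f) (C : ℝ) (hC : ∀ x, |f x| ≤ C) : Integrable f μ :=
  Integrable.of_bound hf.aestronglyMeasurable C (Filter.Eventually.of_forall hC)

/-- mass transport for antisymmetric functions -/
lemma mtp {L : Measure (Tr Δ)} [IsProbabilityMeasure L] {p ph : ℕ → ℝ} {m : ℝ} (hL : Fix L p ph m)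
    (F : Tr Δ → Tr Δ → ℝ) (hF : Measurable (Function.uncurry F)) (C : ℝ) (hC : ∀ b a, |F b a| ≤ C)
    (hanti : ∀ b a, F b a = - F a b) :
    ∑ j ∈ Finset.range Δ, p (j + 1) * ∫ d, ∑ i : Fin (j + 1), F (bt i d) (d i) ∂(Pk L (j + 1)) = 0 := by
  have hFm : ∀ (β : Type) [MeasurableSpace β] (u v : β → Tr Δ), Measurable u → Measurable v →
      Measurable (fun x => F (u x) (v x)) := fun β _ u v hu hv => hF.comp (hu.prodMk hv)
  have h1 : ∀ j, ∫ d, ∑ i : Fin (j + 1), F (bt i d) (d i) ∂(Pk L (j + 1)) =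
      ((j : ℝ) + 1) * ∫ a, ∫ e, F (graft j e) a ∂(Pk L j) ∂L := by
    intro j
    rw [integral_finsetSum]
    · have : ∀ i ∈ (Finset.univ : Finset (Fin (j + 1))), ∫ d, F (bt i d) (d i) ∂(Pk L (j + 1)) =
          ∫ a, ∫ e, F (graft j e) a ∂(Pk L j) ∂L := by
        intro i _
        refine integral_split L i (fun x => F (graft j x.2) x.1) ?_ C (fun x => hC _ _)
        exact hFm _ _ _ ((measurable_graft j).comp measurable_snd) measurable_fst
      rw [Finset.sum_congr rfl this]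
      simp
    · intro i _
      exact integrable_of_bdd _ (hFm _ _ _ (measurable_bt i) (measurable_pi_apply i)) C
        (fun d => hC _ _)
  have h2 : ∀ j ∈ Finset.range Δ, p (j + 1) * ∫ d, ∑ i : Fin (j + 1), F (bt i d) (d i) ∂(Pk L (j + 1)) =
      m * ∫ a, ph j * ∫ e, F (graft j e) a ∂(Pk L j) ∂L := by
    intro j _
    rw [h1 j, integral_const_mul, hL.ph_def]
    have := hL.m_pos
    field_simp
  rw [Finset.sum_congr rfl h2, ← Finset.mul_sum]
  have hint : ∀ j, Integrable (fun a => ∫ e, F (graft j e) a ∂(Pk L j)) L := by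
    intro j
    have hm : Measurable (fun x : Tr Δ × (Fin j → Tr Δ) => F (graft j x.2) x.1) :=
      hFm _ _ _ ((measurable_graft j).comp measurable_snd) measurable_fst
    refine Integrable.of_bound (hm.aestronglyMeasurable.integral_prod_right') C
      (Filter.Eventually.of_forall fun a => ?_)
    refine (norm_integral_le_of_norm_le_const (C := C)
      (Filter.Eventually.of_forall fun e => ?_)).trans ?_
    · exact hC _ _
    · simp
  rw [← integral_finsetSum _ (fun j _ => (hint j).const_mul _)]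
  have h3 : ∀ a, ∑ j ∈ Finset.range Δ, ph j * ∫ e, F (graft j e) a ∂(Pk L j) = ∫ b, F b a ∂L := by
    intro a
    rw [hL.fix (fun b => F b a) (hFm _ _ _ measurable_id measurable_const) ⟨C, fun b => hC b a⟩]
  simp only [h3]
  have hint2 : Integrable (Function.uncurry fun a b => F b a) (L.prod L) :=
    integrable_of_bdd _ (hF.comp measurable_swap) C (fun x => hC _ _)
  have h4 : ∫ a, ∫ b, F b a ∂L ∂L = ∫ b, ∫ a, F b a ∂L ∂L := integral_integral_swap hint2
  have h5 : ∫ b, ∫ a, F b a ∂L ∂L = - ∫ b, ∫ a, F a b ∂L ∂L := by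
    rw [← integral_neg]
    congr 1
    ext b
    rw [← integral_neg]
    congr 1
    ext a
    exact hanti b a
  have h6 : ∫ a, ∫ b, F b a ∂L ∂L = 0 := by
    rw [h5] at h4
    linarith
  rw [h6, mul_zero]

/-- the fixed point equation for sets -/
lemma fix_set {L : Measure (Tr Δ)} [IsProbabilityMeasure L] {p ph : ℕ → ℝ} {m : ℝ}
    (hL : Fix L p ph m) (S : Set (Tr Δ)) (hS : MeasurableSet S) :
    L.real S = ∑ k ∈ Finset.range Δ, ph k * (Pk L k).real (graft k ⁻¹' S) := by
  have h := hL.fix (S.indicator 1) (measurable_one.indicator hS) ⟨1, fun τ => by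
    by_cases h : τ ∈ S <;> simp [h]⟩
  rw [integral_indicator_one hS] at h
  rw [h]
  apply Finset.sum_congr rfl
  intro k _
  congr 1
  have : (fun d : Fin k → Tr Δ => S.indicator (1 : Tr Δ → ℝ) (graft k d)) =
      (graft k ⁻¹' S).indicator 1 := by
    ext d
    by_cases h : graft k d ∈ S <;> simp [h]
  rw [this, integral_indicator_one ((measurable_graft k) hS)]

lemma ph_nonneg {L : Measure (Tr Δ)} {p ph : ℕ → ℝ} {m : ℝ} (hL : Fix L p ph m) (k : ℕ) :
    0 ≤ ph k := by
  rw [hL.ph_def]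
  have := hL.nn (k + 1)
  have := hL.m_pos
  positivity

lemma ph_sum {L : Measure (Tr Δ)} [IsProbabilityMeasure L] {p ph : ℕ → ℝ} {m : ℝ}
    (hL : Fix L p ph m) : ∑ k ∈ Finset.range Δ, ph k = 1 := by
  have := fix_set hL Set.univ MeasurableSet.univ
  simpa using this.symm

lemma ph_zero {L : Measure (Tr Δ)} {p ph : ℕ → ℝ} {m : ℝ} (hL : Fix L p ph m) : ph 0 = 0 := by
  rw [hL.ph_def]; simp [hL.p1]

/-! ### the atoms -/

/-- the probability that all `k` subtrees are of resolvent type with sum `s` -/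
noncomputable def qq (L : Measure (Tr Δ)) (l : ℝ) (k : ℕ) (s : ℝ) : ℝ :=
  (Pk L k).real {d | (∀ i, Rt l (d i)) ∧ ∑ i, tv l (d i) = s}

/-- the probability that the subtree is of resolvent type with value `s` -/
noncomputable def rr (L : Measure (Tr Δ)) (l : ℝ) (s : ℝ) : ℝ := L.real {τ | Rt l τ ∧ tv l τ = s}

/-- the probability of type `Pt` -/
noncomputable def xx (L : Measure (Tr Δ)) (l : ℝ) : ℝ := L.real {τ | Pt l τ}

lemma qq_nonneg (L : Measure (Tr Δ)) (l : ℝ) (k : ℕ) (s : ℝ) : 0 ≤ qq L l k s := measureReal_nonneg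
lemma rr_nonneg (L : Measure (Tr Δ)) (l : ℝ) (s : ℝ) : 0 ≤ rr L l s := measureReal_nonneg
lemma xx_nonneg (L : Measure (Tr Δ)) (l : ℝ) : 0 ≤ xx L l := measureReal_nonneg

lemma measurableSet_all (l : ℝ) (k : ℕ) : MeasurableSet {d : Fin k → Tr Δ | ∀ i, Rt l (d i)} := by
  have : {d : Fin k → Tr Δ | ∀ i, Rt l (d i)} = ⋂ i, (fun d => d i) ⁻¹' {τ | Rt l τ} := by
    ext d; simp
  rw [this]
  exact MeasurableSet.iInter fun i => (measurable_pi_apply i) (measurableSet_Rt l)

lemma measurable_sumtv (l : ℝ) (k : ℕ) : Measurable (fun d : Fin k → Tr Δ => ∑ i, tv l (d i)) :=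
  Finset.measurable_sum _ fun i _ => (measurable_tv l).comp (measurable_pi_apply i)

lemma measurableSet_qq (l : ℝ) (k : ℕ) (s : ℝ) :
    MeasurableSet {d : Fin k → Tr Δ | (∀ i, Rt l (d i)) ∧ ∑ i, tv l (d i) = s} :=
  (measurableSet_all l k).inter ((measurable_sumtv l k) (measurableSet_singleton s))

lemma measurableSet_rr (l : ℝ) (s : ℝ) : MeasurableSet {τ : Tr Δ | Rt l τ ∧ tv l τ = s} :=
  (measurableSet_Rt l).inter ((measurable_tv l) (measurableSet_singleton s))

lemma xx_eq {L : Measure (Tr Δ)} [IsProbabilityMeasure L] {p ph : ℕ → ℝ} {m : ℝ}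
    (hL : Fix L p ph m) (l : ℝ) : xx L l = ∑ k ∈ Finset.range Δ, ph k * qq L l k l := by
  unfold xx
  rw [fix_set hL _ (measurableSet_Pt l)]
  apply Finset.sum_congr rfl
  intro k hk
  have hk' : k ≤ Δ := (Finset.mem_range.1 hk).le
  unfold qq
  congr 2
  ext d
  simp only [Set.mem_preimage, Set.mem_ofPred_eq]
  exact Pt_graft hk' d

lemma rr_eq {L : Measure (Tr Δ)} [IsProbabilityMeasure L] {p ph : ℕ → ℝ} {m : ℝ}
    (hL : Fix L p ph m) (l : ℝ) (s : ℝ) (hs : s ≠ 0) :
    rr L l s = ∑ k ∈ Finset.range Δ, ph k * qq L l k (l - s⁻¹) := by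
  unfold rr
  rw [fix_set hL _ (measurableSet_rr l s)]
  apply Finset.sum_congr rfl
  intro k hk
  have hk' : k ≤ Δ := (Finset.mem_range.1 hk).le
  unfold qq
  congr 2
  ext d
  simp only [Set.mem_preimage, Set.mem_ofPred_eq]
  constructor
  · rintro ⟨h1, h2⟩
    rcases Rt_graft_imp hk' d h1 with hZ | ⟨hR, hS⟩
    · exact absurd ((Z_graft hk' d hZ).2.1.symm.trans h2) (Ne.symm hs)
    · refine ⟨hR, ?_⟩
      have := (R_graft hk' d hR hS).2.1
      rw [h2] at this
      rw [this, inv_inv]; ring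
  · rintro ⟨hR, hS⟩
    have hne : ∑ i, tv l (d i) ≠ l := by
      rw [hS]
      intro h
      have : s⁻¹ = 0 := by linarith
      exact hs (inv_eq_zero.1 this)
    obtain ⟨h1, h2, -⟩ := R_graft hk' d hR hne
    refine ⟨h1, ?_⟩
    rw [h2, hS]
    simp

lemma rr_zero_eq {L : Measure (Tr Δ)} [IsProbabilityMeasure L] {p ph : ℕ → ℝ} {m : ℝ}
    (hL : Fix L p ph m) (l : ℝ) :
    rr L l 0 = ∑ k ∈ Finset.range Δ, ph k * (Pk L k).real {d | ∃ i, Pt l (d i)} := by
  unfold rr
  rw [fix_set hL _ (measurableSet_rr l 0)]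
  apply Finset.sum_congr rfl
  intro k hk
  have hk' : k ≤ Δ := (Finset.mem_range.1 hk).le
  congr 2
  ext d
  simp only [Set.mem_preimage, Set.mem_ofPred_eq]
  constructor
  · rintro ⟨h1, h2⟩
    rcases Rt_graft_imp hk' d h1 with hZ | ⟨hR, hS⟩
    · exact hZ
    · have := (R_graft hk' d hR hS).2.1
      rw [h2] at this
      exact absurd this.symm (inv_ne_zero (sub_ne_zero.2 (Ne.symm hS)))
  · intro hZ
    have := Z_graft hk' d hZ
    exact ⟨this.1, this.2.1⟩

open Classical in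
/-- cylinders -/
lemma cyl (L : Measure (Tr Δ)) [IsProbabilityMeasure L] (l : ℝ) {k : ℕ} (s : Finset (Fin k)) :
    (Pk L k).real {d | ∀ i ∈ s, Pt l (d i)} = xx L l ^ s.card := by
  have : {d : Fin k → Tr Δ | ∀ i ∈ s, Pt l (d i)} =
      Set.univ.pi (fun i => if i ∈ s then {τ | Pt l τ} else Set.univ) := by
    ext d
    simp only [Set.mem_ofPred_eq, Set.mem_pi, Set.mem_univ, true_imp_iff]
    apply forall_congr'
    intro i
    by_cases h : i ∈ s <;> simp [h]
  rw [this, measureReal_def, Measure.pi_pi, ENNReal.toReal_prod]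
  have h2 : ∀ i ∈ (Finset.univ : Finset (Fin k)),
      (L (if i ∈ s then {τ | Pt l τ} else Set.univ)).toReal = if i ∈ s then xx L l else 1 := by
    intro i _
    by_cases h : i ∈ s
    · simp only [h, if_true]; rfl
    · simp [h]
  rw [Finset.prod_congr rfl h2, Finset.prod_ite_mem, Finset.univ_inter, Finset.prod_const]

lemma measurableSet_cyl (l : ℝ) {k : ℕ} (s : Finset (Fin k)) :
    MeasurableSet {d : Fin k → Tr Δ | ∀ i ∈ s, Pt l (d i)} := by
  have : {d : Fin k → Tr Δ | ∀ i ∈ s, Pt l (d i)} = ⋂ i ∈ s, (fun d => d i) ⁻¹' {τ | Pt l τ} := by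
    ext d; simp
  rw [this]
  exact s.measurableSet_biInter fun i _ => (measurable_pi_apply i) (measurableSet_Pt l)

lemma ex_le (L : Measure (Tr Δ)) [IsProbabilityMeasure L] (l : ℝ) (k : ℕ) :
    (Pk L k).real {d | ∃ i, Pt l (d i)} ≤ k * xx L l := by
  have : {d : Fin k → Tr Δ | ∃ i, Pt l (d i)} = ⋃ i, {d | ∀ a ∈ ({i} : Finset (Fin k)), Pt l (d a)} := by
    ext d; simp
  rw [this]
  refine (measureReal_iUnion_fintype_le _).trans ?_
  simp only [cyl]
  simp

lemma ex_ge (L : Measure (Tr Δ)) [IsProbabilityMeasure L] (l : ℝ) (k : ℕ) :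
    xx L l ≤ (Pk L (k + 1)).real {d | ∃ i, Pt l (d i)} := by
  have h := cyl L l (k := k + 1) {0}
  simp only [Finset.card_singleton, pow_one] at h
  rw [← h]
  apply measureReal_mono
  · intro d hd
    exact ⟨0, hd 0 (by simp)⟩
  · exact measure_ne_top _ _

lemma rr_zero_le {L : Measure (Tr Δ)} [IsProbabilityMeasure L] {p ph : ℕ → ℝ} {m : ℝ}
    (hL : Fix L p ph m) (l : ℝ) : rr L l 0 ≤ Δ * xx L l := by
  rw [rr_zero_eq hL]
  calc ∑ k ∈ Finset.range Δ, ph k * (Pk L k).real {d | ∃ i, Pt l (d i)}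
      ≤ ∑ k ∈ Finset.range Δ, ph k * (Δ * xx L l) := by
        apply Finset.sum_le_sum
        intro k hk
        refine mul_le_mul_of_nonneg_left ((ex_le L l k).trans ?_) (ph_nonneg hL k)
        apply mul_le_mul_of_nonneg_right _ (xx_nonneg _ _)
        exact_mod_cast (Finset.mem_range.1 hk).le
    _ = Δ * xx L l := by rw [← Finset.sum_mul, ph_sum hL, one_mul]

lemma rr_zero_ge {L : Measure (Tr Δ)} [IsProbabilityMeasure L] {p ph : ℕ → ℝ} {m : ℝ}
    (hL : Fix L p ph m) (l : ℝ) : xx L l ≤ rr L l 0 := by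
  rw [rr_zero_eq hL]
  calc xx L l = ∑ k ∈ Finset.range Δ, ph k * xx L l := by
        rw [← Finset.sum_mul, ph_sum hL, one_mul]
    _ ≤ _ := by
        apply Finset.sum_le_sum
        intro k hk
        cases k with
        | zero => simp [ph_zero hL]
        | succ k => exact mul_le_mul_of_nonneg_left (ex_ge L l k) (ph_nonneg hL _)

/-- disintegration of the sets over the first child -/
lemma pk_split (L : Measure (Tr Δ)) [IsProbabilityMeasure L] {j : ℕ}
    (S : Set (Tr Δ × (Fin j → Tr Δ))) (hS : MeasurableSet S) :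
    (Pk L (j + 1)) {d | (d 0, rest 0 d) ∈ S} = (L.prod (Pk L j)) S := by
  have h := (measurePreserving_piFinSuccAbove (fun _ : Fin (j + 1) => L) 0).measure_preimage
    hS.nullMeasurableSet
  exact h

lemma qq_succ_set (l : ℝ) (k : ℕ) (s : ℝ) :
    {d : Fin (k + 1) → Tr Δ | (∀ i, Rt l (d i)) ∧ ∑ i, tv l (d i) = s} =
      {d | (d 0, rest 0 d) ∈ {x : Tr Δ × (Fin k → Tr Δ) | (Rt l x.1 ∧ ∀ i, Rt l (x.2 i)) ∧
        tv l x.1 + ∑ i, tv l (x.2 i) = s}} := by
  ext d
  simp only [Set.mem_ofPred_eq]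
  rw [Fin.forall_iff_succAbove 0, sum_rest d 0 (tv l)]
  rfl

lemma measurableSet_qq_succ (l : ℝ) (k : ℕ) (s : ℝ) :
    MeasurableSet {x : Tr Δ × (Fin k → Tr Δ) | (Rt l x.1 ∧ ∀ i, Rt l (x.2 i)) ∧
        tv l x.1 + ∑ i, tv l (x.2 i) = s} := by
  refine MeasurableSet.inter (MeasurableSet.inter ?_ ?_) ?_
  · exact measurable_fst (measurableSet_Rt l)
  · exact measurable_snd (measurableSet_all l k)
  · exact measurableSet_eq_fun (((measurable_tv l).comp measurable_fst).add
      ((measurable_sumtv l k).comp measurable_snd)) measurable_const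

lemma qq_ge (L : Measure (Tr Δ)) [IsProbabilityMeasure L] (l : ℝ) (k : ℕ) (s s' : ℝ) :
    rr L l s' * qq L l k (s - s') ≤ qq L l (k + 1) s := by
  unfold rr qq
  rw [measureReal_def, measureReal_def, measureReal_def, ← ENNReal.toReal_mul, ← Measure.prod_prod,
    qq_succ_set, pk_split L _ (measurableSet_qq_succ l k s)]
  apply ENNReal.toReal_mono (measure_ne_top _ _)
  apply measure_mono
  rintro ⟨a, e⟩ ⟨⟨h1, h2⟩, h3, h4⟩
  refine ⟨⟨h1, h3⟩, ?_⟩
  simp only at h2 h4 ⊢
  rw [h2, h4]; ring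

lemma qq_one (L : Measure (Tr Δ)) [IsProbabilityMeasure L] (l : ℝ) (s : ℝ) :
    qq L l 1 s = rr L l s := by
  unfold rr qq
  rw [measureReal_def, measureReal_def, qq_succ_set, pk_split L _ (measurableSet_qq_succ l 0 s)]
  congr 1
  have : {x : Tr Δ × (Fin 0 → Tr Δ) | (Rt l x.1 ∧ ∀ i, Rt l (x.2 i)) ∧
        tv l x.1 + ∑ i, tv l (x.2 i) = s} = {τ | Rt l τ ∧ tv l τ = s} ×ˢ Set.univ := by
    ext x
    simp
  rw [this, Measure.prod_prod]
  simp

lemma rt_le (L : Measure (Tr Δ)) [IsProbabilityMeasure L] (l : ℝ) :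
    L.real {τ | Rt l τ} ≤ 1 - xx L l := by
  unfold xx
  have h : L.real ({τ | Rt l τ} ∪ {τ | Pt l τ}) = L.real {τ | Rt l τ} + L.real {τ | Pt l τ} := by
    have hd : Disjoint {τ : Tr Δ | Rt l τ} {τ : Tr Δ | Pt l τ} := by
      rw [Set.disjoint_left]
      intro τ h1 h2
      exact not_Pt_Rt h2 h1
    exact measureReal_union hd (measurableSet_Pt l)
  have h2 : L.real ({τ | Rt l τ} ∪ {τ | Pt l τ}) ≤ 1 := measureReal_le_one
  linarith

lemma all_le (L : Measure (Tr Δ)) [IsProbabilityMeasure L] (l : ℝ) (k : ℕ) :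
    (Pk L k).real {d | ∀ i, Rt l (d i)} ≤ (1 - xx L l) ^ k := by
  have : {d : Fin k → Tr Δ | ∀ i, Rt l (d i)} = Set.univ.pi (fun _ => {τ | Rt l τ}) := by
    ext d; simp
  rw [this, measureReal_def, Measure.pi_pi, ENNReal.toReal_prod, Finset.prod_const]
  simp only [Finset.card_univ, Fintype.card_fin]
  exact pow_le_pow_left₀ measureReal_nonneg (rt_le L l) k

lemma qq_le (L : Measure (Tr Δ)) [IsProbabilityMeasure L] (l : ℝ) (k : ℕ) (s : ℝ) (M : ℝ)
    (hM : 0 ≤ M) (h : ∀ s, rr L l s ≤ M) :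
    qq L l (k + 1) s ≤ M * (1 - xx L l) ^ k := by
  have h1 : (Pk L (k + 1)) {d | (∀ i, Rt l (d i)) ∧ ∑ i, tv l (d i) = s} ≤
      ENNReal.ofReal M * (Pk L k) {d | ∀ i, Rt l (d i)} := by
    rw [qq_succ_set, pk_split L _ (measurableSet_qq_succ l k s),
      Measure.prod_apply_symm (measurableSet_qq_succ l k s)]
    rw [← lintegral_indicator_const (measurableSet_all l k)]
    apply lintegral_mono
    intro e
    beta_reduce
    by_cases he : ∀ i, Rt l (e i)
    · have hm : e ∈ {d : Fin k → Tr Δ | ∀ i, Rt l (d i)} := he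
      rw [Set.indicator_of_mem hm]
      have hsub : (fun x => (x, e)) ⁻¹' {x : Tr Δ × (Fin k → Tr Δ) | (Rt l x.1 ∧ ∀ i, Rt l (x.2 i)) ∧
        tv l x.1 + ∑ i, tv l (x.2 i) = s} ⊆ {τ | Rt l τ ∧ tv l τ = s - ∑ i, tv l (e i)} := by
        rintro τ ⟨⟨h1, -⟩, h2⟩
        refine ⟨h1, ?_⟩
        simp only at h2
        linarith
      refine (measure_mono hsub).trans ?_
      have := h (s - ∑ i, tv l (e i))
      unfold rr at this
      rw [measureReal_def] at this
      rw [← ENNReal.ofReal_toReal (measure_ne_top L _)]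
      exact ENNReal.ofReal_le_ofReal this
    · have hm : e ∉ {d : Fin k → Tr Δ | ∀ i, Rt l (d i)} := he
      rw [Set.indicator_of_notMem hm]
      have : (fun x => (x, e)) ⁻¹' {x : Tr Δ × (Fin k → Tr Δ) | (Rt l x.1 ∧ ∀ i, Rt l (x.2 i)) ∧
        tv l x.1 + ∑ i, tv l (x.2 i) = s} = ∅ := by
        ext τ
        simp only [Set.mem_preimage, Set.mem_ofPred_eq, Set.mem_empty_iff_false, iff_false]
        rintro ⟨⟨-, h2⟩, -⟩
        exact he h2
      rw [this]; simp
  unfold qq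
  rw [measureReal_def]
  refine (ENNReal.toReal_mono (ENNReal.mul_ne_top ENNReal.ofReal_ne_top (measure_ne_top _ _)) h1).trans ?_
  rw [ENNReal.toReal_mul, ENNReal.toReal_ofReal hM]
  exact mul_le_mul_of_nonneg_left (all_le L l k) hM

/-- atoms of the resolvent are at most the atom at zero -/
lemma rr_le_zero {L : Measure (Tr Δ)} [IsProbabilityMeasure L] {p ph : ℕ → ℝ} {m : ℝ}
    (hL : Fix L p ph m) (l : ℝ) (hx : 0 < xx L l) (hph : ph 1 < 1) (s : ℝ) :
    rr L l s ≤ rr L l 0 := by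
  have hx1 : xx L l ≤ 1 := measureReal_le_one
  have hbdd : BddAbove (Set.range (rr L l)) := ⟨1, by rintro _ ⟨s, rfl⟩; exact measureReal_le_one⟩
  set M := ⨆ s, rr L l s with hMdef
  have hM : ∀ s, rr L l s ≤ M := fun s => le_ciSup hbdd s
  have hM0 : 0 ≤ M := (rr_nonneg L l 0).trans (hM 0)
  set κ : ℝ := ph 1 + (1 - ph 1) * (1 - xx L l) with hκ
  have hκ1 : κ < 1 := by
    have : 0 < (1 - ph 1) * xx L l := mul_pos (by linarith) hx
    rw [hκ]; nlinarith
  have hκ0 : 0 ≤ κ := by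
    have h1 := ph_nonneg hL 1
    have : 0 ≤ (1 - ph 1) * (1 - xx L l) := mul_nonneg (by linarith) (by linarith)
    rw [hκ]; linarith
  have hbound : ∀ s, s ≠ 0 → rr L l s ≤ κ * M := by
    intro s hs
    rw [rr_eq hL l s hs]
    have hterm : ∀ k ∈ Finset.range Δ, ph k * qq L l k (l - s⁻¹) ≤
        ph k * ((if k = 1 then 1 else (1 - xx L l)) * M) := by
      intro k _
      rcases k with _ | _ | k
      · simp [ph_zero hL]
      · apply mul_le_mul_of_nonneg_left _ (ph_nonneg hL _)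
        simp only [zero_add, if_true, one_mul]
        rw [qq_one]
        exact hM _
      · apply mul_le_mul_of_nonneg_left _ (ph_nonneg hL _)
        refine (qq_le L l (k + 1) _ M hM0 hM).trans ?_
        rw [if_neg (by omega), mul_comm]
        apply mul_le_mul_of_nonneg_right _ hM0
        calc (1 - xx L l) ^ (k + 1) ≤ (1 - xx L l) ^ 1 :=
              pow_le_pow_of_le_one (by linarith) (by linarith) (by omega)
          _ = _ := pow_one _
    refine (Finset.sum_le_sum hterm).trans ?_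
    have e : ∀ k ∈ Finset.range Δ, ph k * ((if k = 1 then 1 else (1 - xx L l)) * M) =
        (1 - xx L l) * M * ph k + (if k = 1 then xx L l * M * ph 1 else 0) := by
      intro k _
      by_cases h : k = 1
      · simp [h]; ring
      · simp [h]; ring
    rw [Finset.sum_congr rfl e, Finset.sum_add_distrib, ← Finset.mul_sum, ph_sum hL]
    have : ∑ k ∈ Finset.range Δ, (if k = 1 then xx L l * M * ph 1 else 0) ≤ xx L l * M * ph 1 := by
      rw [Finset.sum_ite_eq']
      have : 0 ≤ xx L l * M * ph 1 := mul_nonneg (mul_nonneg hx.le hM0) (ph_nonneg hL _)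
      split_ifs <;> linarith
    rw [hκ]
    nlinarith
  by_contra hcon
  push Not at hcon
  have hMpos : 0 < M := by
    have := hM s
    have := rr_nonneg L l 0
    linarith
  have hlt : max (rr L l 0) (κ * M) < M := by
    apply max_lt
    · exact hcon.trans_le (hM s)
    · nlinarith
  obtain ⟨s', hs'⟩ := exists_lt_of_lt_ciSup hlt
  by_cases h0 : s' = 0
  · subst h0
    exact absurd hs' (not_lt.2 (le_max_left _ _))
  · exact absurd hs' (not_lt.2 ((hbound s' h0).trans (le_max_right _ _)))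

end Pool.Agent.Q295.Ugw
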