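import Pool.Agent.Q295.Ugw.Gw
import Pool.Agent.Q295.Ugw.Atom

/-!
# Finitely many atoms
-/

set_option autoImplicit false

open MeasureTheory ProbabilityTheory

namespace Pool.Agent.Q295.Ugw

theorem finitely_many_atoms :
  ∀ (P : PMF ℕ), P.support.Finite → P 0 = 0 → P 1 = 0 →
  ∀ (Ω : Type) [MeasureSpace Ω] [IsProbabilityMeasure (volume : Measure Ω)]
    (N : List ℕ → Ω → ℕ),
    (∀ w, Measurable (N w)) → iIndepFun N (volume : Measure Ω) →
    (∀ k : ℕ, (volume : Measure Ω) {ω | N [] ω = k} = P k) →
    (∀ w : List ℕ, w ≠ [] → ∀ k : ℕ,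
      (volume : Measure Ω) {ω | N w ω = k}
        = ((k : ENNReal) + 1) * P (k + 1) / ∑' j : ℕ, (j : ENNReal) * P j) →
    ∀ ν : Measure ℝ, IsProbabilityMeasure ν →
      (∃ R : ℝ, ν (Set.Icc (-R) R)ᶜ = 0) →
      (∀ k : ℕ, ∫ x, x ^ k ∂ν =
        ∫ ω, ((Set.ncard {f : Fin (k + 1) → List ℕ |
            f 0 = [] ∧ f (Fin.last k) = [] ∧
            (∀ i, ∀ j < (f i).length, (f i).getD j 0 < N ((f i).take j) ω) ∧
            ∀ i : Fin k, (∃ a : ℕ, f i.succ = f i.castSucc ++ [a]) ∨
                         (∃ a : ℕ, f i.castSucc = f i.succ ++ [a])} : ℕ) : ℝ)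
          ∂(volume : Measure Ω)) →
      {x : ℝ | ν {x} ≠ 0}.Finite := by
  classical
  intro P hfin hP0 hP1 Ω _ _ N hN hind hroot hchild ν hν ⟨R, hR⟩ hmom
  -- the bound of the degrees
  set Δ : ℕ := hfin.toFinset.sup id with hΔdef
  have hbig : ∀ k, Δ < k → P k = 0 := by
    intro k hk
    by_contra h
    have hmem : k ∈ hfin.toFinset := by
      rw [Set.Finite.mem_toFinset]
      exact (PMF.mem_support_iff P k).2 h
    have : k ≤ Δ := Finset.le_sup (f := id) hmem
    omega
  -- the truncated variables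
  set g : ℕ → Fin (Δ + 1) := fun n => ⟨min n Δ, by omega⟩ with hg
  set U : List ℕ → Ω → Fin (Δ + 1) := fun w ω => g (N w ω) with hUdef
  have hgm : Measurable g := measurable_from_top
  have hU : ∀ w, Measurable (U w) := fun w => hgm.comp (hN w)
  have hindU : iIndepFun U (volume : Measure Ω) :=
    hind.comp (fun _ => g) (fun _ => hgm)
  -- almost surely the numbers are bounded
  have hzero : ∀ w k, Δ < k → (volume : Measure Ω) {ω | N w ω = k} = 0 := by
    intro w k hk
    by_cases hw : w = []
    · subst hw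
      rw [hroot, hbig k hk]
    · rw [hchild w hw, hbig (k + 1) (by omega)]
      simp
  have hbdd : ∀ w, ∀ᵐ ω ∂(volume : Measure Ω), N w ω ≤ Δ := by
    intro w
    rw [ae_iff]
    have : {ω | ¬ N w ω ≤ Δ} = ⋃ k : {k : ℕ // Δ < k}, {ω | N w ω = k} := by
      ext ω
      simp
    rw [this]
    exact measure_iUnion_null fun k => hzero w k k.2
  have hall : ∀ᵐ ω ∂(volume : Measure Ω), ∀ w, N w ω ≤ Δ := ae_all_iff.2 hbdd
  have hUN : ∀ w, ∀ a : Fin (Δ + 1), (volume : Measure Ω) {ω | U w ω = a} =
      (volume : Measure Ω) {ω | N w ω = a} := by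
    intro w a
    apply measure_congr
    filter_upwards [hbdd w] with ω hω
    apply propext
    show U w ω = a ↔ N w ω = a
    rw [hUdef]
    simp only [hg]
    rw [Fin.ext_iff]
    simp only [min_eq_left hω]
  -- the offspring law
  set ρ : Measure (Fin (Δ + 1)) := (volume : Measure Ω).map (U [0]) with hρdef
  have : IsProbabilityMeasure ρ := Measure.isProbabilityMeasure_map (hU _).aemeasurable
  have hρ : ∀ w, w ≠ [] → (volume : Measure Ω).map (U w) = ρ := by
    intro w hw
    rw [Measure.ext_iff_singleton]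
    intro a
    rw [hρdef, Measure.map_apply (hU w) (measurableSet_singleton a),
      Measure.map_apply (hU [0]) (measurableSet_singleton a)]
    have h1 := hUN w a
    have h2 := hUN [0] a
    rw [hchild w hw] at h1
    rw [hchild [0] (by simp)] at h2
    exact h1.trans h2.symm
  -- real weights
  set p : ℕ → ℝ := fun k => (P k).toReal with hp
  have hPtop : ∀ k, P k ≠ ⊤ := fun k => P.apply_ne_top k
  have hsum1 : ∑ k ∈ Finset.range (Δ + 1), p k = 1 := by
    have h1 : ∑' k, P k = 1 := P.tsum_coe
    rw [tsum_eq_sum (s := Finset.range (Δ + 1)) (fun k hk => hbig k (by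
      have : ¬ k < Δ + 1 := fun h => hk (Finset.mem_range.2 h)
      omega))] at h1
    have h2 := congrArg ENNReal.toReal h1
    rw [ENNReal.toReal_sum (fun k _ => hPtop k)] at h2
    simpa using h2
  set m : ℝ := ∑ k ∈ Finset.range (Δ + 1), (k : ℝ) * p k with hm
  have hmE : (∑' j : ℕ, (j : ENNReal) * P j).toReal = m := by
    rw [tsum_eq_sum (s := Finset.range (Δ + 1)) (fun k hk => by
      rw [hbig k (by
        have : ¬ k < Δ + 1 := fun h => hk (Finset.mem_range.2 h)
        omega), mul_zero])]
    rw [ENNReal.toReal_sum (fun k _ => ENNReal.mul_ne_top (ENNReal.natCast_ne_top k) (hPtop k))]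
    apply Finset.sum_congr rfl
    intro k _
    rw [ENNReal.toReal_mul, ENNReal.toReal_natCast]
  have hp0 : p 0 = 0 := by simp [hp, hP0]
  have hp1 : p 1 = 0 := by simp [hp, hP1]
  have hpnn : ∀ k, 0 ≤ p k := fun k => ENNReal.toReal_nonneg
  have hmpos : 0 < m := by
    have : ∑ k ∈ Finset.range (Δ + 1), p k ≤ m := by
      rw [hm]
      apply Finset.sum_le_sum
      intro k _
      rcases Nat.eq_zero_or_pos k with rfl | hk
      · simp [hp0]
      · have : (1 : ℝ) ≤ k := by exact_mod_cast hk
        nlinarith [hpnn k]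
    linarith
  set ph : ℕ → ℝ := fun k => ((k : ℝ) + 1) * p (k + 1) / m with hph
  have hρph : ∀ a : Fin (Δ + 1), ρ.real {a} = ph a := by
    intro a
    rw [measureReal_def, hρdef, Measure.map_apply (hU [0]) (measurableSet_singleton a)]
    have h2 := hUN [0] a
    rw [hchild [0] (by simp)] at h2
    have h3 : (volume : Measure Ω) (U [0] ⁻¹' {a}) =
        ((a : ℕ) + 1 : ENNReal) * P (a + 1) / ∑' j : ℕ, (j : ENNReal) * P j := h2
    rw [h3, ENNReal.toReal_div, ENNReal.toReal_mul, hmE]
    have h4 : ((a : ℕ) + 1 : ENNReal).toReal = (a : ℝ) + 1 := by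
      rw [ENNReal.toReal_add (ENNReal.natCast_ne_top _) ENNReal.one_ne_top]
      simp
    rw [h4]
  have hFix : Fix (LL ρ) p ph m := fix_LL ρ p ph m hpnn hsum1 hp0 hp1 hmpos (fun k => rfl)
    (by simp [hp, hbig (Δ + 1) (Nat.lt_succ_self Δ)]) hρph
  obtain ⟨F, hF, hmain⟩ := main2 hFix
  refine hF.subset fun l hl => ?_
  by_contra hlF
  apply hl
  -- the tree
  have htr : Measurable (tr U) := measurable_pi_iff.2 fun w => hU w
  refine atom_zero (μ := (volume : Measure Ω)) (τ := tr U) htr R hR ?_ l ?_
  · intro k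
    rw [hmom k]
    apply integral_congr_ae
    filter_upwards [hall] with ω hω
    have hval : ∀ w, ((tr U ω w : Fin (Δ + 1)) : ℕ) = N w ω := by
      intro w
      show min (N w ω) Δ = N w ω
      exact min_eq_left (hω w)
    rw [← ncard_walks]
    congr 3
    ext f
    simp only [mem_iff, hval]
  · -- the root has no eigenvector
    have hS : ∀ a : Fin (Δ + 1),
        (volume : Measure Ω) ({ω | Pt l (tr U ω)} ∩ {ω | U [] ω = a}) = 0 := by
      intro a
      have hmeasP : MeasurableSet {ω | Pt l (tr U ω)} := htr (measurableSet_Pt l)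
      have h1 := root_prob hU hindU ρ hρ a (({τ : Tr Δ | Pt l τ}).indicator 1)
        (measurable_one.indicator (measurableSet_Pt l))
      have h2 : (fun ω => ({τ : Tr Δ | Pt l τ}).indicator (1 : Tr Δ → ℝ) (clean (tr U ω))) =
          ({ω | Pt l (tr U ω)}).indicator 1 := by
        ext ω
        by_cases h : Pt l (tr U ω)
        · rw [Set.indicator_of_mem (by exact (Pt_clean l _).2 h), Set.indicator_of_mem (by exact h)]
          rfl
        · rw [Set.indicator_of_notMem (by
            intro h'; exact h ((Pt_clean l _).1 h')), Set.indicator_of_notMem (by exact h)]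
      rw [h2, integral_indicator_one hmeasP] at h1
      have h3 : ∫ d, ({τ : Tr Δ | Pt l τ}).indicator (1 : Tr Δ → ℝ) (graft a d) ∂(Pk (LL ρ) a) =
          qq (LL ρ) l a l := by
        have : (fun d : Fin a → Tr Δ => ({τ : Tr Δ | Pt l τ}).indicator (1 : Tr Δ → ℝ) (graft a d)) =
            {d : Fin a → Tr Δ | Bc l d}.indicator 1 := by
          ext d
          have hiff := Pt_graft (l := l) (Nat.lt_succ_iff.1 a.is_lt) d
          by_cases h : Pt l (graft a d)
          · rw [Set.indicator_of_mem (by exact h), Set.indicator_of_mem (by exact hiff.1 h)]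
            rfl
          · rw [Set.indicator_of_notMem (by exact h), Set.indicator_of_notMem (by
              intro h'; exact h (hiff.2 h'))]
        rw [this, integral_indicator_one (measurableSet_Bc l _)]
        rfl
      rw [h3] at h1
      have h4 : (volume : Measure Ω).real {ω | U [] ω = a} = p a := by
        rw [measureReal_def, hUN [] a, hroot]
      rw [h4] at h1
      have h5 : p a * qq (LL ρ) l a l = 0 := by
        rcases Nat.eq_zero_or_pos (a : ℕ) with h0 | h0
        · rw [h0, hp0, zero_mul]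
        · obtain ⟨j, hj⟩ := Nat.exists_eq_add_of_le' h0
          have := hmain l hlF j (Finset.mem_range.2 (by have := a.is_lt; omega))
          rw [hj]
          exact this
      rw [h5, measureReal_restrict_apply hmeasP, measureReal_def,
        ENNReal.toReal_eq_zero_iff] at h1
      rcases h1 with h1 | h1
      · exact h1
      · exact absurd h1 (measure_ne_top _ _)
    have hcov : {ω | Pt l (tr U ω)} ⊆ ⋃ a : Fin (Δ + 1), ({ω | Pt l (tr U ω)} ∩ {ω | U [] ω = a}) := by
      intro ω hω
      exact Set.mem_iUnion.2 ⟨U [] ω, hω, rfl⟩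
    exact measure_mono_null hcov (measure_iUnion_null hS)

end Pool.Agent.Q295.Ugw
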