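import Pool.Agent.Q295.Ugw.Comp

/-!
# The recursion on the tree
-/

set_option autoImplicit false

open scoped ENNReal InnerProductSpace
open MeasureTheory

namespace Pool.Agent.Q295.Ugw

variable {Δ : ℕ}

/-- restriction of a function to the subtree at the child `i` -/
def sub (f : List ℕ → ℝ) (i : ℕ) : List ℕ → ℝ := fun v => f (i :: v)

lemma chs_sub (τ : Tr Δ) (f : List ℕ → ℝ) (i : ℕ) (v : List ℕ) :
    chs τ f (i :: v) = chs (sh τ i) (sub f i) v := rfl

lemma par_sub (c : ℝ) (f : List ℕ → ℝ) (i : ℕ) (v : List ℕ) :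
    par c f (i :: v) = par (f []) (sub f i) v := by
  unfold par sub
  by_cases h : v = []
  · subst h; simp
  · rw [if_neg (by simp), if_neg h, List.dropLast_cons_of_ne_nil h]

lemma cons_inj : Function.Injective (fun p : ℕ × List ℕ => p.1 :: p.2) := by
  rintro ⟨a, i⟩ ⟨b, j⟩ h
  simpa using h

lemma Sol.sub_sol {l : ℝ} {τ : Tr Δ} {c : ℝ} {f : List ℕ → ℝ} (h : Sol l τ c f) {i : ℕ}
    (hi : i < (τ [] : ℕ)) : Sol l (sh τ i) (f []) (sub f i) where
  supp w hw := h.supp _ (fun h' => hw h'.2)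
  eq w hw := by
    have := h.eq (i :: w) ⟨hi, hw⟩
    rw [chs_sub, par_sub] at this
    exact this
  sq := h.sq.comp_injective (i := fun v => i :: v) (fun a b hab => by simpa using hab)

lemma Sol.sub_zero {l : ℝ} {τ : Tr Δ} {c : ℝ} {f : List ℕ → ℝ} (h : Sol l τ c f) {i : ℕ}
    (hi : ¬ i < (τ [] : ℕ)) (v : List ℕ) : sub f i v = 0 :=
  h.supp _ (fun h' => hi h'.1)

lemma Sol.root {l : ℝ} {τ : Tr Δ} {c : ℝ} {f : List ℕ → ℝ} (h : Sol l τ c f) :
    ∑ i ∈ Finset.range (τ []), sub f i [] + c = l * f [] := by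
  have := h.eq [] (mem_nil τ)
  simpa [chs, sub] using this

/-- energy decomposition for functions which vanish off the first `n` subtrees -/
lemma En_decomp (f : List ℕ → ℝ) (hf : Summable (fun w => f w ^ 2)) (n : ℕ)
    (h0 : ∀ i, n ≤ i → ∀ v, sub f i v = 0) :
    En f = f [] ^ 2 + ∑ i ∈ Finset.range n, En (sub f i) := by
  unfold En
  rw [hf.tsum_eq_add_tsum_ite []]
  congr 1
  have hsupp : Function.support (fun w => if w = [] then 0 else f w ^ 2) ⊆
      Set.range (fun p : ℕ × List ℕ => p.1 :: p.2) := by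
    intro w hw
    cases w with
    | nil => simp at hw
    | cons a v => exact ⟨(a, v), rfl⟩
  rw [← cons_inj.tsum_eq hsupp]
  simp only [List.cons_ne_nil, if_false]
  have hs : Summable (fun p : ℕ × List ℕ => f (p.1 :: p.2) ^ 2) := hf.comp_injective cons_inj
  rw [hs.tsum_prod]
  rw [tsum_eq_sum (s := Finset.range n)]
  · rfl
  · intro i hi
    have : (fun v : List ℕ => f (i :: v) ^ 2) = fun _ => 0 := by
      ext v
      have := h0 i (by simpa using hi) v
      simp only [sub] at this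
      rw [this]; simp
    rw [this]; simp

lemma Sol.En_eq {l : ℝ} {τ : Tr Δ} {c : ℝ} {f : List ℕ → ℝ} (h : Sol l τ c f) :
    En f = f [] ^ 2 + ∑ i ∈ Finset.range (τ []), En (sub f i) :=
  En_decomp f h.sq _ (fun i hi v => h.sub_zero (by omega) v)

/-- gluing of functions on the subtrees -/
noncomputable def glue (n : ℕ) (a : ℝ) (g : ℕ → List ℕ → ℝ) : List ℕ → ℝ
  | [] => a
  | (i :: v) => if i < n then g i v else 0

lemma sub_glue (n : ℕ) (a : ℝ) (g : ℕ → List ℕ → ℝ) (i : ℕ) (hi : i < n) :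
    sub (glue n a g) i = g i := by
  ext v
  simp [sub, glue, hi]

lemma sub_glue' (n : ℕ) (a : ℝ) (g : ℕ → List ℕ → ℝ) (i : ℕ) (hi : n ≤ i) (v : List ℕ) :
    sub (glue n a g) i v = 0 := by
  simp [sub, glue, not_lt.2 hi]

lemma glue_sol {l : ℝ} {τ : Tr Δ} {c a : ℝ} {g : ℕ → List ℕ → ℝ}
    (hg : ∀ i < (τ [] : ℕ), Sol l (sh τ i) a (g i))
    (hr : ∑ i ∈ Finset.range (τ []), g i [] + c = l * a) :
    Sol l τ c (glue (τ []) a g) ∧
      En (glue (τ []) a g) = a ^ 2 + ∑ i ∈ Finset.range (τ []), En (g i) := by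
  have hS : Sol l τ c (glue (τ []) a g) := by
    constructor
    · intro w hw
      cases w with
      | nil => exact absurd (mem_nil τ) hw
      | cons i v =>
        by_cases hi : i < (τ [] : ℕ)
        · simp only [glue, hi, if_true]
          exact (hg i hi).supp v (fun h' => hw ⟨hi, h'⟩)
        · simp [glue, hi]
    · intro w hw
      cases w with
      | nil =>
        rw [par_nil]
        simp only [chs, List.nil_append]
        rw [Finset.sum_congr rfl (g := fun i => g i [])]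
        · exact hr
        · intro i hi
          simp [glue, Finset.mem_range.1 hi]
      | cons i v =>
        obtain ⟨hi, hv⟩ := hw
        rw [chs_sub, par_sub, sub_glue _ _ _ _ hi]
        have := (hg i hi).eq v hv
        simp only [glue, hi, if_true]
        exact this
    · have h1 : Summable (fun p : ℕ × List ℕ => glue (τ []) a g (p.1 :: p.2) ^ 2) := by
        rw [summable_prod_of_nonneg (fun p => sq_nonneg _)]
        constructor
        · intro i
          by_cases hi : i < (τ [] : ℕ)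
          · simp only [glue, hi, if_true]
            exact (hg i hi).sq
          · simp only [glue, hi, if_false]
            simp
        · apply summable_of_ne_finset_zero (s := Finset.range (τ []))
          intro i hi
          have hi' : ¬ i < (τ [] : ℕ) := by simpa using hi
          simp [glue, hi']
      have h2 : Summable (fun w : List ℕ => if w = [] then 0 else glue (τ []) a g w ^ 2) := by
        rw [← cons_inj.summable_iff]
        · convert h1 using 1
          ext p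
          simp
        · intro w hw
          cases w with
          | nil => simp
          | cons b v => exact absurd ⟨(b, v), rfl⟩ hw
      have h3 := h2.add (summable_of_ne_finset_zero (s := {[]})
        (f := fun w : List ℕ => if w = [] then glue (τ []) a g w ^ 2 else 0)
        (by intro w hw; simp only [Finset.mem_singleton] at hw; simp [hw]))
      convert h3 using 1
      ext w
      by_cases hw : w = [] <;> simp [hw]
  refine ⟨hS, ?_⟩
  rw [hS.En_eq]
  congr 1
  exact Finset.sum_congr rfl fun i hi => by rw [sub_glue _ _ _ _ (Finset.mem_range.1 hi)]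

lemma Sol.smul {l : ℝ} {τ : Tr Δ} {c : ℝ} {f : List ℕ → ℝ} (h : Sol l τ c f) (a : ℝ) :
    Sol l τ (a * c) (fun w => a * f w) where
  supp w hw := by simp [h.supp w hw]
  eq w hw := by
    have := h.eq w hw
    unfold chs par at this ⊢
    rw [← Finset.mul_sum]
    split_ifs at this ⊢ with h0
    · linear_combination a * this
    · linear_combination a * this
  sq := by
    have : (fun w => (a * f w) ^ 2) = fun w => a ^ 2 * f w ^ 2 := by ext w; ring
    rw [this]
    exact h.sq.mul_left _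

lemma En_smul (a : ℝ) (f : List ℕ → ℝ) : En (fun w => a * f w) = a ^ 2 * En f := by
  unfold En
  rw [← tsum_mul_left]
  congr 1
  ext w; ring

/-! ### the functionals -/

/-- the root is in the support of an eigenfunction -/
def Pt (l : ℝ) (τ : Tr Δ) : Prop := ∃ f, Sol l τ 0 f ∧ f [] = 1

/-- the resolvent at the root exists -/
def Rt (l : ℝ) (τ : Tr Δ) : Prop := ∃ f, Sol l τ 1 f

/-- the resolvent entry -/
noncomputable def tv (l : ℝ) (τ : Tr Δ) : ℝ := sInf {a | ∃ f, Sol l τ 1 f ∧ f [] = a}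

/-- the least energy of a resolvent vector -/
noncomputable def yv (l : ℝ) (τ : Tr Δ) : ℝ := sInf {e | ∃ f, Sol l τ 1 f ∧ En f = e}

/-- the least energy of an eigenvector with value one at the root -/
noncomputable def kv (l : ℝ) (τ : Tr Δ) : ℝ := sInf {e | ∃ f, Sol l τ 0 f ∧ f [] = 1 ∧ En f = e}

/-- the spectral mass -/
noncomputable def xv (l : ℝ) (τ : Tr Δ) : ℝ := (kv l τ)⁻¹

lemma tv_eq {l : ℝ} {τ : Tr Δ} {f : List ℕ → ℝ} (h : Sol l τ 1 f) : tv l τ = f [] := by
  unfold tv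
  have : {a | ∃ f, Sol l τ 1 f ∧ f [] = a} = {f []} := by
    ext a
    constructor
    · rintro ⟨g, hg, rfl⟩
      have := green hg h
      simp only [one_mul] at this
      simp [this]
    · rintro rfl
      exact ⟨f, h, rfl⟩
  rw [this, csInf_singleton]

lemma tv_of_not {l : ℝ} {τ : Tr Δ} (h : ¬ Rt l τ) : tv l τ = 0 := by
  unfold tv
  have : {a | ∃ f, Sol l τ 1 f ∧ f [] = a} = ∅ := by
    ext a
    simp only [Set.mem_ofPred_eq, Set.mem_empty_iff_false, iff_false]
    rintro ⟨f, hf, -⟩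
    exact h ⟨f, hf⟩
  rw [this, Real.sInf_empty]

lemma not_Pt_Rt {l : ℝ} {τ : Tr Δ} (h1 : Pt l τ) (h2 : Rt l τ) : False := by
  obtain ⟨f, hf, hf1⟩ := h1
  obtain ⟨g, hg⟩ := h2
  have := green hf hg
  rw [hf1] at this
  simp at this

lemma sol_one {l : ℝ} {τ : Tr Δ} {c : ℝ} {f : List ℕ → ℝ} (h : Sol l τ c f) (hc : c ≠ 0) :
    Sol l τ 1 (fun w => c⁻¹ * f w) := by
  have := h.smul c⁻¹
  rwa [inv_mul_cancel₀ hc] at this

lemma Rt_of_sol {l : ℝ} {τ : Tr Δ} {c : ℝ} {f : List ℕ → ℝ} (h : Sol l τ c f) (hc : c ≠ 0) :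
    Rt l τ := ⟨_, sol_one h hc⟩

/-- the value at the root of a solution when the tree is of resolvent type -/
lemma val_of_Rt {l : ℝ} {τ : Tr Δ} {c : ℝ} {f : List ℕ → ℝ} (h : Sol l τ c f) (hR : Rt l τ) :
    f [] = c * tv l τ := by
  obtain ⟨g, hg⟩ := hR
  rw [tv_eq hg]
  have := green h hg
  linarith

/-- a solution with parent value zero vanishes at the root unless the tree is of type `Pt`. -/
lemma zero_of_not_Pt {l : ℝ} {τ : Tr Δ} {f : List ℕ → ℝ} (h : Sol l τ 0 f) (hP : ¬ Pt l τ) :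
    f [] = 0 := by
  by_contra h0
  apply hP
  have := h.smul (f [])⁻¹
  rw [mul_zero] at this
  exact ⟨_, this, inv_mul_cancel₀ h0⟩

/-- minimal resolvent vector -/
lemma exists_minR {l : ℝ} {τ : Tr Δ} (hR : Rt l τ) : ∃ f, Sol l τ 1 f ∧ En f = yv l τ := by
  obtain ⟨f0, hf0⟩ := hR
  obtain ⟨f, hf, -, hmin⟩ := exists_min l 1 Set.univ isClosed_univ τ ⟨f0, hf0, trivial⟩
  refine ⟨f, hf, le_antisymm ?_ ?_⟩
  · refine le_csInf (s := {e | ∃ f, Sol l τ 1 f ∧ En f = e}) ⟨En f, f, hf, rfl⟩ ?_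
    rintro e ⟨g, hg, rfl⟩
    exact hmin g hg trivial
  · exact csInf_le ⟨0, by rintro e ⟨g, -, rfl⟩; exact En_nonneg g⟩ ⟨f, hf, rfl⟩

lemma yv_le {l : ℝ} {τ : Tr Δ} {f : List ℕ → ℝ} (h : Sol l τ 1 f) : yv l τ ≤ En f :=
  csInf_le ⟨0, by rintro e ⟨g, -, rfl⟩; exact En_nonneg g⟩ ⟨f, h, rfl⟩

/-- minimal eigenvector -/
lemma exists_minP {l : ℝ} {τ : Tr Δ} (hP : Pt l τ) : ∃ f, Sol l τ 0 f ∧ f [] = 1 ∧ En f = kv l τ := by
  obtain ⟨f0, hf0, h1⟩ := hP
  obtain ⟨f, hf, h2, hmin⟩ := exists_min l 0 {1} isClosed_singleton τ ⟨f0, hf0, h1⟩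
  refine ⟨f, hf, h2, le_antisymm ?_ ?_⟩
  · refine le_csInf (s := {e | ∃ f, Sol l τ 0 f ∧ f [] = 1 ∧ En f = e}) ⟨En f, f, hf, h2, rfl⟩ ?_
    rintro e ⟨g, hg, hg1, rfl⟩
    exact hmin g hg hg1
  · exact csInf_le ⟨0, by rintro e ⟨g, -, -, rfl⟩; exact En_nonneg g⟩ ⟨f, hf, h2, rfl⟩

lemma kv_le {l : ℝ} {τ : Tr Δ} {f : List ℕ → ℝ} (h : Sol l τ 0 f) (h1 : f [] = 1) : kv l τ ≤ En f :=
  csInf_le ⟨0, by rintro e ⟨g, -, -, rfl⟩; exact En_nonneg g⟩ ⟨f, h, h1, rfl⟩

lemma kv_of_not {l : ℝ} {τ : Tr Δ} (h : ¬ Pt l τ) : kv l τ = 0 := by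
  unfold kv
  have : {e | ∃ f, Sol l τ 0 f ∧ f [] = 1 ∧ En f = e} = ∅ := by
    ext a
    simp only [Set.mem_ofPred_eq, Set.mem_empty_iff_false, iff_false]
    rintro ⟨f, hf, h1, -⟩
    exact h ⟨f, hf, h1⟩
  rw [this, Real.sInf_empty]

lemma yv_of_not {l : ℝ} {τ : Tr Δ} (h : ¬ Rt l τ) : yv l τ = 0 := by
  unfold yv
  have : {e | ∃ f, Sol l τ 1 f ∧ En f = e} = ∅ := by
    ext a
    simp only [Set.mem_ofPred_eq, Set.mem_empty_iff_false, iff_false]
    rintro ⟨f, hf, -⟩
    exact h ⟨f, hf⟩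
  rw [this, Real.sInf_empty]

lemma sq_root_le_En {f : List ℕ → ℝ} (h : Summable (fun w => f w ^ 2)) : f [] ^ 2 ≤ En f :=
  h.le_tsum [] (fun _ _ => sq_nonneg _)

lemma kv_pos {l : ℝ} {τ : Tr Δ} (hP : Pt l τ) : 1 ≤ kv l τ := by
  obtain ⟨f, hf, h1, h2⟩ := exists_minP hP
  rw [← h2]
  have := sq_root_le_En hf.sq
  rw [h1] at this
  simpa using this

lemma yv_nonneg (l : ℝ) (τ : Tr Δ) : 0 ≤ yv l τ := by
  by_cases hR : Rt l τ
  · obtain ⟨f, -, h⟩ := exists_minR hR
    rw [← h]; exact En_nonneg f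
  · rw [yv_of_not hR]

lemma yv_pos {l : ℝ} {τ : Tr Δ} (hR : Rt l τ) : 0 < yv l τ := by
  obtain ⟨f, hf, h⟩ := exists_minR hR
  rw [← h]
  rcases (En_nonneg f).lt_or_eq with h0 | h0
  · exact h0
  exfalso
  have hz : ∀ w, f w = 0 := by
    intro w
    have h1 : f w ^ 2 ≤ En f := hf.sq.le_tsum w (fun _ _ => sq_nonneg _)
    rw [← h0] at h1
    exact pow_eq_zero_iff (two_ne_zero) |>.1 (le_antisymm h1 (sq_nonneg (f w)))
  have := hf.root
  simp [sub, hz] at this

lemma xv_of_not {l : ℝ} {τ : Tr Δ} (h : ¬ Pt l τ) : xv l τ = 0 := by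
  unfold xv; rw [kv_of_not h, inv_zero]

lemma xv_pos {l : ℝ} {τ : Tr Δ} (h : Pt l τ) : 0 < xv l τ := by
  unfold xv
  have := kv_pos h
  positivity

lemma xv_nonneg (l : ℝ) (τ : Tr Δ) : 0 ≤ xv l τ := by
  by_cases h : Pt l τ
  · exact (xv_pos h).le
  · rw [xv_of_not h]

/-! ### recursion -/

/-- eigenvector at the root: all children are of resolvent type and the resolvents sum up to `l`. -/
lemma Pt_iff {l : ℝ} {τ : Tr Δ} :
    Pt l τ ↔ (∀ i < (τ [] : ℕ), Rt l (sh τ i)) ∧ ∑ i ∈ Finset.range (τ []), tv l (sh τ i) = l := by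
  constructor
  · rintro ⟨f, hf, h1⟩
    have hs : ∀ i < (τ [] : ℕ), Sol l (sh τ i) 1 (sub f i) := fun i hi => by
      have := hf.sub_sol hi
      rwa [h1] at this
    refine ⟨fun i hi => ⟨_, hs i hi⟩, ?_⟩
    have := hf.root
    rw [h1, add_zero, mul_one] at this
    refine Eq.trans ?_ this
    exact Finset.sum_congr rfl fun i hi => tv_eq (hs i (Finset.mem_range.1 hi))
  · rintro ⟨h1, h2⟩
    choose! g hg using h1
    refine ⟨_, (glue_sol (a := 1) (g := g) (c := 0) hg ?_).1, rfl⟩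
    rw [add_zero, mul_one]
    refine Eq.trans ?_ h2
    exact Finset.sum_congr rfl fun i hi => (tv_eq (hg i (Finset.mem_range.1 hi))).symm

lemma xv_rec {l : ℝ} {τ : Tr Δ} (h : Pt l τ) :
    xv l τ = (1 + ∑ i ∈ Finset.range (τ []), yv l (sh τ i))⁻¹ := by
  unfold xv
  congr 1
  have h' := Pt_iff.1 h
  apply le_antisymm
  · choose! g hg hge using fun i hi => exists_minR (h'.1 i hi)
    have := glue_sol (a := 1) (g := g) (c := 0) hg (by
      rw [add_zero, mul_one]
      refine Eq.trans ?_ h'.2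
      exact Finset.sum_congr rfl fun i hi => (tv_eq (hg i (Finset.mem_range.1 hi))).symm)
    refine (kv_le this.1 rfl).trans (le_of_eq ?_)
    rw [this.2, one_pow]
    congr 1
    exact Finset.sum_congr rfl fun i hi => hge i (Finset.mem_range.1 hi)
  · obtain ⟨f, hf, h1, h2⟩ := exists_minP h
    rw [← h2, hf.En_eq, h1, one_pow]
    refine add_le_add le_rfl (Finset.sum_le_sum fun i hi => ?_)
    have := hf.sub_sol (Finset.mem_range.1 hi)
    rw [h1] at this
    exact yv_le this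

/-- all children of resolvent type, the sum is not `l`. -/
lemma rec_R {l : ℝ} {τ : Tr Δ} (h1 : ∀ i < (τ [] : ℕ), Rt l (sh τ i))
    (h2 : ∑ i ∈ Finset.range (τ []), tv l (sh τ i) ≠ l) :
    Rt l τ ∧ tv l τ = (l - ∑ i ∈ Finset.range (τ []), tv l (sh τ i))⁻¹ ∧
      yv l τ = (tv l τ) ^ 2 * (1 + ∑ i ∈ Finset.range (τ []), yv l (sh τ i)) := by
  set S := ∑ i ∈ Finset.range (τ []), tv l (sh τ i) with hS
  have hne : l - S ≠ 0 := sub_ne_zero.2 (Ne.symm h2)
  choose! g hg hge using fun i hi => exists_minR (h1 i hi)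
  have hgl := glue_sol (τ := τ) (l := l) (a := (l - S)⁻¹) (g := fun i w => (l - S)⁻¹ * g i w) (c := 1)
    (fun i hi => by simpa using (hg i hi).smul (l - S)⁻¹) (by
      rw [← Finset.mul_sum]
      have : ∑ i ∈ Finset.range (τ []), g i [] = S :=
        Finset.sum_congr rfl fun i hi => (tv_eq (hg i (Finset.mem_range.1 hi))).symm
      rw [this]
      field_simp
      ring)
  have hR : Rt l τ := ⟨_, hgl.1⟩
  have ht : tv l τ = (l - S)⁻¹ := tv_eq hgl.1
  refine ⟨hR, ht, le_antisymm ?_ ?_⟩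
  · refine (yv_le hgl.1).trans (le_of_eq ?_)
    rw [hgl.2, ht, mul_add, mul_one, Finset.mul_sum]
    congr 1
    exact Finset.sum_congr rfl fun i hi => by rw [En_smul, hge i (Finset.mem_range.1 hi)]
  · obtain ⟨f, hf, hfe⟩ := exists_minR hR
    have hf0 : f [] = tv l τ := (tv_eq hf).symm
    rw [← hfe, hf.En_eq, hf0, mul_add, mul_one, Finset.mul_sum]
    refine add_le_add le_rfl (Finset.sum_le_sum fun i hi => ?_)
    have hs := hf.sub_sol (Finset.mem_range.1 hi)
    have hne' : f [] ≠ 0 := by rw [hf0, ht]; exact inv_ne_zero hne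
    have := yv_le (sol_one hs hne')
    rw [En_smul, hf0] at this
    rw [hf0] at hne'
    have h3 : (tv l τ) ^ 2 * yv l (sh τ i) ≤ (tv l τ) ^ 2 * ((tv l τ)⁻¹ ^ 2 * En (sub f i)) :=
      mul_le_mul_of_nonneg_left this (sq_nonneg _)
    refine h3.trans (le_of_eq ?_)
    field_simp

/-- a child carries an eigenvector. -/
lemma rec_Z {l : ℝ} {τ : Tr Δ} (h : ∃ i < (τ [] : ℕ), Pt l (sh τ i)) :
    Rt l τ ∧ tv l τ = 0 ∧
      yv l τ = (∑ i ∈ Finset.range (τ []), xv l (sh τ i))⁻¹ := by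
  classical
  obtain ⟨i0, hi0, hP0⟩ := h
  set X := ∑ i ∈ Finset.range (τ []), xv l (sh τ i) with hX
  have hXpos : 0 < X := Finset.sum_pos' (fun i _ => xv_nonneg _ _)
    ⟨i0, Finset.mem_range.2 hi0, xv_pos hP0⟩
  -- minimal eigenvectors of the children
  have hex : ∀ i, ∃ g, Sol l (sh τ i) 0 g ∧ (Pt l (sh τ i) → g [] = 1 ∧ En g = kv l (sh τ i)) := by
    intro i
    by_cases hP : Pt l (sh τ i)
    · obtain ⟨g, h1, h2, h3⟩ := exists_minP hP
      exact ⟨g, h1, fun _ => ⟨h2, h3⟩⟩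
    · refine ⟨fun _ => 0, ⟨fun _ _ => rfl, fun w hw => ?_, by simp⟩, fun h => absurd h hP⟩
      simp [chs, par]
  choose g hg hg' using hex
  have hval : ∀ i, xv l (sh τ i) * g i [] = xv l (sh τ i) := by
    intro i
    by_cases hP : Pt l (sh τ i)
    · rw [(hg' i hP).1, mul_one]
    · rw [xv_of_not hP, zero_mul]
  have hen : ∀ i, xv l (sh τ i) ^ 2 * En (g i) = xv l (sh τ i) := by
    intro i
    by_cases hP : Pt l (sh τ i)
    · rw [(hg' i hP).2]
      unfold xv
      have := kv_pos hP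
      field_simp
    · rw [xv_of_not hP]; ring
  have hgl := glue_sol (τ := τ) (l := l) (a := 0)
    (g := fun i w => (-(xv l (sh τ i) / X)) * g i w) (c := 1)
    (fun i hi => by simpa using (hg i).smul (-(xv l (sh τ i) / X))) (by
      have : ∑ i ∈ Finset.range (τ []), -(xv l (sh τ i) / X) * g i [] = -1 := by
        have e : ∀ i ∈ Finset.range (τ []), -(xv l (sh τ i) / X) * g i [] =
            -(X⁻¹ * xv l (sh τ i)) := by
          intro i _
          have := hval i
          calc -(xv l (sh τ i) / X) * g i [] = -(X⁻¹ * (xv l (sh τ i) * g i [])) := by ring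
            _ = _ := by rw [this]
        rw [Finset.sum_congr rfl e, Finset.sum_neg_distrib, ← Finset.mul_sum, ← hX,
          inv_mul_cancel₀ hXpos.ne']
      rw [this]; ring)
  have hR : Rt l τ := ⟨_, hgl.1⟩
  have ht : tv l τ = 0 := tv_eq hgl.1
  refine ⟨hR, ht, le_antisymm ?_ ?_⟩
  · refine (yv_le hgl.1).trans (le_of_eq ?_)
    rw [hgl.2]
    have e : ∀ i ∈ Finset.range (τ []), En (fun w => -(xv l (sh τ i) / X) * g i w) =
        X⁻¹ ^ 2 * xv l (sh τ i) := by
      intro i _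
      rw [En_smul]
      have := hen i
      calc (-(xv l (sh τ i) / X)) ^ 2 * En (g i) = X⁻¹ ^ 2 * (xv l (sh τ i) ^ 2 * En (g i)) := by ring
        _ = _ := by rw [this]
    rw [Finset.sum_congr rfl e, ← Finset.mul_sum, ← hX]
    field_simp
    ring
  · obtain ⟨f, hf, hfe⟩ := exists_minR hR
    have hf0 : f [] = 0 := by rw [← tv_eq hf, ht]
    rw [← hfe, hf.En_eq, hf0]
    have hroot := hf.root
    rw [hf0, mul_zero] at hroot
    -- lower bound of the energy of each piece
    have hs : ∀ i ∈ Finset.range (τ []), Sol l (sh τ i) 0 (sub f i) := fun i hi => by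
      have := hf.sub_sol (Finset.mem_range.1 hi)
      rwa [hf0] at this
    have hlow : ∀ i ∈ Finset.range (τ []),
        (sub f i []) ^ 2 ≤ En (sub f i) * xv l (sh τ i) := by
      intro i hi
      by_cases hP : Pt l (sh τ i)
      · by_cases hc : sub f i [] = 0
        · rw [hc]
          have := mul_nonneg (En_nonneg (sub f i)) (xv_nonneg l (sh τ i))
          simpa using this
        · have h1 := (hs i hi).smul (sub f i [])⁻¹
          rw [mul_zero] at h1
          have h2 := kv_le h1 (inv_mul_cancel₀ hc)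
          rw [En_smul] at h2
          have hk := kv_pos hP
          unfold xv
          have hc2 : 0 < (sub f i []) ^ 2 := by positivity
          rw [← div_eq_mul_inv, le_div_iff₀ (by linarith)]
          have h3 := mul_le_mul_of_nonneg_left h2 hc2.le
          refine h3.trans (le_of_eq ?_)
          field_simp
      · rw [zero_of_not_Pt (hs i hi) hP, xv_of_not hP]
        simp
    have hsum : ∑ i ∈ Finset.range (τ []), sub f i [] = -1 := by linarith
    -- Cauchy–Schwarz
    have hCS : (∑ i ∈ Finset.range (τ []), sub f i []) ^ 2 ≤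
        (∑ i ∈ Finset.range (τ []), En (sub f i)) * X :=
      Finset.sum_sq_le_sum_mul_sum_of_sq_le_mul _ (fun i _ => En_nonneg _)
        (fun i _ => xv_nonneg _ _) hlow
    rw [hsum] at hCS
    rw [inv_eq_one_div, div_le_iff₀ hXpos]
    linarith

/-- the converse: the resolvent type comes from one of the two cases. -/
lemma Rt_imp {l : ℝ} {τ : Tr Δ} (h : Rt l τ) :
    (∃ i < (τ [] : ℕ), Pt l (sh τ i)) ∨
      ((∀ i < (τ [] : ℕ), Rt l (sh τ i)) ∧ ∑ i ∈ Finset.range (τ []), tv l (sh τ i) ≠ l) := by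
  by_contra hcon
  push Not at hcon
  obtain ⟨hP, hR⟩ := hcon
  obtain ⟨f, hf⟩ := h
  by_cases h0 : f [] = 0
  · have hroot := hf.root
    rw [h0, mul_zero] at hroot
    have : ∑ i ∈ Finset.range (τ []), sub f i [] = 0 := by
      apply Finset.sum_eq_zero
      intro i hi
      have := hf.sub_sol (Finset.mem_range.1 hi)
      rw [h0] at this
      exact zero_of_not_Pt this (hP i (Finset.mem_range.1 hi))
    rw [this] at hroot
    norm_num at hroot
  · have hall : ∀ i < (τ [] : ℕ), Rt l (sh τ i) := fun i hi => Rt_of_sol (hf.sub_sol hi) h0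
    have hS := hR hall
    have hroot := hf.root
    have : ∑ i ∈ Finset.range (τ []), sub f i [] = f [] * l := by
      rw [← hS, Finset.mul_sum]
      exact Finset.sum_congr rfl fun i hi =>
        val_of_Rt (hf.sub_sol (Finset.mem_range.1 hi)) (hall i (Finset.mem_range.1 hi))
    rw [this] at hroot
    linarith

/-! ### measurability -/

lemma measurableSet_Pt (l : ℝ) : MeasurableSet {τ : Tr Δ | Pt l τ} := by
  simpa [Pt] using measurable_ex' (Δ := Δ) l 0 {1} isClosed_singleton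

lemma measurableSet_Rt (l : ℝ) : MeasurableSet {τ : Tr Δ | Rt l τ} := by
  simpa [Rt] using measurable_ex' (Δ := Δ) l 1 Set.univ isClosed_univ

lemma measurable_tv (l : ℝ) : Measurable (tv l : Tr Δ → ℝ) := by
  apply measurable_of_Iic
  intro b
  have : (tv l : Tr Δ → ℝ) ⁻¹' Set.Iic b =
      {τ : Tr Δ | ∃ f, Sol l τ 1 f ∧ f [] ∈ Set.Iic b} ∪
        ({τ : Tr Δ | Rt l τ}ᶜ ∩ {τ : Tr Δ | (0 : ℝ) ≤ b}) := by
    ext τ
    simp only [Set.mem_preimage, Set.mem_Iic, Set.mem_union, Set.mem_inter_iff, Set.mem_compl_iff,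
      Set.mem_ofPred_eq]
    by_cases hR : Rt l τ
    · obtain ⟨f, hf⟩ := hR
      rw [tv_eq hf]
      constructor
      · intro h; exact Or.inl ⟨f, hf, h⟩
      · rintro (⟨g, hg, h⟩ | ⟨h, -⟩)
        · rwa [← tv_eq hf, tv_eq hg]
        · exact absurd ⟨f, hf⟩ h
    · rw [tv_of_not hR]
      constructor
      · intro h; exact Or.inr ⟨hR, h⟩
      · rintro (⟨g, hg, h⟩ | ⟨-, h⟩)
        · exact absurd ⟨g, hg⟩ hR
        · exact h
  rw [this]
  exact (measurable_ex' l 1 _ isClosed_Iic).union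
    ((measurableSet_Rt l).compl.inter (MeasurableSet.const _))

lemma measurable_yv (l : ℝ) : Measurable (yv l : Tr Δ → ℝ) := by
  apply measurable_of_Iic
  intro b
  have : (yv l : Tr Δ → ℝ) ⁻¹' Set.Iic b =
      {τ : Tr Δ | ∃ f, Sol l τ 1 f ∧ f [] ∈ Set.univ ∧ En f ≤ b} ∪
        ({τ : Tr Δ | Rt l τ}ᶜ ∩ {τ : Tr Δ | (0 : ℝ) ≤ b}) := by
    ext τ
    simp only [Set.mem_preimage, Set.mem_Iic, Set.mem_union, Set.mem_inter_iff, Set.mem_compl_iff,
      Set.mem_ofPred_eq, Set.mem_univ, true_and]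
    by_cases hR : Rt l τ
    · obtain ⟨f, hf, hfe⟩ := exists_minR hR
      constructor
      · intro h; exact Or.inl ⟨f, hf, by rwa [hfe]⟩
      · rintro (⟨g, hg, h⟩ | ⟨h, -⟩)
        · exact (yv_le hg).trans h
        · exact absurd hR h
    · rw [yv_of_not hR]
      constructor
      · intro h; exact Or.inr ⟨hR, h⟩
      · rintro (⟨g, hg, h⟩ | ⟨-, h⟩)
        · exact absurd ⟨g, hg⟩ hR
        · exact h
  rw [this]
  exact (measurable_ex l 1 _ isClosed_univ b).union
    ((measurableSet_Rt l).compl.inter (MeasurableSet.const _))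

lemma measurable_kv (l : ℝ) : Measurable (kv l : Tr Δ → ℝ) := by
  apply measurable_of_Iic
  intro b
  have : (kv l : Tr Δ → ℝ) ⁻¹' Set.Iic b =
      {τ : Tr Δ | ∃ f, Sol l τ 0 f ∧ f [] ∈ ({1} : Set ℝ) ∧ En f ≤ b} ∪
        ({τ : Tr Δ | Pt l τ}ᶜ ∩ {τ : Tr Δ | (0 : ℝ) ≤ b}) := by
    ext τ
    simp only [Set.mem_preimage, Set.mem_Iic, Set.mem_union, Set.mem_inter_iff, Set.mem_compl_iff,
      Set.mem_ofPred_eq, Set.mem_singleton_iff]
    by_cases hR : Pt l τ
    · obtain ⟨f, hf, hf1, hfe⟩ := exists_minP hR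
      constructor
      · intro h; exact Or.inl ⟨f, hf, hf1, by rwa [hfe]⟩
      · rintro (⟨g, hg, hg1, h⟩ | ⟨h, -⟩)
        · exact (kv_le hg hg1).trans h
        · exact absurd hR h
    · rw [kv_of_not hR]
      constructor
      · intro h; exact Or.inr ⟨hR, h⟩
      · rintro (⟨g, hg, hg1, h⟩ | ⟨-, h⟩)
        · exact absurd ⟨g, hg, hg1⟩ hR
        · exact h
  rw [this]
  exact (measurable_ex l 0 _ isClosed_singleton b).union
    ((measurableSet_Pt l).compl.inter (MeasurableSet.const _))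

lemma measurable_xv (l : ℝ) : Measurable (xv l : Tr Δ → ℝ) := (measurable_kv l).inv

end Pool.Agent.Q295.Ugw
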