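import Pool.Agent.Q295.Ugw.Star

/-!
# All but finitely many points carry no mass
-/

set_option autoImplicit false

open scoped ENNReal InnerProductSpace Polynomial
open MeasureTheory

namespace Pool.Agent.Q295.Ugw

variable {Δ : ℕ}

/-- new denominator -/
noncomputable def TT {k : ℕ} (v : Fin k → ℝ[X] × ℝ[X]) : ℝ[X] :=
  Polynomial.X * ∏ i, (v i).2 - ∑ i, (v i).1 * ∏ j ∈ Finset.univ.erase i, (v j).2

/-- numerator-denominator pairs of the values of small blocks -/
def Qs (Δ : ℕ) : ℕ → Set (ℝ[X] × ℝ[X])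
  | 0 => {(0, 1)}
  | (h + 1) => {(0, 1)} ∪ ⋃ k ∈ Finset.range (Δ + 1),
      (fun v : Fin k → ℝ[X] × ℝ[X] => (∏ i, (v i).2, TT v)) '' {v | ∀ i, v i ∈ Qs Δ h}

lemma Qs_zero_mem (h : ℕ) : ((0, 1) : ℝ[X] × ℝ[X]) ∈ Qs Δ h := by
  cases h with
  | zero => simp [Qs]
  | succ h => rw [Qs]; exact Or.inl rfl

lemma Qs_finite (h : ℕ) : (Qs Δ h).Finite := by
  induction h with
  | zero => exact Set.finite_singleton _
  | succ h ih =>
    rw [Qs]
    refine (Set.finite_singleton _).union ((Finset.finite_toSet _).biUnion fun k _ => ?_)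
    apply Set.Finite.image
    have : {v : Fin k → ℝ[X] × ℝ[X] | ∀ i, v i ∈ Qs Δ h} = Set.univ.pi fun _ => Qs Δ h := by
      ext v; simp
    rw [this]
    exact Set.Finite.pi fun _ => ih

lemma TT_monic {k : ℕ} (v : Fin k → ℝ[X] × ℝ[X])
    (hv : ∀ i, (v i).2.Monic ∧ (v i).1.degree ≤ (v i).2.degree) :
    (TT v).Monic ∧ (∏ i, (v i).2).degree ≤ (TT v).degree := by
  have hD : (∏ i, (v i).2).Monic := Polynomial.monic_prod_of_monic _ _ fun i _ => (hv i).1
  have hXD : (Polynomial.X * ∏ i, (v i).2 : ℝ[X]).Monic := Polynomial.monic_X.mul hD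
  have hlt : (∏ i, (v i).2).degree < (Polynomial.X * ∏ i, (v i).2 : ℝ[X]).degree := by
    rw [mul_comm]
    exact Polynomial.degree_lt_degree_mul_X hD.ne_zero
  have hsum : (∑ i, (v i).1 * ∏ j ∈ Finset.univ.erase i, (v j).2).degree ≤ (∏ i, (v i).2).degree := by
    refine (Polynomial.degree_sum_le _ _).trans ?_
    apply Finset.sup_le
    intro i _
    rw [← Finset.mul_prod_erase Finset.univ (fun i => (v i).2) (Finset.mem_univ i),
      Polynomial.degree_mul, Polynomial.degree_mul]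
    exact add_le_add (hv i).2 le_rfl
  have hlt2 := hsum.trans_lt hlt
  refine ⟨hXD.sub_of_left hlt2, ?_⟩
  unfold TT
  rw [Polynomial.degree_sub_eq_left_of_degree_lt hlt2]
  exact hlt.le

lemma Qs_monic (h : ℕ) : ∀ v ∈ Qs Δ h, v.2.Monic ∧ v.1.degree ≤ v.2.degree := by
  induction h with
  | zero =>
    intro v hv
    rw [Qs] at hv
    rw [Set.mem_singleton_iff.1 hv]
    exact ⟨Polynomial.monic_one, by simp⟩
  | succ h ih =>
    intro v hv
    rw [Qs] at hv
    rcases hv with hv | hv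
    · rw [Set.mem_singleton_iff.1 hv]
      exact ⟨Polynomial.monic_one, by simp⟩
    · simp only [Set.mem_iUnion] at hv
      obtain ⟨k, _, w, hw, rfl⟩ := hv
      exact TT_monic w fun i => ih _ (hw i)

/-- the values -/
def Vs (Δ : ℕ) (l : ℝ) (h : ℕ) : Set ℝ :=
  {t | ∃ v ∈ Qs Δ h, v.2.eval l ≠ 0 ∧ t = v.1.eval l / v.2.eval l}

/-- the exceptional points -/
def Ex (Δ : ℕ) (h : ℕ) : Set ℝ :=
  ⋃ k ∈ Finset.range (Δ + 1), ⋃ v ∈ {v : Fin k → ℝ[X] × ℝ[X] | ∀ i, v i ∈ Qs Δ h},
    {l | (TT v).eval l = 0}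

lemma Ex_finite (h : ℕ) : (Ex Δ h).Finite := by
  unfold Ex
  refine (Finset.finite_toSet _).biUnion fun k _ => ?_
  apply Set.Finite.biUnion
  · have : {v : Fin k → ℝ[X] × ℝ[X] | ∀ i, v i ∈ Qs Δ h} = Set.univ.pi fun _ => Qs Δ h := by
      ext v; simp
    rw [this]
    exact Set.Finite.pi fun _ => Qs_finite h
  · intro v hv
    have hT := (TT_monic v fun i => Qs_monic h _ (hv i)).1
    have := Polynomial.finite_setOfPred_isRoot hT.ne_zero
    exact this

lemma TT_eval {k : ℕ} (v : Fin k → ℝ[X] × ℝ[X]) (l : ℝ) (hv : ∀ i, (v i).2.eval l ≠ 0) :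
    (TT v).eval l = (∏ i, (v i).2.eval l) * (l - ∑ i, (v i).1.eval l / (v i).2.eval l) := by
  unfold TT
  rw [Polynomial.eval_sub, Polynomial.eval_mul, Polynomial.eval_X, Polynomial.eval_prod,
    Polynomial.eval_finsetSum, mul_sub, Finset.mul_sum]
  congr 1
  · ring
  · apply Finset.sum_congr rfl
    intro i _
    rw [Polynomial.eval_mul, Polynomial.eval_prod,
      ← Finset.mul_prod_erase Finset.univ (fun i => (v i).2.eval l) (Finset.mem_univ i)]
    have := hv i
    field_simp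

lemma Vs_zero (l : ℝ) (h : ℕ) : (0 : ℝ) ∈ Vs Δ l h :=
  ⟨_, Qs_zero_mem h, by simp, by simp⟩

lemma Vs_step (l : ℝ) (h k : ℕ) (hk : k ≤ Δ) (v : Fin k → ℝ) (hv : ∀ i, v i ∈ Vs Δ l h)
    (hne : ∑ i, v i ≠ l) : (l - ∑ i, v i)⁻¹ ∈ Vs Δ l (h + 1) := by
  choose w hw hw0 hw1 using hv
  have hT := TT_eval w l hw0
  have hsum : ∑ i, (w i).1.eval l / (w i).2.eval l = ∑ i, v i :=
    Finset.sum_congr rfl fun i _ => (hw1 i).symm
  rw [hsum] at hT
  have hD : ∏ i, (w i).2.eval l ≠ 0 := Finset.prod_ne_zero_iff.2 fun i _ => hw0 i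
  have hne' : l - ∑ i, v i ≠ 0 := sub_ne_zero.2 (Ne.symm hne)
  refine ⟨(∏ i, (w i).2, TT w), ?_, ?_, ?_⟩
  · rw [Qs]
    right
    simp only [Set.mem_iUnion]
    exact ⟨k, Finset.mem_range.2 (by omega), w, hw, rfl⟩
  · rw [hT]; exact mul_ne_zero hD hne'
  · simp only
    rw [hT, Polynomial.eval_prod]
    field_simp

lemma Ex_of (l : ℝ) (h k : ℕ) (hk : k ≤ Δ) (v : Fin k → ℝ) (hv : ∀ i, v i ∈ Vs Δ l h)
    (he : ∑ i, v i = l) : l ∈ Ex Δ h := by
  choose w hw hw0 hw1 using hv
  have hT := TT_eval w l hw0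
  have hsum : ∑ i, (w i).1.eval l / (w i).2.eval l = ∑ i, v i :=
    Finset.sum_congr rfl fun i _ => (hw1 i).symm
  rw [hsum, he, sub_self, mul_zero] at hT
  unfold Ex
  simp only [Set.mem_iUnion]
  exact ⟨k, Finset.mem_range.2 (by omega), w, hw, hT⟩

/-- blocks at a non-exceptional point are large -/
lemma block_large (l : ℝ) (h : ℕ) (hl : l ∉ Ex Δ h) (j : ℕ) (hj : j + 1 ≤ Δ)
    (d : Fin (j + 1) → Tr Δ) (hB : Bc l d) : h + 2 ≤ 1 + ∑ i, nb l h (d i) := by
  by_contra hcon
  push Not at hcon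
  apply hl
  refine Ex_of l h (j + 1) hj (fun i => tv l (d i)) ?_ hB.2
  intro i
  refine tv_small l (Vs Δ l) (Vs_zero l) (fun h k hk v hv hne => Vs_step l h k hk v hv hne) h (d i)
    (hB.1 i) ?_
  have : nb l h (d i) ≤ ∑ i, nb l h (d i) :=
    Finset.single_le_sum (f := fun i => nb l h (d i)) (fun _ _ => Nat.zero_le _) (Finset.mem_univ i)
  omega

/-! ### the path argument -/

/-- resolvent values along a path -/
noncomputable def sg (l : ℝ) : ℕ → ℝ
  | 0 => 0
  | (j + 1) => (l - sg l j)⁻¹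

lemma sg_mem (l : ℝ) (hΔ : 1 ≤ Δ) (J : ℕ) (hne : ∀ j < J, l ≠ sg l j) : sg l J ∈ Vs Δ l J := by
  induction J with
  | zero => exact Vs_zero l 0
  | succ J ih =>
    have h1 := ih (fun j hj => hne j (by omega))
    have h2 := Vs_step l J 1 hΔ (fun _ => sg l J) (fun _ => h1) (by
      simpa using (hne J (by omega)).symm)
    simpa [sg] using h2

lemma ne_sg (l : ℝ) (hΔ : 1 ≤ Δ) (H : ℕ) (hl : ∀ h ≤ H, l ∉ Ex Δ h) : ∀ j ≤ H, l ≠ sg l j := by
  intro j
  induction j using Nat.strong_induction_on with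
  | _ j ih =>
    intro hj heq
    have h1 := sg_mem (Δ := Δ) l hΔ j (fun i hi => ih i hi (by omega))
    exact hl j hj (Ex_of l j 1 hΔ (fun _ => sg l j) (fun _ => h1) (by simpa using heq.symm))

section path

variable {L : Measure (Tr Δ)} [IsProbabilityMeasure L] {p ph : ℕ → ℝ} {m : ℝ}

/-- the total -/
noncomputable def DD (L : Measure (Tr Δ)) (p : ℕ → ℝ) (l : ℝ) : ℝ :=
  ∑ j ∈ Finset.range Δ, p (j + 1) * (2 * E1 L l (j + 1) + ((j : ℝ) - 1) * qq L l (j + 1) l)

/-- the coefficient -/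
noncomputable def C3 (Δ : ℕ) (p : ℕ → ℝ) : ℝ :=
  ∑ j ∈ Finset.range Δ, p (j + 1) * ((j + 1).choose 3 : ℕ)

lemma DD_le (hL : Fix L p ph m) (l : ℝ) : DD L p l ≤ C3 Δ p * xx L l ^ 3 := by
  unfold DD C3
  rw [star hL, Finset.sum_mul]
  apply Finset.sum_le_sum
  intro j _
  rw [mul_assoc]
  exact mul_le_mul_of_nonneg_left (E2_le L l _) (hL.nn _)

omit [IsProbabilityMeasure L] in
lemma DD_term (hL : Fix L p ph m) (l : ℝ) (j : ℕ) :
    0 ≤ p (j + 1) * (2 * E1 L l (j + 1) + ((j : ℝ) - 1) * qq L l (j + 1) l) := by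
  rcases Nat.eq_zero_or_pos j with rfl | hj
  · simp [hL.p1]
  · have h1 : (0 : ℝ) ≤ (j : ℝ) - 1 := by
      have : (1 : ℝ) ≤ j := by exact_mod_cast hj
      linarith
    have h2 := E1_nonneg L l (j + 1)
    have h3 := qq_nonneg L l (j + 1) l
    have h4 := hL.nn (j + 1)
    positivity

lemma vanish (hL : Fix L p ph m) (l : ℝ) (hD : DD L p l ≤ 0) (j : ℕ) (hj : j ∈ Finset.range Δ) :
    p (j + 1) * qq L l (j + 1) l = 0 := by
  classical
  have h0 : DD L p l = 0 := le_antisymm hD (Finset.sum_nonneg fun j _ => DD_term hL l j)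
  have h1 := (Finset.sum_eq_zero_iff_of_nonneg (fun j _ => DD_term hL l j)).1 h0 j hj
  rcases Nat.eq_zero_or_pos j with rfl | hjp
  · simp [hL.p1]
  rcases mul_eq_zero.1 h1 with h2 | h2
  · rw [h2, zero_mul]
  · have h3 : (0 : ℝ) ≤ (j : ℝ) - 1 := by
      have : (1 : ℝ) ≤ j := by exact_mod_cast hjp
      linarith
    have h4 := E1_nonneg L l (j + 1)
    have h5 := qq_nonneg L l (j + 1) l
    have h6 : E1 L l (j + 1) = 0 := by
      have := mul_nonneg h3 h5
      linarith
    unfold E1 at h6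
    rw [integral_eq_zero_iff_of_nonneg] at h6
    · have h7 : (Pk L (j + 1)) {d | Bc l d} = 0 := by
        have := ae_iff.1 h6
        refine measure_mono_null ?_ this
        intro d hd
        have hd' : Bc l d := hd
        show ¬ ((if Bc l d then Xo l d else 0) = (0 : (Fin (j + 1) → Tr Δ) → ℝ) d)
        rw [if_pos hd']
        exact (Xo_pos l d).ne'
      have h8 : qq L l (j + 1) l = 0 := by
        unfold qq
        rw [measureReal_def]
        have : {d : Fin (j + 1) → Tr Δ | (∀ i, Rt l (d i)) ∧ ∑ i, tv l (d i) = l} = {d | Bc l d} := rfl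
        rw [this, h7]; rfl
      rw [h8, mul_zero]
    · intro d
      simp only [Pi.zero_apply]
      split_ifs
      · exact (Xo_pos l d).le
      · exact le_rfl
    · refine integrable_of_bdd _ ?_ 1 ?_
      · exact Measurable.ite (measurableSet_Bc l _) (measurable_Xo l _) measurable_const
      · intro d
        have h1 := Xo_pos l d
        have h2 := Xo_le l d
        split_ifs
        · rw [abs_le]; constructor <;> linarith
        · simp

/-- the contributions of the branch points -/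
noncomputable def QQ (L : Measure (Tr Δ)) (ph : ℕ → ℝ) (l s : ℝ) : ℝ :=
  ∑ k ∈ Finset.range Δ, if k = 1 then 0 else ph k * qq L l k s

lemma two_le (hL : Fix L p ph m) : 2 ≤ Δ := by
  by_contra h
  have h1 := hL.sum1
  have : Δ = 0 ∨ Δ = 1 := by omega
  rcases this with rfl | rfl
  · simp [hL.p0] at h1
  · rw [Finset.sum_range_succ, Finset.sum_range_succ] at h1
    simp [hL.p0, hL.p1] at h1

lemma G_split (hL : Fix L p ph m) (l s : ℝ) :
    ∑ k ∈ Finset.range Δ, ph k * qq L l k s = ph 1 * rr L l s + QQ L ph l s := by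
  have h2 := two_le hL
  unfold QQ
  have : ph 1 * rr L l s = ∑ k ∈ Finset.range Δ, if k = 1 then ph 1 * rr L l s else 0 := by
    rw [Finset.sum_ite_eq', if_pos (Finset.mem_range.2 (by omega))]
  rw [this, ← Finset.sum_add_distrib]
  apply Finset.sum_congr rfl
  intro k _
  by_cases hk : k = 1
  · subst hk; simp [qq_one]
  · simp [hk]

lemma QQ_le (hL : Fix L p ph m) (l s' : ℝ) :
    QQ L ph l (l - s') * rr L l s' ≤ 3 / m * DD L p l := by
  unfold QQ DD
  rw [Finset.sum_mul, Finset.mul_sum]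
  apply Finset.sum_le_sum
  intro k _
  have hm := hL.m_pos
  have hterm := DD_term hL l k
  by_cases hk1 : k = 1
  · rw [if_pos hk1, zero_mul]; positivity
  rw [if_neg hk1]
  rcases Nat.eq_zero_or_pos k with rfl | hk
  · rw [ph_zero hL]
    simp only [zero_mul]
    positivity
  have hk2 : (2 : ℝ) ≤ k := by
    have : 2 ≤ k := by omega
    exact_mod_cast this
  have h1 := qq_ge L l k l s'
  have h3 := E1_nonneg L l (k + 1)
  have h4 := hL.nn (k + 1)
  have h5 := qq_nonneg L l (k + 1) l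
  calc ph k * qq L l k (l - s') * rr L l s' = ph k * (rr L l s' * qq L l k (l - s')) := by ring
    _ ≤ ph k * qq L l (k + 1) l := mul_le_mul_of_nonneg_left h1 (ph_nonneg hL k)
    _ = (((k : ℝ) + 1) * (p (k + 1) * qq L l (k + 1) l)) / m := by
        rw [hL.ph_def]; ring
    _ ≤ (3 * (p (k + 1) * (2 * E1 L l (k + 1) + ((k : ℝ) - 1) * qq L l (k + 1) l))) / m := by
        apply div_le_div_of_nonneg_right _ hm.le
        have h6 : 0 ≤ p (k + 1) * E1 L l (k + 1) := mul_nonneg h4 h3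
        have h7 : 0 ≤ p (k + 1) * qq L l (k + 1) l := mul_nonneg h4 h5
        nlinarith
    _ = _ := by ring

lemma rr_sg (hL : Fix L p ph m) (l : ℝ) (J : ℕ) (hne : ∀ j < J, l ≠ sg l j) :
    ph 1 ^ J * rr L l 0 ≤ rr L l (sg l J) := by
  have h2 := two_le hL
  induction J with
  | zero => simp [sg]
  | succ J ih =>
    have h1 := ih (fun j hj => hne j (by omega))
    have h3 : l - sg l J ≠ 0 := sub_ne_zero.2 (hne J (by omega))
    have h4 : sg l (J + 1) ≠ 0 := by simp only [sg]; exact inv_ne_zero h3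
    rw [rr_eq hL l _ h4]
    have h5 : l - (sg l (J + 1))⁻¹ = sg l J := by simp only [sg, inv_inv]; ring
    rw [h5]
    calc ph 1 ^ (J + 1) * rr L l 0 = ph 1 * (ph 1 ^ J * rr L l 0) := by ring
      _ ≤ ph 1 * rr L l (sg l J) := mul_le_mul_of_nonneg_left h1 (ph_nonneg hL 1)
      _ = ph 1 * qq L l 1 (sg l J) := by rw [qq_one]
      _ ≤ _ := Finset.single_le_sum (f := fun k => ph k * qq L l k (sg l J))
          (fun k _ => mul_nonneg (ph_nonneg hL k) (qq_nonneg L l k _)) (Finset.mem_range.2 (by omega))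

lemma path_sum (hL : Fix L p ph m) (l : ℝ) (n : ℕ) (hne : ∀ j < n, l ≠ sg l j) :
    xx L l = ∑ j ∈ Finset.range n, ph 1 ^ j * QQ L ph l (l - sg l j) +
      ph 1 ^ n * ∑ k ∈ Finset.range Δ, ph k * qq L l k (l - sg l n) := by
  induction n with
  | zero =>
    simp only [Finset.range_zero, Finset.sum_empty, pow_zero, one_mul, zero_add, sg, sub_zero]
    exact xx_eq hL l
  | succ n ih =>
    have h1 := ih (fun j hj => hne j (by omega))
    have h3 : l - sg l n ≠ 0 := sub_ne_zero.2 (hne n (by omega))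
    have h4 := rr_eq hL l (l - sg l n) h3
    have h5 : l - (l - sg l n)⁻¹ = l - sg l (n + 1) := by simp only [sg]
    rw [h5] at h4
    rw [Finset.sum_range_succ, ← h4]
    rw [G_split hL] at h1
    rw [h1]
    ring

lemma path_main (hL : Fix L p ph m) (l : ℝ) (J : ℕ) (hne : ∀ j ≤ J, l ≠ sg l j)
    (hx : 0 < xx L l) (hph : ph 1 < 1) :
    1 ≤ ((J : ℝ) + 1) * (3 / m * C3 Δ p) * xx L l + ph 1 ^ (J + 1) * Δ := by
  have h1 := path_sum hL l (J + 1) (fun j hj => hne j (by omega))
  have hm := hL.m_pos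
  set x := xx L l with hxdef
  have hz : x ≤ rr L l 0 := rr_zero_ge hL l
  have hD : DD L p l ≤ C3 Δ p * x ^ 3 := DD_le hL l
  -- each branch term
  have hterm : ∀ j ∈ Finset.range (J + 1), ph 1 ^ j * QQ L ph l (l - sg l j) ≤
      3 / m * C3 Δ p * x ^ 2 := by
    intro j hj
    have hj' : j ≤ J := by have := Finset.mem_range.1 hj; omega
    have h2 := rr_sg hL l j (fun i hi => hne i (by omega))
    have h3 := QQ_le hL l (sg l j)
    have hQ : 0 ≤ QQ L ph l (l - sg l j) := by
      unfold QQ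
      apply Finset.sum_nonneg
      intro k _
      split_ifs
      · exact le_rfl
      · exact mul_nonneg (ph_nonneg hL k) (qq_nonneg L l k _)
    have h4 : QQ L ph l (l - sg l j) * (ph 1 ^ j * x) ≤ 3 / m * (C3 Δ p * x ^ 3) := by
      calc QQ L ph l (l - sg l j) * (ph 1 ^ j * x)
          ≤ QQ L ph l (l - sg l j) * rr L l (sg l j) := by
            apply mul_le_mul_of_nonneg_left _ hQ
            refine le_trans ?_ h2
            exact mul_le_mul_of_nonneg_left hz (pow_nonneg (ph_nonneg hL 1) j)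
        _ ≤ 3 / m * DD L p l := h3
        _ ≤ _ := mul_le_mul_of_nonneg_left hD (by positivity)
    have h5 : (ph 1 ^ j * QQ L ph l (l - sg l j)) * x ≤ (3 / m * C3 Δ p * x ^ 2) * x := by
      calc (ph 1 ^ j * QQ L ph l (l - sg l j)) * x = QQ L ph l (l - sg l j) * (ph 1 ^ j * x) := by ring
        _ ≤ _ := h4
        _ = _ := by ring
    exact le_of_mul_le_mul_right h5 hx
  -- the end term
  have hend : ∑ k ∈ Finset.range Δ, ph k * qq L l k (l - sg l (J + 1)) ≤ Δ * x := by
    have h3 : l - sg l J ≠ 0 := sub_ne_zero.2 (hne J le_rfl)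
    have h4 := rr_eq hL l (l - sg l J) h3
    have h5 : l - (l - sg l J)⁻¹ = l - sg l (J + 1) := by simp only [sg]
    rw [h5] at h4
    rw [← h4]
    exact (rr_le_zero hL l hx hph _).trans (rr_zero_le hL l)
  have hpow : 0 ≤ ph 1 ^ (J + 1) := pow_nonneg (ph_nonneg hL 1) _
  have h6 : x ≤ ((J : ℝ) + 1) * (3 / m * C3 Δ p * x ^ 2) + ph 1 ^ (J + 1) * (Δ * x) := by
    calc x = _ := h1
      _ ≤ ∑ j ∈ Finset.range (J + 1), 3 / m * C3 Δ p * x ^ 2 + ph 1 ^ (J + 1) * (Δ * x) :=
          add_le_add (Finset.sum_le_sum hterm) (mul_le_mul_of_nonneg_left hend hpow)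
      _ = _ := by rw [Finset.sum_const, Finset.card_range, nsmul_eq_mul]; push_cast; ring
  have h7 : 1 * x ≤ (((J : ℝ) + 1) * (3 / m * C3 Δ p) * x + ph 1 ^ (J + 1) * Δ) * x := by
    calc 1 * x = x := one_mul x
      _ ≤ _ := h6
      _ = _ := by ring
  exact le_of_mul_le_mul_right h7 hx

/-- **all but finitely many points carry no mass** -/
theorem main2 (hL : Fix L p ph m) :
    ∃ F : Set ℝ, F.Finite ∧ ∀ l, l ∉ F → ∀ j ∈ Finset.range Δ, p (j + 1) * qq L l (j + 1) l = 0 := by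
  have hm := hL.m_pos
  have hΔ := two_le hL
  have hC0 : 0 ≤ C3 Δ p := Finset.sum_nonneg fun j _ => mul_nonneg (hL.nn _) (by positivity)
  rcases hC0.eq_or_lt with hC | hC
  · refine ⟨∅, Set.finite_empty, fun l _ j hj => vanish hL l ?_ j hj⟩
    have := DD_le hL l
    rwa [← hC, zero_mul] at this
  · -- `ph 1 < 1`
    have hph : ph 1 < 1 := by
      obtain ⟨j, hj, hpos⟩ := Finset.exists_lt_of_sum_lt (s := Finset.range Δ)
        (f := fun _ => (0 : ℝ)) (g := fun j => p (j + 1) * ((j + 1).choose 3 : ℕ))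
        (by rw [Finset.sum_const_zero]; exact hC)
      have hj2 : 2 ≤ j := by
        by_contra hlt
        have : (j + 1).choose 3 = 0 := Nat.choose_eq_zero_of_lt (by omega)
        rw [this] at hpos
        simp at hpos
      have hpj : 0 < p (j + 1) := by
        rcases (hL.nn (j + 1)).lt_or_eq with h | h
        · exact h
        · rw [← h] at hpos; simp at hpos
      have hphj : 0 < ph j := by
        rw [hL.ph_def]; positivity
      have h1 := ph_sum hL
      have h2 : ph 1 + ph j ≤ ∑ k ∈ Finset.range Δ, ph k := by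
        have hsub : ({1, j} : Finset ℕ) ⊆ Finset.range Δ := by
          intro a ha
          simp only [Finset.mem_insert, Finset.mem_singleton] at ha
          rcases ha with rfl | rfl
          · exact Finset.mem_range.2 (by omega)
          · exact hj
        have := Finset.sum_le_sum_of_subset_of_nonneg (f := ph) hsub (fun k _ _ => ph_nonneg hL k)
        rwa [Finset.sum_pair (by omega)] at this
      linarith
    have hph0 := ph_nonneg hL 1
    -- choose `J`
    obtain ⟨J, hJ⟩ : ∃ J : ℕ, ph 1 ^ (J + 1) * Δ ≤ 1 / 2 := by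
      have hΔpos : (0 : ℝ) < Δ := by exact_mod_cast (by omega : 0 < Δ)
      obtain ⟨n, hn⟩ := exists_pow_lt_of_lt_one (show (0 : ℝ) < 1 / (2 * Δ) by positivity) hph
      refine ⟨n, ?_⟩
      have h1 : ph 1 ^ (n + 1) ≤ ph 1 ^ n := pow_le_pow_of_le_one hph0 hph.le (by omega)
      calc ph 1 ^ (n + 1) * Δ ≤ (1 / (2 * Δ)) * Δ :=
            mul_le_mul_of_nonneg_right (h1.trans hn.le) hΔpos.le
        _ = 1 / 2 := by field_simp
    set K : ℝ := ((J : ℝ) + 1) * (3 / m * C3 Δ p) with hK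
    have hKpos : 0 < K := by positivity
    set x0 : ℝ := 1 / (4 * K) with hx0
    have hx0pos : 0 < x0 := by positivity
    obtain ⟨H0, hH0⟩ := exists_nat_gt (1 / x0 ^ 2)
    set H := max J H0 with hH
    refine ⟨⋃ h ∈ Finset.range (H + 1), Ex Δ h,
      (Finset.finite_toSet _).biUnion fun h _ => Ex_finite h, ?_⟩
    intro l hl j hj
    have hl' : ∀ h ≤ H, l ∉ Ex Δ h := by
      intro h hh hmem
      apply hl
      simp only [Set.mem_iUnion]
      exact ⟨h, Finset.mem_range.2 (by omega), hmem⟩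
    have hsm := smallx hL l H (fun j hj d hB => block_large l H (hl' H le_rfl) j hj d hB)
    have hxlt : xx L l < x0 := by
      have h1 : 1 / ((H : ℝ) + 2) < x0 ^ 2 := by
        rw [div_lt_iff₀ (by positivity)]
        have h2 : (H0 : ℝ) ≤ H := by exact_mod_cast le_max_right J H0
        have h3 : 1 / x0 ^ 2 < (H : ℝ) + 2 := by linarith
        rw [div_lt_iff₀ (by positivity)] at h3
        linarith
      exact lt_of_pow_lt_pow_left₀ 2 hx0pos.le (hsm.trans_lt h1)
    rcases (xx_nonneg L l).lt_or_eq with hx | hx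
    · exfalso
      have hne := ne_sg (Δ := Δ) l (by omega) H hl'
      have h1 := path_main hL l J (fun j hj => hne j (hj.trans (le_max_left _ _))) hx hph
      have h2 : K * xx L l < 1 / 2 := by
        calc K * xx L l < K * x0 := mul_lt_mul_of_pos_left hxlt hKpos
          _ = 1 / 4 := by rw [hx0]; field_simp
          _ < 1 / 2 := by norm_num
      rw [← hK] at h1
      linarith
    · apply vanish hL l _ j hj
      have := DD_le hL l
      rw [← hx] at this
      simpa using this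

end path

end Pool.Agent.Q295.Ugw
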