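import Pool.Agent.Q295.Ugw.Law

/-!
# The two mass transport identities
-/

set_option autoImplicit false

open scoped ENNReal InnerProductSpace
open MeasureTheory

namespace Pool.Agent.Q295.Ugw

variable {Δ : ℕ}

lemma measurableSet_BB (l : ℝ) : MeasurableSet {x : Tr Δ × Tr Δ | BB l x.1 x.2} := by
  refine MeasurableSet.inter (measurable_fst (measurableSet_Rt l))
    (MeasurableSet.inter (measurable_snd (measurableSet_Rt l)) ?_)
  exact measurableSet_eq_fun (((measurable_tv l).comp measurable_fst).mul
    ((measurable_tv l).comp measurable_snd)) measurable_const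

lemma measurableSet_PZ (l : ℝ) : MeasurableSet {x : Tr Δ × Tr Δ | PZ l x.1 x.2} := by
  refine MeasurableSet.inter (measurable_fst (measurableSet_Pt l))
    (MeasurableSet.inter (measurable_snd (measurableSet_Rt l)) ?_)
  exact measurableSet_eq_fun ((measurable_tv l).comp measurable_snd) measurable_const

lemma measurable_Th1 (l : ℝ) : Measurable (Function.uncurry (Th1 l : Tr Δ → Tr Δ → ℝ)) := by
  classical
  have hy1 : Measurable (fun x : Tr Δ × Tr Δ => yv l x.1) := (measurable_yv l).comp measurable_fst
  have hy2 : Measurable (fun x : Tr Δ × Tr Δ => yv l x.2) := (measurable_yv l).comp measurable_snd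
  have ht2 : Measurable (fun x : Tr Δ × Tr Δ => tv l x.2) := (measurable_tv l).comp measurable_snd
  exact Measurable.ite (measurableSet_BB l) (hy2.div (hy2.add ((ht2.pow_const 2).mul hy1)))
    measurable_const

lemma measurable_Th2 (l : ℝ) : Measurable (Function.uncurry (Th2 l : Tr Δ → Tr Δ → ℝ)) := by
  classical
  have hx1 : Measurable (fun x : Tr Δ × Tr Δ => xv l x.1) := (measurable_xv l).comp measurable_fst
  have hy2 : Measurable (fun x : Tr Δ × Tr Δ => yv l x.2) := (measurable_yv l).comp measurable_snd
  exact Measurable.ite (measurableSet_PZ l) ((hx1.mul hy2).div (measurable_const.add (hx1.mul hy2)))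
    measurable_const

lemma measurable_wt (l : ℝ) (h : ℕ) : Measurable (Function.uncurry (wt l h : Tr Δ → Tr Δ → ℝ)) := by
  classical
  have hcast : Measurable (fun n : ℕ => (n : ℝ)) := measurable_from_top
  have h1 : Measurable (fun x : Tr Δ × Tr Δ => (nb l h x.1 : ℝ)) :=
    hcast.comp ((measurable_nb l h).comp measurable_fst)
  have h2 : Measurable (fun x : Tr Δ × Tr Δ => (nb l h x.2 : ℝ)) :=
    hcast.comp ((measurable_nb l h).comp measurable_snd)
  exact Measurable.ite (measurableSet_BB l) (h2.div (h2.add h1)) measurable_const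

lemma measurable_Fs (l : ℝ) : Measurable (Function.uncurry (Fs l : Tr Δ → Tr Δ → ℝ)) := by
  classical
  have h1 := measurable_Th1 (Δ := Δ) l
  have h2 := measurable_Th2 (Δ := Δ) l
  have h3 : Measurable (fun x : Tr Δ × Tr Δ => Th2 l x.2 x.1) := h2.comp measurable_swap
  have h4 : Measurable (fun x : Tr Δ × Tr Δ => if BB l x.1 x.2 then (1 : ℝ) else 0) :=
    Measurable.ite (measurableSet_BB l) measurable_const measurable_const
  have h5 : Measurable (fun x : Tr Δ × Tr Δ => if PZ l x.1 x.2 then (1 : ℝ) else 0) :=
    Measurable.ite (measurableSet_PZ l) measurable_const measurable_const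
  have h6 : Measurable (fun x : Tr Δ × Tr Δ => if PZ l x.2 x.1 then (1 : ℝ) else 0) :=
    h5.comp measurable_swap
  exact (((h1.add h2).sub h3).sub (h4.const_mul _)).add ((h6.sub h5).const_mul _)

lemma measurable_Fw (l : ℝ) (h : ℕ) : Measurable (Function.uncurry (Fw l h : Tr Δ → Tr Δ → ℝ)) := by
  have h1 := measurable_Th1 (Δ := Δ) l
  have h2 := measurable_Th2 (Δ := Δ) l
  have h3 : Measurable (fun x : Tr Δ × Tr Δ => Th2 l x.2 x.1) := h2.comp measurable_swap
  exact ((h1.add h2).sub h3).sub (measurable_wt l h)

lemma Fs_bdd (l : ℝ) (b a : Tr Δ) : |Fs l b a| ≤ 4 := by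
  classical
  unfold Fs
  have h1 := Th1_nonneg l b a
  have h2 := Th1_le l b a
  have h3 := Th2_nonneg l b a
  have h4 := Th2_le l b a
  have h5 := Th2_nonneg l a b
  have h6 := Th2_le l a b
  rw [abs_le]
  split_ifs <;> constructor <;> linarith

lemma Fw_bdd (l : ℝ) (h : ℕ) (b a : Tr Δ) : |Fw l h b a| ≤ 4 := by
  unfold Fw
  have h1 := Th1_nonneg l b a
  have h2 := Th1_le l b a
  have h3 := Th2_nonneg l b a
  have h4 := Th2_le l b a
  have h5 := Th2_nonneg l a b
  have h6 := Th2_le l a b
  have h7 := wt_nonneg l h b a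
  have h8 := wt_le l h b a
  rw [abs_le]
  constructor <;> linarith

lemma measurableSet_Bc (l : ℝ) (k : ℕ) : MeasurableSet {d : Fin k → Tr Δ | Bc l d} :=
  measurableSet_qq l k l

lemma measurable_Xo (l : ℝ) (k : ℕ) : Measurable (fun d : Fin k → Tr Δ => Xo l d) :=
  (measurable_const.add (Finset.measurable_sum _ fun i _ =>
    (measurable_yv l).comp (measurable_pi_apply i))).inv

lemma measurableSet_K2 (l : ℝ) (k : ℕ) : MeasurableSet {d : Fin k → Tr Δ | K2 l d} := by
  have : {d : Fin k → Tr Δ | K2 l d} =
      ⋃ i : Fin k, ⋃ j : Fin k, ({d | i ≠ j} ∩ ((fun d => d i) ⁻¹' {τ | Pt l τ} ∩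
        (fun d => d j) ⁻¹' {τ | Pt l τ})) := by
    ext d
    simp [K2]
  rw [this]
  refine MeasurableSet.iUnion fun i => MeasurableSet.iUnion fun j => ?_
  exact (MeasurableSet.const _).inter (((measurable_pi_apply i) (measurableSet_Pt l)).inter
    ((measurable_pi_apply j) (measurableSet_Pt l)))

lemma measurable_Kn (l : ℝ) (k : ℕ) : Measurable (fun d : Fin k → Tr Δ => Kn l d) := by
  classical
  refine Finset.measurable_sum _ fun i _ => ?_
  have hm : Measurable (fun d : Fin k → Tr Δ => d i) := measurable_pi_apply i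
  have : MeasurableSet {d : Fin k → Tr Δ | Pt l (d i)} := hm (measurableSet_Pt l)
  exact Measurable.ite this measurable_const measurable_const

open Classical in
/-- expected spectral mass at the root with `k` children -/
noncomputable def E1 (L : Measure (Tr Δ)) (l : ℝ) (k : ℕ) : ℝ :=
  ∫ d, (if Bc l d then Xo l d else 0) ∂(Pk L k)

open Classical in
/-- expected excess -/
noncomputable def E2 (L : Measure (Tr Δ)) (l : ℝ) (k : ℕ) : ℝ :=
  ∫ d, (if K2 l d then Kn l d - 2 else 0) ∂(Pk L k)

lemma Kn_bdd (l : ℝ) {k : ℕ} (d : Fin k → Tr Δ) : 0 ≤ Kn l d ∧ Kn l d ≤ k := by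
  classical
  unfold Kn
  constructor
  · apply Finset.sum_nonneg; intro i _; split_ifs <;> norm_num
  · calc ∑ i : Fin k, (if Pt l (d i) then (1 : ℝ) else 0) ≤ ∑ i : Fin k, (1 : ℝ) := by
          apply Finset.sum_le_sum; intro i _; split_ifs <;> norm_num
      _ = k := by simp

/-- first identity -/
lemma star {L : Measure (Tr Δ)} [IsProbabilityMeasure L] {p ph : ℕ → ℝ} {m : ℝ}
    (hL : Fix L p ph m) (l : ℝ) :
    ∑ j ∈ Finset.range Δ, p (j + 1) * (2 * E1 L l (j + 1) + ((j : ℝ) - 1) * qq L l (j + 1) l) =
      ∑ j ∈ Finset.range Δ, p (j + 1) * E2 L l (j + 1) := by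
  classical
  have h := mtp hL (Fs l) (measurable_Fs l) 4 (Fs_bdd l) (Fs_anti l)
  have key : ∀ j ∈ Finset.range Δ, p (j + 1) * ∫ d, ∑ i : Fin (j + 1), Fs l (bt i d) (d i) ∂(Pk L (j + 1)) =
      (1 / 2) * (p (j + 1) * E2 L l (j + 1)) -
      (1 / 2) * (p (j + 1) * (2 * E1 L l (j + 1) + ((j : ℝ) - 1) * qq L l (j + 1) l)) := by
    intro j hj
    have hj' : j + 1 ≤ Δ := Finset.mem_range.1 hj
    have e1 : (fun d : Fin (j + 1) → Tr Δ => ∑ i : Fin (j + 1), Fs l (bt i d) (d i)) =
        fun d => ((1 - (j : ℝ)) / 2 * (if Bc l d then 1 else 0) - (if Bc l d then Xo l d else 0)) +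
          1 / 2 * (if K2 l d then Kn l d - 2 else 0) := by
      ext d
      rw [sum_Fs hj']
      split_ifs <;> ring
    rw [e1, integral_add, integral_sub, integral_const_mul, integral_const_mul]
    · have e2 : ∫ d, (if Bc l d then (1 : ℝ) else 0) ∂(Pk L (j + 1)) = qq L l (j + 1) l := by
        have : (fun d : Fin (j + 1) → Tr Δ => if Bc l d then (1 : ℝ) else 0) =
            {d | Bc l d}.indicator 1 := by
          ext d; by_cases h : Bc l d <;> simp [h]
        rw [this, integral_indicator_one (measurableSet_Bc l _)]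
        rfl
      rw [e2]
      unfold E1 E2
      ring
    · refine integrable_of_bdd _ ?_ (|(1 - (j : ℝ)) / 2|) ?_
      · exact (Measurable.ite (measurableSet_Bc l _) measurable_const measurable_const).const_mul _
      · intro d
        split_ifs <;> simp
    · refine integrable_of_bdd _ ?_ 1 ?_
      · exact Measurable.ite (measurableSet_Bc l _) (measurable_Xo l _) measurable_const
      · intro d
        have h1 := Xo_pos l d
        have h2 := Xo_le l d
        split_ifs
        · rw [abs_le]; constructor <;> linarith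
        · simp
    · refine Integrable.sub (integrable_of_bdd _ ?_ (|(1 - (j : ℝ)) / 2|) ?_)
        (integrable_of_bdd _ ?_ 1 ?_)
      · exact (Measurable.ite (measurableSet_Bc l _) measurable_const measurable_const).const_mul _
      · intro d
        split_ifs <;> simp
      · exact Measurable.ite (measurableSet_Bc l _) (measurable_Xo l _) measurable_const
      · intro d
        have h1 := Xo_pos l d
        have h2 := Xo_le l d
        split_ifs
        · rw [abs_le]; constructor <;> linarith
        · simp
    · refine integrable_of_bdd _ ?_ ((j : ℝ) + 3) ?_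
      · exact (Measurable.ite (measurableSet_K2 l _) ((measurable_Kn l _).sub measurable_const)
          measurable_const).const_mul _
      · intro d
        have h1 := Kn_bdd l d
        have hj0 : (0 : ℝ) ≤ j := by positivity
        push_cast at h1
        split_ifs
        · rw [abs_le]; constructor <;> linarith
        · simp; linarith
  rw [Finset.sum_congr rfl key, Finset.sum_sub_distrib, ← Finset.mul_sum, ← Finset.mul_sum] at h
  linarith

lemma E1_nonneg (L : Measure (Tr Δ)) (l : ℝ) (k : ℕ) : 0 ≤ E1 L l k := by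
  classical
  unfold E1
  apply integral_nonneg
  intro d
  simp only
  split_ifs
  · exact (Xo_pos l d).le
  · exact le_rfl

lemma choose_ineq (K : ℕ) (hK : 2 ≤ K) : (K : ℝ) - 2 ≤ (K.choose 3 : ℕ) := by
  obtain ⟨n, rfl⟩ := Nat.exists_eq_add_of_le hK
  induction n with
  | zero => simp
  | succ n ih =>
    have ih' := ih (by omega)
    have h1 : (2 + (n + 1)).choose 3 = (2 + n).choose 2 + (2 + n).choose 3 := by
      rw [show 2 + (n + 1) = (2 + n) + 1 by ring, Nat.choose_succ_succ]
    have h2 : 1 ≤ (2 + n).choose 2 := Nat.choose_pos (by omega)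
    have h2' : (1 : ℝ) ≤ ((2 + n).choose 2 : ℕ) := by exact_mod_cast h2
    rw [h1]
    push_cast at ih' ⊢
    linarith

lemma E2_le (L : Measure (Tr Δ)) [IsProbabilityMeasure L] (l : ℝ) (k : ℕ) :
    E2 L l k ≤ (k.choose 3 : ℕ) * xx L l ^ 3 := by
  classical
  have h1 : ∀ d : Fin k → Tr Δ, (if K2 l d then Kn l d - 2 else 0) ≤
      ∑ s ∈ Finset.powersetCard 3 (Finset.univ : Finset (Fin k)),
        ({d : Fin k → Tr Δ | ∀ i ∈ s, Pt l (d i)}).indicator (1 : (Fin k → Tr Δ) → ℝ) d := by
    intro d
    set A : Finset (Fin k) := Finset.univ.filter (fun i => Pt l (d i)) with hA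
    have e1 : ∑ s ∈ Finset.powersetCard 3 (Finset.univ : Finset (Fin k)),
        ({d : Fin k → Tr Δ | ∀ i ∈ s, Pt l (d i)}).indicator (1 : (Fin k → Tr Δ) → ℝ) d =
        ((A.card.choose 3 : ℕ) : ℝ) := by
      have : ∀ s ∈ Finset.powersetCard 3 (Finset.univ : Finset (Fin k)),
          ({d : Fin k → Tr Δ | ∀ i ∈ s, Pt l (d i)}).indicator (1 : (Fin k → Tr Δ) → ℝ) d =
          if s ⊆ A then 1 else 0 := by
        intro s _
        have hiff : (∀ i ∈ s, Pt l (d i)) ↔ s ⊆ A := by
          rw [Finset.subset_iff]
          apply forall_congr'; intro i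
          simp [hA]
        by_cases h : s ⊆ A
        · rw [if_pos h, Set.indicator_of_mem (by exact hiff.2 h)]; rfl
        · rw [if_neg h, Set.indicator_of_notMem (by intro h'; exact h (hiff.1 h'))]
      rw [Finset.sum_congr rfl this, ← Finset.card_powersetCard, Finset.sum_ite, Finset.sum_const_zero,
        add_zero, Finset.sum_const, nsmul_eq_mul, mul_one]
      congr 2
      ext s
      simp only [Finset.mem_filter, Finset.mem_powersetCard, Finset.subset_univ, true_and]
      tauto
    have e2 : Kn l d = A.card := by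
      unfold Kn
      rw [Finset.sum_boole]
    rw [e1, e2]
    split_ifs with hK
    · obtain ⟨i, j, hij, hi, hj⟩ := hK
      apply choose_ineq
      have : ({i, j} : Finset (Fin k)) ⊆ A := by
        intro a ha
        simp only [Finset.mem_insert, Finset.mem_singleton] at ha
        rcases ha with rfl | rfl <;> simp [hA, hi, hj]
      calc 2 = ({i, j} : Finset (Fin k)).card := (Finset.card_pair hij).symm
        _ ≤ _ := Finset.card_le_card this
    · positivity
  have hint : ∀ s ∈ Finset.powersetCard 3 (Finset.univ : Finset (Fin k)), Integrable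
      (({d : Fin k → Tr Δ | ∀ i ∈ s, Pt l (d i)}).indicator (1 : (Fin k → Tr Δ) → ℝ)) (Pk L k) :=
    fun s _ => (integrable_const (1 : ℝ)).indicator (measurableSet_cyl l s)
  unfold E2
  calc ∫ d, (if K2 l d then Kn l d - 2 else 0) ∂(Pk L k)
      ≤ ∫ d, ∑ s ∈ Finset.powersetCard 3 (Finset.univ : Finset (Fin k)),
        ({d : Fin k → Tr Δ | ∀ i ∈ s, Pt l (d i)}).indicator (1 : (Fin k → Tr Δ) → ℝ) d ∂(Pk L k) := by
        apply integral_mono
        · refine integrable_of_bdd _ ?_ ((k : ℝ) + 2) ?_
          · exact Measurable.ite (measurableSet_K2 l _) ((measurable_Kn l _).sub measurable_const)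
              measurable_const
          · intro d
            have h1 := Kn_bdd l d
            split_ifs
            · rw [abs_le]; constructor <;> linarith
            · simp; positivity
        · exact integrable_finsetSum _ hint
        · exact h1
    _ = ∑ s ∈ Finset.powersetCard 3 (Finset.univ : Finset (Fin k)), xx L l ^ 3 := by
        rw [integral_finsetSum _ hint]
        apply Finset.sum_congr rfl
        intro s hs
        rw [integral_indicator_one (measurableSet_cyl l s), cyl, (Finset.mem_powersetCard.1 hs).2]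
    _ = _ := by
        rw [Finset.sum_const, Finset.card_powersetCard]
        simp

/-- second inequality: many branchings force small blocks. -/
lemma smallx {L : Measure (Tr Δ)} [IsProbabilityMeasure L] {p ph : ℕ → ℝ} {m : ℝ}
    (hL : Fix L p ph m) (l : ℝ) (h : ℕ)
    (hS : ∀ j, j + 1 ≤ Δ → ∀ d : Fin (j + 1) → Tr Δ, Bc l d → h + 2 ≤ 1 + ∑ i, nb l h (d i)) :
    xx L l ^ 2 ≤ 1 / ((h : ℝ) + 2) := by
  classical
  have h0 := mtp hL (Fw l h) (measurable_Fw l h) 4 (Fw_bdd l h) (Fw_anti l h)
  have hh : (0 : ℝ) < (h : ℝ) + 2 := by positivity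
  have key : ∀ j ∈ Finset.range Δ,
      p (j + 1) * ∫ d, ∑ i : Fin (j + 1), Fw l h (bt i d) (d i) ∂(Pk L (j + 1)) ≤
        p (j + 1) * (1 / ((h : ℝ) + 2) - xx L l ^ 2) := by
    intro j hj
    have hj' : j + 1 ≤ Δ := Finset.mem_range.1 hj
    rcases Nat.eq_zero_or_pos j with rfl | hjpos
    · simp [hL.p1]
    apply mul_le_mul_of_nonneg_left _ (hL.nn _)
    obtain ⟨j', rfl⟩ := Nat.exists_eq_add_of_le hjpos
    set s : Finset (Fin (1 + j' + 1)) := {0, 1} with hs
    have hcard : s.card = 2 := by
      rw [hs, Finset.card_pair]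
      intro h01
      have := congrArg Fin.val h01
      simp at this
    calc ∫ d, ∑ i : Fin (1 + j' + 1), Fw l h (bt i d) (d i) ∂(Pk L (1 + j' + 1))
        ≤ ∫ d, (1 / ((h : ℝ) + 2) - ({d : Fin (1 + j' + 1) → Tr Δ | ∀ i ∈ s, Pt l (d i)}).indicator
          (1 : (Fin (1 + j' + 1) → Tr Δ) → ℝ) d) ∂(Pk L (1 + j' + 1)) := by
          apply integral_mono
          · apply integrable_finsetSum
            intro i _
            exact integrable_of_bdd _ ((measurable_Fw l h).comp
              ((measurable_bt i).prodMk (measurable_pi_apply i))) 4 (fun d => Fw_bdd _ _ _ _)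
          · exact (integrable_const _).sub
              ((integrable_const (1 : ℝ)).indicator (measurableSet_cyl l s))
          · intro d
            simp only
            refine (sum_Fw h hj' d (hS _ hj' d)).trans ?_
            have hXo := (Xo_pos l d).le
            have a1 : (if Bc l d then (1 / ((h : ℝ) + 2) - Xo l d) else 0) ≤ 1 / ((h : ℝ) + 2) := by
              split_ifs
              · linarith
              · positivity
            have a2 : ({d : Fin (1 + j' + 1) → Tr Δ | ∀ i ∈ s, Pt l (d i)}).indicator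
                (1 : (Fin (1 + j' + 1) → Tr Δ) → ℝ) d ≤ (if K2 l d then 1 else 0) := by
              by_cases hm : ∀ i ∈ s, Pt l (d i)
              · have hm' : d ∈ {d : Fin (1 + j' + 1) → Tr Δ | ∀ i ∈ s, Pt l (d i)} := hm
                rw [Set.indicator_of_mem hm', if_pos]
                · simp
                · refine ⟨0, 1, ?_, hm 0 (by simp [hs]), hm 1 (by simp [hs])⟩
                  intro h01
                  have := congrArg Fin.val h01
                  simp at this
              · have hm' : d ∉ {d : Fin (1 + j' + 1) → Tr Δ | ∀ i ∈ s, Pt l (d i)} := hm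
                rw [Set.indicator_of_notMem hm']
                split_ifs <;> norm_num
            linarith
      _ = 1 / ((h : ℝ) + 2) - xx L l ^ 2 := by
          have hi : Integrable (({d : Fin (1 + j' + 1) → Tr Δ | ∀ i ∈ s, Pt l (d i)}).indicator
              (1 : (Fin (1 + j' + 1) → Tr Δ) → ℝ)) (Pk L (1 + j' + 1)) :=
            (integrable_const (1 : ℝ)).indicator (measurableSet_cyl l s)
          rw [integral_sub (integrable_const _) hi,
            integral_indicator_one (measurableSet_cyl l s), cyl, hcard]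
          simp
  have h1 := Finset.sum_le_sum key
  rw [h0, ← Finset.sum_mul] at h1
  have h2 : ∑ j ∈ Finset.range Δ, p (j + 1) = 1 := by
    have := hL.sum1
    rw [Finset.sum_range_succ'] at this
    rw [hL.p0] at this
    linarith
  rw [h2] at h1
  linarith

end Pool.Agent.Q295.Ugw
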