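import Mathlib

/-!
# Rooted trees coded by offspring numbers, the adjacency operator, and Green's identity
-/

set_option autoImplicit false

open scoped ENNReal InnerProductSpace

namespace Pool.Agent.Q295.Ugw

/-- A rooted tree with at most `Δ` children per node: node `w` has children
`w ++ [i]`, `i < τ w`. -/
abbrev Tr (Δ : ℕ) := List ℕ → Fin (Δ + 1)

variable {Δ : ℕ}

/-- The subtree at the child `i` of the root. -/
def sh (τ : Tr Δ) (i : ℕ) : Tr Δ := fun v => τ (i :: v)

/-- The nodes of the tree. -/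
def mem : Tr Δ → List ℕ → Prop
  | _, [] => True
  | τ, (i :: v) => i < (τ [] : ℕ) ∧ mem (sh τ i) v

@[simp] lemma mem_nil (τ : Tr Δ) : mem τ [] := trivial

lemma mem_cons (τ : Tr Δ) (i : ℕ) (v : List ℕ) :
    mem τ (i :: v) ↔ i < (τ [] : ℕ) ∧ mem (sh τ i) v := Iff.rfl

lemma mem_append (τ : Tr Δ) (w : List ℕ) (i : ℕ) :
    mem τ (w ++ [i]) ↔ mem τ w ∧ i < (τ w : ℕ) := by
  induction w generalizing τ with
  | nil => simp [mem_cons]
  | cons a v ih =>
    rw [List.cons_append, mem_cons, ih, mem_cons]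
    simp [sh, and_assoc]

lemma mem_iff (τ : Tr Δ) (w : List ℕ) :
    mem τ w ↔ ∀ j < w.length, w.getD j 0 < (τ (w.take j) : ℕ) := by
  induction w generalizing τ with
  | nil => simp
  | cons a v ih =>
    rw [mem_cons, ih]
    constructor
    · rintro ⟨h1, h2⟩ j hj
      cases j with
      | zero => simpa using h1
      | succ j =>
        have := h2 j (by simpa using hj)
        simpa [sh] using this
    · intro h
      refine ⟨by simpa using h 0 (by simp), fun j hj => ?_⟩
      have := h (j + 1) (by simpa using hj)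
      simpa [sh] using this

/-- snoc is injective. -/
lemma snoc_inj : Function.Injective (fun p : List ℕ × ℕ => p.1 ++ [p.2]) := by
  rintro ⟨a, i⟩ ⟨b, j⟩ h
  simp only at h
  have := List.append_inj' h rfl
  simp_all

lemma snoc_range (w : List ℕ) (hw : w ≠ []) : ∃ p : List ℕ × ℕ, p.1 ++ [p.2] = w :=
  ⟨(w.dropLast, w.getLast hw), List.dropLast_append_getLast hw⟩

/-- the value at the parent, `c` being the value above the root -/
noncomputable def par (c : ℝ) (f : List ℕ → ℝ) (w : List ℕ) : ℝ := if w = [] then c else f w.dropLast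

@[simp] lemma par_nil (c : ℝ) (f : List ℕ → ℝ) : par c f [] = c := by simp [par]
@[simp] lemma par_snoc (c : ℝ) (f : List ℕ → ℝ) (w : List ℕ) (i : ℕ) :
    par c f (w ++ [i]) = f w := by simp [par]

/-- the sum over the children -/
noncomputable def chs (τ : Tr Δ) (f : List ℕ → ℝ) (w : List ℕ) : ℝ :=
  ∑ i ∈ Finset.range (τ w), f (w ++ [i])

/-- `f` is a square summable solution of the eigenvalue equation on `τ` with value `c` above the
root. -/
structure Sol (l : ℝ) (τ : Tr Δ) (c : ℝ) (f : List ℕ → ℝ) : Prop where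
  supp : ∀ w, ¬ mem τ w → f w = 0
  eq : ∀ w, mem τ w → chs τ f w + par c f w = l * f w
  sq : Summable (fun w => f w ^ 2)

/-! ### the operator -/

/-- the Hilbert space -/
abbrev H := lp (fun _ : List ℕ => ℝ) 2

/-- the parent-to-child map on functions -/
noncomputable def upf (τ : Tr Δ) (f : List ℕ → ℝ) : List ℕ → ℝ :=
  open Classical in fun w => if mem τ w ∧ w ≠ [] then f w.dropLast else 0

lemma upf_nil (τ : Tr Δ) (f : List ℕ → ℝ) : upf τ f [] = 0 := by simp [upf]

lemma upf_snoc (τ : Tr Δ) (f : List ℕ → ℝ) (w : List ℕ) (i : ℕ) [Decidable (mem τ w ∧ i < (τ w : ℕ))] :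
    upf τ f (w ++ [i]) = if mem τ w ∧ i < (τ w : ℕ) then f w else 0 := by
  simp only [upf, mem_append]
  simp

lemma hasSum_sq_upf (τ : Tr Δ) (f : List ℕ → ℝ) (hf : Summable (fun w => f w ^ 2)) :
    Summable (fun w => upf τ f w ^ 2) ∧
      ∑' w, upf τ f w ^ 2 ≤ Δ * ∑' w, f w ^ 2 := by
  classical
  have hsupp : Function.support (fun w => upf τ f w ^ 2) ⊆
      Set.range (fun p : List ℕ × ℕ => p.1 ++ [p.2]) := by
    intro w hw
    by_cases h : w = []
    · subst h; simp [upf_nil] at hw
    · exact snoc_range w h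
  have key : ∀ w, HasSum (fun i => upf τ f (w ++ [i]) ^ 2)
      (if mem τ w then (τ w : ℕ) * f w ^ 2 else 0) := by
    intro w
    have h1 : HasSum (fun i => upf τ f (w ++ [i]) ^ 2)
        (∑ i ∈ Finset.range (τ w), upf τ f (w ++ [i]) ^ 2) := by
      apply hasSum_sum_of_ne_finset_zero
      intro i hi
      rw [upf_snoc, if_neg]
      · simp
      · intro h
        exact hi (by simpa using h.2)
    convert h1 using 1
    by_cases hm : mem τ w
    · rw [if_pos hm, Finset.sum_congr rfl (g := fun _ => f w ^ 2)]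
      · simp
      · intro i hi
        rw [upf_snoc, if_pos ⟨hm, by simpa using hi⟩]
    · rw [if_neg hm, Finset.sum_eq_zero]
      intro i hi
      rw [upf_snoc, if_neg (fun h => hm h.1)]
      simp
  have hle : ∀ w, (if mem τ w then ((τ w : ℕ) : ℝ) * f w ^ 2 else 0) ≤ Δ * f w ^ 2 := by
    intro w
    split_ifs
    · have : ((τ w : ℕ) : ℝ) ≤ Δ := by
        have := (τ w).is_lt
        exact_mod_cast Nat.lt_succ_iff.mp this
      exact mul_le_mul_of_nonneg_right this (sq_nonneg _)
    · positivity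
  have hnn : ∀ w, 0 ≤ (if mem τ w then ((τ w : ℕ) : ℝ) * f w ^ 2 else 0) := by
    intro w
    split_ifs <;> positivity
  have hs1 : Summable (fun w => (if mem τ w then ((τ w : ℕ) : ℝ) * f w ^ 2 else 0)) :=
    Summable.of_nonneg_of_le hnn hle (hf.mul_left _)
  have hs2 : Summable (fun p : List ℕ × ℕ => upf τ f (p.1 ++ [p.2]) ^ 2) := by
    rw [summable_prod_of_nonneg (fun p => sq_nonneg _)]
    refine ⟨fun w => (key w).summable, ?_⟩
    simp only [fun w => (key w).tsum_eq]
    exact hs1
  have hs3 : Summable (fun w => upf τ f w ^ 2) := by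
    rw [← snoc_inj.summable_iff]
    · exact hs2
    · intro w hw
      by_contra h
      exact hw (hsupp h)
  refine ⟨hs3, ?_⟩
  have e1 : ∑' w, upf τ f w ^ 2 = ∑' p : List ℕ × ℕ, upf τ f (p.1 ++ [p.2]) ^ 2 :=
    (snoc_inj.tsum_eq hsupp).symm
  rw [e1, hs2.tsum_prod]
  simp only [fun w => (key w).tsum_eq]
  rw [← tsum_mul_left]
  exact hs1.tsum_le_tsum hle (hf.mul_left _)

lemma memlp_iff (f : List ℕ → ℝ) : Memℓp f 2 ↔ Summable (fun w => f w ^ 2) := by
  rw [memℓp_gen_iff (by norm_num)]
  have : (fun i => ‖f i‖ ^ (2 : ℝ≥0∞).toReal) = fun w => f w ^ 2 := by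
    ext w
    norm_num
  rw [this]

lemma norm_sq_eq (f : H) : ‖f‖ ^ 2 = ∑' w, f w ^ 2 := by
  have := lp.norm_rpow_eq_tsum (p := 2) (by norm_num) f
  norm_num at this
  exact this

/-- the parent-to-child operator -/
noncomputable def up (τ : Tr Δ) : H →L[ℝ] H :=
  LinearMap.mkContinuous
    { toFun := fun f => ⟨upf τ f, (memlp_iff _).2 (hasSum_sq_upf τ f ((memlp_iff _).1 (lp.memℓp f))).1⟩
      map_add' := by
        intro f g
        apply lp.ext
        ext w
        simp only [upf, lp.coeFn_add, Pi.add_apply]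
        split_ifs <;> simp
      map_smul' := by
        intro a f
        apply lp.ext
        ext w
        simp only [upf, lp.coeFn_smul, Pi.smul_apply, RingHom.id_apply]
        split_ifs <;> simp }
    (Real.sqrt Δ) (by
      intro f
      have h := (hasSum_sq_upf τ f ((memlp_iff _).1 (lp.memℓp f))).2
      rw [← norm_sq_eq] at h
      apply le_of_sq_le_sq _ (by positivity)
      rw [mul_pow, Real.sq_sqrt (by positivity)]
      refine le_trans (le_of_eq ?_) h
      rw [norm_sq_eq]
      rfl)

lemma up_apply (τ : Tr Δ) (f : H) (w : List ℕ) : up τ f w = upf τ f w := rfl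

/-- the unit vectors -/
noncomputable def dl (w : List ℕ) : H := lp.single 2 w (1 : ℝ)

lemma dl_apply (w v : List ℕ) : dl w v = if v = w then 1 else 0 := by
  unfold dl
  rw [lp.single_apply]
  by_cases h : v = w
  · subst h; simp
  · simp [h]

lemma inner_dl (w : List ℕ) (f : H) : ⟪dl w, f⟫_ℝ = f w := by
  unfold dl
  rw [lp.inner_single_left]
  simp

lemma up_dl (τ : Tr Δ) (w : List ℕ) (h : mem τ w) :
    up τ (dl w) = ∑ i ∈ Finset.range (τ w), dl (w ++ [i]) := by
  classical
  apply lp.ext
  ext v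
  rw [up_apply, lp.coeFn_sum, Finset.sum_apply]
  simp only [dl_apply]
  by_cases hv : v = []
  · subst hv
    rw [upf_nil, Finset.sum_eq_zero]
    intro i hi
    simp
  · obtain ⟨⟨u, j⟩, rfl⟩ := snoc_range v hv
    simp only [upf_snoc, dl_apply]
    by_cases huw : u = w
    · subst huw
      simp only [h, true_and, if_true, List.append_cancel_left_eq, List.cons.injEq, and_true]
      rw [Finset.sum_ite_eq]
      simp
    · rw [Finset.sum_eq_zero]
      · simp [huw]
      · intro i hi
        rw [if_neg]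
        intro h2
        exact huw (List.append_inj' h2 rfl).1

lemma up_dl' (τ : Tr Δ) (w : List ℕ) (h : ¬ mem τ w) : up τ (dl w) = 0 := by
  classical
  apply lp.ext
  ext v
  rw [up_apply]
  by_cases hv : v = []
  · subst hv
    rw [upf_nil]; rfl
  · obtain ⟨⟨u, j⟩, rfl⟩ := snoc_range v hv
    simp only [upf_snoc, dl_apply]
    by_cases huw : u = w
    · subst huw
      simp [h]
    · simp [huw]

/-- the adjacency operator -/
noncomputable def adj (τ : Tr Δ) : H →L[ℝ] H := up τ + ContinuousLinearMap.adjoint (up τ)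

lemma adj_symm (τ : Tr Δ) (f g : H) : ⟪adj τ f, g⟫_ℝ = ⟪f, adj τ g⟫_ℝ := by
  unfold adj
  rw [add_apply, add_apply, inner_add_left, inner_add_right,
    ContinuousLinearMap.adjoint_inner_left, ContinuousLinearMap.adjoint_inner_right, add_comm]

lemma down_apply (τ : Tr Δ) (f : H) (w : List ℕ) [Decidable (mem τ w)] :
    (ContinuousLinearMap.adjoint (up τ) f) w = if mem τ w then chs τ f w else 0 := by
  rw [← inner_dl, ContinuousLinearMap.adjoint_inner_right]
  split_ifs with h
  · rw [up_dl τ w h, sum_inner]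
    simp only [inner_dl]
    rfl
  · rw [up_dl' τ w h]
    simp

lemma adj_apply (τ : Tr Δ) (f : H) (w : List ℕ) (h : mem τ w) :
    adj τ f w = chs τ f w + par 0 f w := by
  classical
  unfold adj
  rw [add_apply, lp.coeFn_add, Pi.add_apply, down_apply, up_apply, if_pos h, add_comm]
  congr 1
  unfold upf par
  by_cases hw : w = []
  · simp [hw]
  · simp [h, hw]

lemma adj_apply' (τ : Tr Δ) (f : H) (w : List ℕ) (h : ¬ mem τ w) :
    adj τ f w = 0 := by
  classical
  unfold adj
  rw [add_apply, lp.coeFn_add, Pi.add_apply, down_apply, up_apply, if_neg h]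
  simp [upf, h]

lemma adj_norm (τ : Tr Δ) : ‖adj τ‖ ≤ 2 * Real.sqrt Δ := by
  have h1 : ‖up τ‖ ≤ Real.sqrt Δ := LinearMap.mkContinuous_norm_le _ (by positivity) _
  unfold adj
  refine (norm_add_le _ _).trans ?_
  rw [LinearIsometryEquiv.norm_map]
  linarith

/-- Green's identity -/
lemma green {l : ℝ} {τ : Tr Δ} {c c' : ℝ} {f g : List ℕ → ℝ} (hf : Sol l τ c f) (hg : Sol l τ c' g) :
    c * g [] = c' * f [] := by
  classical
  set F : H := ⟨f, (memlp_iff _).2 hf.sq⟩ with hF
  set G : H := ⟨g, (memlp_iff _).2 hg.sq⟩ with hG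
  have e : ∀ (c : ℝ) (f : List ℕ → ℝ) (hf : Sol l τ c f) (F : H) (hF : (F : List ℕ → ℝ) = f),
      adj τ F = l • F - c • dl [] := by
    intro c f hf F hF
    apply lp.ext
    ext w
    rw [lp.coeFn_sub, lp.coeFn_smul, lp.coeFn_smul, Pi.sub_apply, Pi.smul_apply, Pi.smul_apply,
      dl_apply]
    by_cases hw : mem τ w
    · rw [adj_apply τ F w hw, hF]
      have := hf.eq w hw
      by_cases h0 : w = []
      · subst h0
        simp only [par_nil, smul_eq_mul, if_true, mul_one] at this ⊢
        linarith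
      · have e1 : par c f w = par 0 f w := by simp [par, h0]
        simp only [smul_eq_mul, h0, if_false]
        rw [e1] at this
        linarith
    · rw [adj_apply' τ F w hw, hF, hf.supp w hw]
      have : w ≠ [] := by
        rintro rfl
        exact hw (mem_nil τ)
      simp [this]
  have e1 := e c f hf F rfl
  have e2 := e c' g hg G rfl
  have h1 : ⟪adj τ F, G⟫_ℝ = l * ⟪F, G⟫_ℝ - c * g [] := by
    rw [e1, inner_sub_left, inner_smul_left, inner_smul_left, inner_dl]
    simp [hG]
  have h2 : ⟪F, adj τ G⟫_ℝ = l * ⟪F, G⟫_ℝ - c' * f [] := by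
    rw [e2, inner_sub_right, inner_smul_right, inner_smul_right, real_inner_comm (dl []) F, inner_dl]
  have := adj_symm τ F G
  rw [h1, h2] at this
  linarith

end Pool.Agent.Q295.Ugw
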